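import Pool.Agent.DSG.Stmts

/-!
# DSG: the graph theorem of Balog-Szemeredi-Gowers
-/

set_option autoImplicit false

namespace Pool.Agent.DSG

open Finset
open scoped BigOperators

theorem thm_BSG : St_BSG := by
  intro ι κ _ _ A B G α hα hG hA hB hd
  classical
  have hnA0 : (0 : ℝ) < A.card := by exact_mod_cast hA.card_pos
  have hnB0 : (0 : ℝ) < B.card := by exact_mod_cast hB.card_pos
  -- indicator of an edge
  obtain ⟨e, he⟩ : ∃ e : ι → κ → ℝ, ∀ a b, e a b = if (a, b) ∈ G then 1 else 0 := ⟨_, fun _ _ => rfl⟩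
  have he0 : ∀ a b, 0 ≤ e a b := fun a b => by rw [he]; split_ifs <;> norm_num
  have hdeg : ∀ a, ((B.filter fun b => (a, b) ∈ G).card : ℝ) = ∑ b ∈ B, e a b := by
    intro a
    rw [Finset.card_filter]
    push_cast
    exact Finset.sum_congr rfl fun b _ => (he a b).symm
  have hcod : ∀ (S : Finset ι) (b : κ),
      ((S.filter fun a => (a, b) ∈ G).card : ℝ) = ∑ a ∈ S, e a b := by
    intro S b
    rw [Finset.card_filter]
    push_cast
    exact Finset.sum_congr rfl fun a _ => (he a b).symm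
  have hsumf : ∀ (S : Finset ι) (b : κ) (f : ι → ℝ),
      ∑ a ∈ S.filter (fun a => (a, b) ∈ G), f a = ∑ a ∈ S, e a b * f a := by
    intro S b f
    rw [Finset.sum_filter]
    refine Finset.sum_congr rfl fun a _ => ?_
    rw [he]
    split_ifs <;> simp
  have hGc : (G.card : ℝ) = ∑ a ∈ A, ∑ b ∈ B, e a b := by
    have h1 : G = (A ×ˢ B).filter fun p => p ∈ G := by
      ext p
      rw [Finset.mem_filter]
      exact ⟨fun h => ⟨hG h, h⟩, fun h => h.2⟩
    rw [← Finset.sum_product']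
    conv_lhs => rw [h1]
    rw [Finset.card_filter]
    push_cast
    exact Finset.sum_congr rfl fun p _ => (he p.1 p.2).symm
  -- the popular points of A
  obtain ⟨Ah, hAh⟩ : ∃ Ah : Finset ι, Ah = A.filter fun a => α * B.card ≤ 2 * ∑ b ∈ B, e a b :=
    ⟨_, rfl⟩
  have hAhA : Ah ⊆ A := by rw [hAh]; exact Finset.filter_subset _ _
  have hAhc : (Ah.card : ℝ) ≤ A.card := by exact_mod_cast Finset.card_le_card hAhA
  have h1 : α / 2 * (A.card * B.card) ≤ ∑ a ∈ Ah, ∑ b ∈ B, e a b := by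
    have h2 : ∑ a ∈ A, ∑ b ∈ B, e a b = ∑ a ∈ Ah, ∑ b ∈ B, e a b +
        ∑ a ∈ A.filter (fun a => ¬ α * B.card ≤ 2 * ∑ b ∈ B, e a b), ∑ b ∈ B, e a b := by
      rw [hAh, Finset.sum_filter_add_sum_filter_not]
    have h3 : ∑ a ∈ A.filter (fun a => ¬ α * B.card ≤ 2 * ∑ b ∈ B, e a b), ∑ b ∈ B, e a b
        ≤ A.card * (α / 2 * B.card) := by
      calc _ ≤ ∑ a ∈ A.filter (fun a => ¬ α * B.card ≤ 2 * ∑ b ∈ B, e a b), α / 2 * B.card := by
            refine Finset.sum_le_sum fun a ha => ?_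
            have := (Finset.mem_filter.1 ha).2
            push Not at this
            linarith
        _ = ((A.filter (fun a => ¬ α * B.card ≤ 2 * ∑ b ∈ B, e a b)).card : ℝ) *
              (α / 2 * B.card) := by
            rw [Finset.sum_const, nsmul_eq_mul]
        _ ≤ A.card * (α / 2 * B.card) := by
            refine mul_le_mul_of_nonneg_right ?_ (by positivity)
            exact_mod_cast Finset.card_filter_le _ _
    have h4 := hd
    rw [hGc, h2] at h4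
    nlinarith
  have h1' : α / 2 * (A.card * B.card) ≤ ∑ b ∈ B, ∑ a ∈ Ah, e a b := by
    rw [Finset.sum_comm]
    exact h1
  have h2 : α ^ 2 / 4 * (A.card : ℝ) ^ 2 * B.card ≤ ∑ b ∈ B, (∑ a ∈ Ah, e a b) ^ 2 := by
    have h3 := sq_sum_le_card_mul_sum_sq (s := B) (f := fun b => ∑ a ∈ Ah, e a b)
    have h4 : (α / 2 * (A.card * B.card)) ^ 2 ≤ (∑ b ∈ B, ∑ a ∈ Ah, e a b) ^ 2 :=
      pow_le_pow_left₀ (by positivity) h1' 2
    have h5 : B.card * (α ^ 2 / 4 * (A.card : ℝ) ^ 2 * B.card) ≤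
        B.card * ∑ b ∈ B, (∑ a ∈ Ah, e a b) ^ 2 := by
      calc B.card * (α ^ 2 / 4 * (A.card : ℝ) ^ 2 * B.card) = (α / 2 * (A.card * B.card)) ^ 2 := by
            ring
        _ ≤ _ := h4
        _ ≤ _ := h3
    exact le_of_mul_le_mul_left h5 hnB0
  -- bad pairs
  obtain ⟨w, hw⟩ : ∃ w : ι → ι → ℝ, ∀ a a', w a a' =
      if ∑ b ∈ B, e a b * e a' b < α ^ 3 / 128 * B.card then 1 else 0 := ⟨_, fun _ _ => rfl⟩
  have hw0 : ∀ a a', 0 ≤ w a a' := fun a a' => by rw [hw]; split_ifs <;> norm_num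
  have hw1 : ∀ a a', w a a' * ∑ b ∈ B, e a b * e a' b ≤ α ^ 3 / 128 * B.card := by
    intro a a'
    rw [hw]
    split_ifs with h
    · rw [one_mul]
      exact h.le
    · rw [zero_mul]
      positivity
  have h3 : ∑ b ∈ B, ∑ a ∈ Ah, ∑ a' ∈ Ah, e a b * (e a' b * w a a') ≤
      α ^ 3 / 128 * (A.card : ℝ) ^ 2 * B.card := by
    have h4 : ∑ b ∈ B, ∑ a ∈ Ah, ∑ a' ∈ Ah, e a b * (e a' b * w a a') =
        ∑ a ∈ Ah, ∑ a' ∈ Ah, w a a' * ∑ b ∈ B, e a b * e a' b := by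
      rw [Finset.sum_comm]
      refine Finset.sum_congr rfl fun a _ => ?_
      rw [Finset.sum_comm]
      refine Finset.sum_congr rfl fun a' _ => ?_
      rw [Finset.mul_sum]
      refine Finset.sum_congr rfl fun b _ => ?_
      ring
    rw [h4]
    calc ∑ a ∈ Ah, ∑ a' ∈ Ah, w a a' * ∑ b ∈ B, e a b * e a' b
        ≤ ∑ a ∈ Ah, ∑ a' ∈ Ah, α ^ 3 / 128 * B.card :=
          Finset.sum_le_sum fun a _ => Finset.sum_le_sum fun a' _ => hw1 a a'
      _ = (Ah.card : ℝ) ^ 2 * (α ^ 3 / 128 * B.card) := by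
          simp only [Finset.sum_const, nsmul_eq_mul]
          ring
      _ ≤ (A.card : ℝ) ^ 2 * (α ^ 3 / 128 * B.card) :=
          mul_le_mul_of_nonneg_right (pow_le_pow_left₀ (by positivity) hAhc 2) (by positivity)
      _ = _ := by ring
  -- a good vertex
  obtain ⟨b0, hb0, hb0'⟩ : ∃ b ∈ B, α ^ 2 / 8 * (A.card : ℝ) ^ 2 ≤ (∑ a ∈ Ah, e a b) ^ 2 -
      16 / α * ∑ a ∈ Ah, ∑ a' ∈ Ah, e a b * (e a' b * w a a') := by
    refine Finset.exists_le_of_sum_le hB ?_
    rw [Finset.sum_const, nsmul_eq_mul, Finset.sum_sub_distrib, ← Finset.mul_sum]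
    have h5 : 16 / α * ∑ b ∈ B, ∑ a ∈ Ah, ∑ a' ∈ Ah, e a b * (e a' b * w a a') ≤
        16 / α * (α ^ 3 / 128 * (A.card : ℝ) ^ 2 * B.card) :=
      mul_le_mul_of_nonneg_left h3 (by positivity)
    have h6 : 16 / α * (α ^ 3 / 128 * (A.card : ℝ) ^ 2 * B.card) =
        α ^ 2 / 8 * (A.card : ℝ) ^ 2 * B.card := by
      field_simp
      ring
    rw [h6] at h5
    linarith
  obtain ⟨A1, hA1⟩ : ∃ A1 : Finset ι, A1 = Ah.filter fun a => (a, b0) ∈ G := ⟨_, rfl⟩
  have hA1A : A1 ⊆ A := by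
    rw [hA1]
    exact (Finset.filter_subset _ _).trans hAhA
  have hA1h : ∀ a ∈ A1, α * B.card ≤ 2 * ∑ b ∈ B, e a b := by
    intro a ha
    rw [hA1, Finset.mem_filter, hAh, Finset.mem_filter] at ha
    exact ha.1.2
  have hA1c : (A1.card : ℝ) = ∑ a ∈ Ah, e a b0 := by rw [hA1, hcod]
  have hbad : ∑ a ∈ Ah, ∑ a' ∈ Ah, e a b0 * (e a' b0 * w a a') =
      ∑ a ∈ A1, ∑ a' ∈ A1, w a a' := by
    rw [hA1, hsumf]
    refine Finset.sum_congr rfl fun a _ => ?_
    rw [hsumf, Finset.mul_sum]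
  rw [hbad, ← hA1c] at hb0'
  have hbad0 : 0 ≤ ∑ a ∈ A1, ∑ a' ∈ A1, w a a' :=
    Finset.sum_nonneg fun a _ => Finset.sum_nonneg fun a' _ => hw0 a a'
  have hA1big : α / 3 * A.card ≤ A1.card := by
    have h5 : 0 ≤ 16 / α * ∑ a ∈ A1, ∑ a' ∈ A1, w a a' := mul_nonneg (by positivity) hbad0
    have h6 : (α / 3 * A.card) ^ 2 ≤ (A1.card : ℝ) ^ 2 := by
      have h7 : (α / 3 * A.card) ^ 2 ≤ α ^ 2 / 8 * (A.card : ℝ) ^ 2 := by
        have : 0 ≤ α ^ 2 * (A.card : ℝ) ^ 2 := by positivity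
        nlinarith
      linarith
    exact le_of_sq_le_sq h6 (by positivity)
  have hA1pos : (0 : ℝ) < A1.card := lt_of_lt_of_le (by positivity) hA1big
  have hbad1 : ∑ a ∈ A1, ∑ a' ∈ A1, w a a' ≤ α / 16 * (A1.card : ℝ) ^ 2 := by
    have h5 : 16 / α * ∑ a ∈ A1, ∑ a' ∈ A1, w a a' ≤ (A1.card : ℝ) ^ 2 := by
      have : 0 ≤ α ^ 2 / 8 * (A.card : ℝ) ^ 2 := by positivity
      linarith
    have h6 : ∑ a ∈ A1, ∑ a' ∈ A1, w a a' =
        α / 16 * (16 / α * ∑ a ∈ A1, ∑ a' ∈ A1, w a a') := by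
      field_simp
    rw [h6]
    exact mul_le_mul_of_nonneg_left h5 (by positivity)
  -- A'
  obtain ⟨A', hA'⟩ : ∃ A' : Finset ι, A' = A1.filter fun a => ∑ a' ∈ A1, w a a' ≤ α / 8 * A1.card :=
    ⟨_, rfl⟩
  have hA'A1 : A' ⊆ A1 := by rw [hA']; exact Finset.filter_subset _ _
  have hA'big : (A1.card : ℝ) ≤ 2 * A'.card := by
    have h5 : ((A1.filter fun a => ¬ ∑ a' ∈ A1, w a a' ≤ α / 8 * A1.card).card : ℝ) *
        (α / 8 * A1.card) ≤ α / 16 * (A1.card : ℝ) ^ 2 := by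
      calc _ = ∑ a ∈ A1.filter (fun a => ¬ ∑ a' ∈ A1, w a a' ≤ α / 8 * A1.card),
              α / 8 * A1.card := by rw [Finset.sum_const, nsmul_eq_mul]
        _ ≤ ∑ a ∈ A1.filter (fun a => ¬ ∑ a' ∈ A1, w a a' ≤ α / 8 * A1.card),
              ∑ a' ∈ A1, w a a' := by
            refine Finset.sum_le_sum fun a ha => ?_
            have := (Finset.mem_filter.1 ha).2
            push Not at this
            exact this.le
        _ ≤ ∑ a ∈ A1, ∑ a' ∈ A1, w a a' :=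
            Finset.sum_le_sum_of_subset_of_nonneg (Finset.filter_subset _ _)
              fun a _ _ => Finset.sum_nonneg fun a' _ => hw0 a a'
        _ ≤ _ := hbad1
    have h6 : ((A1.filter fun a => ¬ ∑ a' ∈ A1, w a a' ≤ α / 8 * A1.card).card : ℝ) ≤
        A1.card / 2 := by
      have h7 : α / 16 * (A1.card : ℝ) ^ 2 = A1.card / 2 * (α / 8 * A1.card) := by ring
      rw [h7] at h5
      exact le_of_mul_le_mul_right h5 (by positivity)
    have h8 : (A'.card : ℝ) +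
        ((A1.filter fun a => ¬ ∑ a' ∈ A1, w a a' ≤ α / 8 * A1.card).card : ℝ) = A1.card := by
      rw [hA']
      exact_mod_cast Finset.card_filter_add_card_filter_not (s := A1)
        (fun a => ∑ a' ∈ A1, w a a' ≤ α / 8 * A1.card)
    linarith
  -- B'
  obtain ⟨B', hB'⟩ : ∃ B' : Finset κ, B' = B.filter fun b => α / 4 * A1.card ≤ ∑ a ∈ A1, e a b :=
    ⟨_, rfl⟩
  have hB'B : B' ⊆ B := by rw [hB']; exact Finset.filter_subset _ _
  have hB'big : α * B.card ≤ 4 * (B'.card : ℝ) := by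
    have h5 : A1.card * (α / 2 * B.card) ≤ ∑ a ∈ A1, ∑ b ∈ B, e a b := by
      calc A1.card * (α / 2 * B.card) = ∑ a ∈ A1, α / 2 * B.card := by
            rw [Finset.sum_const, nsmul_eq_mul]
        _ ≤ _ := Finset.sum_le_sum fun a ha => by
            have := hA1h a ha
            linarith
    rw [Finset.sum_comm] at h5
    have h6 : ∑ b ∈ B, ∑ a ∈ A1, e a b = ∑ b ∈ B', ∑ a ∈ A1, e a b +
        ∑ b ∈ B.filter (fun b => ¬ α / 4 * A1.card ≤ ∑ a ∈ A1, e a b), ∑ a ∈ A1, e a b := by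
      rw [hB', Finset.sum_filter_add_sum_filter_not]
    have h7 : ∑ b ∈ B', ∑ a ∈ A1, e a b ≤ B'.card * A1.card := by
      calc ∑ b ∈ B', ∑ a ∈ A1, e a b ≤ ∑ b ∈ B', ∑ a ∈ A1, (1 : ℝ) := by
            refine Finset.sum_le_sum fun b _ => Finset.sum_le_sum fun a _ => ?_
            rw [he]
            split_ifs <;> norm_num
        _ = _ := by simp
    have h8 : ∑ b ∈ B.filter (fun b => ¬ α / 4 * A1.card ≤ ∑ a ∈ A1, e a b), ∑ a ∈ A1, e a b ≤
        B.card * (α / 4 * A1.card) := by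
      calc _ ≤ ∑ b ∈ B.filter (fun b => ¬ α / 4 * A1.card ≤ ∑ a ∈ A1, e a b),
              α / 4 * A1.card := by
            refine Finset.sum_le_sum fun b hb => ?_
            have := (Finset.mem_filter.1 hb).2
            push Not at this
            exact this.le
        _ = ((B.filter (fun b => ¬ α / 4 * A1.card ≤ ∑ a ∈ A1, e a b)).card : ℝ) *
              (α / 4 * A1.card) := by rw [Finset.sum_const, nsmul_eq_mul]
        _ ≤ _ := by
            refine mul_le_mul_of_nonneg_right ?_ (by positivity)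
            exact_mod_cast Finset.card_filter_le _ _
    have h9 : A1.card * (α / 4 * B.card) ≤ (A1.card : ℝ) * B'.card := by
      rw [h6] at h5
      nlinarith
    have h10 := le_of_mul_le_mul_left h9 hA1pos
    linarith
  refine ⟨A', hA'A1.trans hA1A, B', hB'B, ?_, hB'big, ?_, ?_⟩
  · linarith
  · intro a ha
    rw [hdeg]
    exact hA1h a (hA'A1 ha)
  · intro a ha b hb
    -- the number of paths
    have h5 : (((A ×ˢ B).filter fun q => (a, q.2) ∈ G ∧ (q.1, q.2) ∈ G ∧ (q.1, b) ∈ G).card : ℝ) =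
        ∑ a1 ∈ A, e a1 b * ∑ b1 ∈ B, e a b1 * e a1 b1 := by
      rw [Finset.card_filter]
      push_cast
      rw [Finset.sum_product]
      refine Finset.sum_congr rfl fun a1 _ => ?_
      rw [Finset.mul_sum]
      refine Finset.sum_congr rfl fun b1 _ => ?_
      rw [he, he, he]
      by_cases p1 : (a, b1) ∈ G <;> by_cases p2 : (a1, b1) ∈ G <;> by_cases p3 : (a1, b) ∈ G <;>
        simp [p1, p2, p3]
    rw [h5]
    have h6 : ∑ a1 ∈ A1, e a1 b * ∑ b1 ∈ B, e a b1 * e a1 b1 ≤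
        ∑ a1 ∈ A, e a1 b * ∑ b1 ∈ B, e a b1 * e a1 b1 :=
      Finset.sum_le_sum_of_subset_of_nonneg hA1A fun a1 _ _ =>
        mul_nonneg (he0 _ _) (Finset.sum_nonneg fun b1 _ => mul_nonneg (he0 _ _) (he0 _ _))
    have h7 : ∑ a1 ∈ A1, (e a1 b - w a a1) * (α ^ 3 / 128 * B.card) ≤
        ∑ a1 ∈ A1, e a1 b * ∑ b1 ∈ B, e a b1 * e a1 b1 := by
      refine Finset.sum_le_sum fun a1 _ => ?_
      by_cases hbd : ∑ b ∈ B, e a b * e a1 b < α ^ 3 / 128 * B.card
      · have hw2 : w a a1 = 1 := by rw [hw, if_pos hbd]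
        have h8 : (e a1 b - w a a1) ≤ 0 := by
          rw [hw2, he]
          split_ifs <;> norm_num
        have h9 : 0 ≤ e a1 b * ∑ b1 ∈ B, e a b1 * e a1 b1 :=
          mul_nonneg (he0 _ _) (Finset.sum_nonneg fun b1 _ => mul_nonneg (he0 _ _) (he0 _ _))
        have h10 : (0 : ℝ) ≤ α ^ 3 / 128 * B.card := by positivity
        exact (mul_nonpos_of_nonpos_of_nonneg h8 h10).trans h9
      · have hw2 : w a a1 = 0 := by rw [hw, if_neg hbd]
        rw [hw2, sub_zero]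
        push Not at hbd
        exact mul_le_mul_of_nonneg_left hbd (he0 _ _)
    rw [← Finset.sum_mul, Finset.sum_sub_distrib] at h7
    have h8 : α / 4 * A1.card ≤ ∑ a1 ∈ A1, e a1 b := by
      rw [hB', Finset.mem_filter] at hb
      exact hb.2
    have h9 : ∑ a1 ∈ A1, w a a1 ≤ α / 8 * A1.card := by
      rw [hA', Finset.mem_filter] at ha
      exact ha.2
    have h10 : α / 8 * (α / 3 * A.card) * (α ^ 3 / 128 * B.card) ≤
        (∑ a1 ∈ A1, e a1 b - ∑ a1 ∈ A1, w a a1) * (α ^ 3 / 128 * B.card) := by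
      refine mul_le_mul_of_nonneg_right ?_ (by positivity)
      have h11 : α / 8 * (α / 3 * A.card) ≤ α / 8 * A1.card :=
        mul_le_mul_of_nonneg_left hA1big (by positivity)
      linarith
    have h12 : α ^ 5 * ((A.card : ℝ) * B.card) =
        3072 * (α / 8 * (α / 3 * A.card) * (α ^ 3 / 128 * B.card)) := by ring
    rw [h12]
    exact mul_le_mul_of_nonneg_left (h10.trans (h7.trans h6)) (by norm_num)

end Pool.Agent.DSG
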