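import Pool.Agent.DSG.Stmts

/-!
# DSG [CAL]: Ruzsa calculus for the multipliers `ξ` with `|A - A ξ| ≤ k |A|`
-/

set_option autoImplicit false

namespace Pool.Agent.DSG

open Finset
open scoped BigOperators Pointwise

/-- `|3 A - 2 A| ≤ k⁵ |A|` -/
private theorem cal_big {F : Type} [DivisionRing F] [DecidableEq F] {A : Finset F} {k : ℝ}
    (hA : A.Nonempty) (h1 : ((A - A).card : ℝ) ≤ k * A.card) :
    ((3 • A - 2 • A).card : ℝ) ≤ k ^ 5 * A.card := by
  have h2 := Finset.pluennecke_ruzsa_inequality_nsmul_sub_nsmul_sub hA A 3 2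
  have h3 : ((3 • A - 2 • A).card : ℝ)
      ≤ (((A - A).card : ℝ) / (A.card : ℝ)) ^ (3 + 2) * (A.card : ℝ) := by
    have h4 : (((3 • A - 2 • A).card : NNRat) : ℝ)
        ≤ (((((A - A).card : NNRat) / (A.card : NNRat)) ^ (3 + 2) * (A.card : NNRat) : NNRat) : ℝ) :=
      NNRat.cast_le.2 h2
    push_cast at h4
    exact h4
  have hc : (0 : ℝ) < (A.card : ℝ) := by exact_mod_cast hA.card_pos
  have h4 : ((A - A).card : ℝ) / (A.card : ℝ) ≤ k := by
    rw [div_le_iff₀ hc]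
    exact h1
  have h5 : (0 : ℝ) ≤ ((A - A).card : ℝ) / (A.card : ℝ) := by positivity
  calc ((3 • A - 2 • A).card : ℝ)
      ≤ (((A - A).card : ℝ) / (A.card : ℝ)) ^ (3 + 2) * (A.card : ℝ) := h3
    _ ≤ k ^ 5 * A.card := by
        apply mul_le_mul_of_nonneg_right _ hc.le
        exact pow_le_pow_left₀ h5 h4 5

/-- the covering lemma -/
private theorem cal_cov {F : Type} [DivisionRing F] [DecidableEq F] {A : Finset F} {k : ℝ}
    (hA : A.Nonempty) {ξ : F} (h : PrA A k ξ) :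
    ∃ T : Finset F, (T.card : ℝ) ≤ k ∧
      ∀ a ∈ A, ∃ t ∈ T, ∃ b ∈ A, ∃ c ∈ A, a * ξ = t + (b - c) := by
  have h1 : ((A.image (fun a => a * ξ) + (-A)).card : ℝ) ≤ k * ((-A).card : ℝ) := by
    have h2 : A.image (fun a => a * ξ) + (-A) = -(A - A.image (fun a => a * ξ)) := by
      rw [neg_sub, sub_eq_add_neg]
    rw [h2, Finset.card_neg, Finset.card_neg]
    exact h
  obtain ⟨T, -, hT, hsub⟩ := Finset.ruzsa_covering_add hA.neg h1
  refine ⟨T, hT, fun a ha => ?_⟩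
  have h3 : a * ξ ∈ T + (-A - -A) := hsub (Finset.mem_image_of_mem _ ha)
  obtain ⟨t, ht, u, hu, htu⟩ := Finset.mem_add.1 h3
  obtain ⟨v, hv, w, hw, hvw⟩ := Finset.mem_sub.1 hu
  refine ⟨t, ht, -w, Finset.mem_neg'.1 hw, -v, Finset.mem_neg'.1 hv, ?_⟩
  rw [← htu, ← hvw]
  abel

/-- three summands of `A` -/
private theorem cal_m3 {F : Type} [DivisionRing F] [DecidableEq F] {A : Finset F} {a b c : F}
    (ha : a ∈ A) (hb : b ∈ A) (hc : c ∈ A) : a + b + c ∈ 3 • A := by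
  have h : 3 • A = A + A + A := by
    rw [show (3 : ℕ) = 2 + 1 from rfl, succ_nsmul, two_nsmul]
  rw [h]
  exact Finset.add_mem_add (Finset.add_mem_add ha hb) hc

/-- two summands of `A` -/
private theorem cal_m2 {F : Type} [DivisionRing F] [DecidableEq F] {A : Finset F} {a b : F}
    (ha : a ∈ A) (hb : b ∈ A) : a + b ∈ 2 • A := by
  rw [two_nsmul]
  exact Finset.add_mem_add ha hb

/-- a set which is covered by the translates of `3 A - 2 A` by `S` -/
private theorem cal_bd {F : Type} [DivisionRing F] [DecidableEq F] {A : Finset F} {k : ℝ}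
    (hA : A.Nonempty) (h1 : ((A - A).card : ℝ) ≤ k * A.card)
    (X S : Finset F) (s : ℝ) (hS : (S.card : ℝ) ≤ s)
    (hX : ∀ x ∈ X, ∃ t ∈ S, ∃ u ∈ 3 • A, ∃ v ∈ 2 • A, x = t + (u - v)) :
    (X.card : ℝ) ≤ s * (k ^ 5 * A.card) := by
  have h2 : X ⊆ S + (3 • A - 2 • A) := by
    intro x hx
    obtain ⟨t, ht, u, hu, v, hv, rfl⟩ := hX x hx
    exact Finset.add_mem_add ht (Finset.sub_mem_sub hu hv)
  have h3 : X.card ≤ S.card * (3 • A - 2 • A).card :=
    (Finset.card_le_card h2).trans Finset.card_add_le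
  have h4 : (X.card : ℝ) ≤ (S.card : ℝ) * ((3 • A - 2 • A).card : ℝ) := by exact_mod_cast h3
  have h5 := cal_big hA h1
  have h6 : (0 : ℝ) ≤ (S.card : ℝ) := Nat.cast_nonneg _
  calc (X.card : ℝ) ≤ (S.card : ℝ) * ((3 • A - 2 • A).card : ℝ) := h4
    _ ≤ (S.card : ℝ) * (k ^ 5 * A.card) := mul_le_mul_of_nonneg_left h5 h6
    _ ≤ s * (k ^ 5 * A.card) := by
        apply mul_le_mul_of_nonneg_right hS
        exact le_trans (Nat.cast_nonneg _) h5

/-- cardinality of a sum of two sets -/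
private theorem cal_two {F : Type} [DivisionRing F] [DecidableEq F] {S T : Finset F} {s t : ℝ}
    (hs : (S.card : ℝ) ≤ s) (ht : (T.card : ℝ) ≤ t) : ((S + T).card : ℝ) ≤ s * t := by
  have h1 : (S + T).card ≤ S.card * T.card := Finset.card_add_le
  have h2 : ((S + T).card : ℝ) ≤ (S.card : ℝ) * (T.card : ℝ) := by exact_mod_cast h1
  have h3 : (0 : ℝ) ≤ (S.card : ℝ) := Nat.cast_nonneg _
  have h4 : (0 : ℝ) ≤ (T.card : ℝ) := Nat.cast_nonneg _
  nlinarith

theorem thm_CAL : St_CAL := by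
  intro F _ _ A k hA hk hone ξ ζ hξ hζ
  have h1 : ((A - A).card : ℝ) ≤ k * A.card := by
    have h := hone
    unfold PrA at h
    simp only [mul_one, Finset.image_id'] at h
    exact h
  obtain ⟨T₁, hT₁, hc₁⟩ := cal_cov hA hξ
  obtain ⟨T₂, hT₂, hc₂⟩ := cal_cov hA hζ
  have hn₁ : ((-T₁).card : ℝ) ≤ k := by rw [Finset.card_neg]; exact hT₁
  have hn₂ : ((-T₂).card : ℝ) ≤ k := by rw [Finset.card_neg]; exact hT₂
  refine ⟨?_, ?_, ?_, ?_⟩
  · have h := cal_bd hA h1 (A - A.image (fun a => a * (ξ + ζ))) (-T₁ + -T₂) (k * k)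
      (cal_two hn₁ hn₂) (fun x hx => by
        obtain ⟨a, ha, y, hy, rfl⟩ := Finset.mem_sub.1 hx
        obtain ⟨a', ha', rfl⟩ := Finset.mem_image.1 hy
        obtain ⟨t₁, ht₁, b₁, hb₁, c₁, hc₁', e₁⟩ := hc₁ a' ha'
        obtain ⟨t₂, ht₂, b₂, hb₂, c₂, hc₂', e₂⟩ := hc₂ a' ha'
        refine ⟨-t₁ + -t₂, Finset.add_mem_add (Finset.neg_mem_neg ht₁) (Finset.neg_mem_neg ht₂),
          a + c₁ + c₂, cal_m3 ha hc₁' hc₂', b₁ + b₂, cal_m2 hb₁ hb₂, ?_⟩
        rw [mul_add, e₁, e₂]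
        abel)
    unfold PrA
    calc ((A - A.image (fun a => a * (ξ + ζ))).card : ℝ) ≤ k * k * (k ^ 5 * A.card) := h
      _ = k ^ 7 * A.card := by ring
  · have h := cal_bd hA h1 (A - A.image (fun a => a * (ξ - ζ))) (-T₁ + T₂) (k * k)
      (cal_two hn₁ hT₂) (fun x hx => by
        obtain ⟨a, ha, y, hy, rfl⟩ := Finset.mem_sub.1 hx
        obtain ⟨a', ha', rfl⟩ := Finset.mem_image.1 hy
        obtain ⟨t₁, ht₁, b₁, hb₁, c₁, hc₁', e₁⟩ := hc₁ a' ha'
        obtain ⟨t₂, ht₂, b₂, hb₂, c₂, hc₂', e₂⟩ := hc₂ a' ha'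
        refine ⟨-t₁ + t₂, Finset.add_mem_add (Finset.neg_mem_neg ht₁) ht₂,
          a + c₁ + b₂, cal_m3 ha hc₁' hb₂, b₁ + c₂, cal_m2 hb₁ hc₂', ?_⟩
        rw [mul_sub, e₁, e₂]
        abel)
    unfold PrA
    calc ((A - A.image (fun a => a * (ξ - ζ))).card : ℝ) ≤ k * k * (k ^ 5 * A.card) := h
      _ = k ^ 7 * A.card := by ring
  · have hi : (((-T₁).image (fun t => t * ζ)).card : ℝ) ≤ k := by
      have h := Finset.card_image_le (s := -T₁) (f := fun t => t * ζ)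
      have h' : (((-T₁).image (fun t => t * ζ)).card : ℝ) ≤ ((-T₁).card : ℝ) := by exact_mod_cast h
      exact h'.trans hn₁
    have h := cal_bd hA h1 (A - A.image (fun a => a * (ξ * ζ)))
      ((-T₁).image (fun t => t * ζ) + (-T₂ + T₂)) (k * (k * k))
      (cal_two hi (cal_two hn₂ hT₂)) (fun x hx => by
        obtain ⟨a, ha, y, hy, rfl⟩ := Finset.mem_sub.1 hx
        obtain ⟨a', ha', rfl⟩ := Finset.mem_image.1 hy
        obtain ⟨t₁, ht₁, b₁, hb₁, c₁, hc₁', e₁⟩ := hc₁ a' ha'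
        obtain ⟨t₂, ht₂, b₂, hb₂, c₂, hc₂', e₂⟩ := hc₂ b₁ hb₁
        obtain ⟨t₃, ht₃, b₃, hb₃, c₃, hc₃', e₃⟩ := hc₂ c₁ hc₁'
        refine ⟨-t₁ * ζ + (-t₂ + t₃), Finset.add_mem_add
          (Finset.mem_image_of_mem _ (Finset.neg_mem_neg ht₁))
          (Finset.add_mem_add (Finset.neg_mem_neg ht₂) ht₃),
          a + c₂ + b₃, cal_m3 ha hc₂' hb₃, b₂ + c₃, cal_m2 hb₂ hc₃', ?_⟩
        have e : a' * (ξ * ζ) = t₁ * ζ + ((t₂ + (b₂ - c₂)) - (t₃ + (b₃ - c₃))) := by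
          rw [← e₂, ← e₃, ← mul_assoc, e₁, add_mul, sub_mul]
        rw [e, neg_mul]
        abel)
    unfold PrA
    calc ((A - A.image (fun a => a * (ξ * ζ))).card : ℝ) ≤ k * (k * k) * (k ^ 5 * A.card) := h
      _ = k ^ 8 * A.card := by ring
  · intro h0
    have h2 : (A - A.image (fun a => a * ξ⁻¹)).card ≤ (A - A.image (fun a => a * ξ)).card := by
      apply Finset.card_le_card_of_injOn (fun x => -(x * ξ))
      · intro x hx
        obtain ⟨a, ha, y, hy, rfl⟩ := Finset.mem_sub.1 hx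
        obtain ⟨a', ha', rfl⟩ := Finset.mem_image.1 hy
        have e : -((a - a' * ξ⁻¹) * ξ) = a' - a * ξ := by
          rw [sub_mul, mul_assoc, inv_mul_cancel₀ h0, mul_one, neg_sub]
        show -((a - a' * ξ⁻¹) * ξ) ∈ _
        rw [e]
        exact Finset.sub_mem_sub ha' (Finset.mem_image_of_mem _ ha)
      · intro x _ y _ hxy
        have h3 : x * ξ = y * ξ := neg_injective hxy
        exact mul_right_cancel₀ h0 h3
    unfold PrA
    have h3 : ((A - A.image (fun a => a * ξ⁻¹)).card : ℝ)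
        ≤ ((A - A.image (fun a => a * ξ)).card : ℝ) := by exact_mod_cast h2
    exact h3.trans hξ

end Pool.Agent.DSG
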