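import Pool.Agent.DSG.Stmts

/-!
# DSG CNT: counting in a design with few blocks of each size
-/

set_option autoImplicit false

namespace Pool.Agent.DSG

open Finset
open scoped BigOperators

section

variable {V : Type} [Fintype V] [DecidableEq V] {H : Finset (Finset V)}

theorem cnt_uniq (hH : H.IsPairwiseBalancedDesign) {e f : Finset V} (he : e ∈ H) (hf : f ∈ H)
    {x y : V} (hxy : x ≠ y) (h1 : x ∈ e) (h2 : y ∈ e) (h3 : x ∈ f) (h4 : y ∈ f) : e = f := by
  obtain ⟨b, -, hb⟩ := hH.2 {x, y} (card_pair hxy)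
  have h5 := hb e ⟨he, by
    intro z hz
    rw [mem_insert, mem_singleton] at hz
    rcases hz with rfl | rfl <;> assumption⟩
  have h6 := hb f ⟨hf, by
    intro z hz
    rw [mem_insert, mem_singleton] at hz
    rcases hz with rfl | rfl <;> assumption⟩
  exact h5.trans h6.symm

theorem cnt_ex (hH : H.IsPairwiseBalancedDesign) {x y : V} (hxy : x ≠ y) :
    ∃ e ∈ H, x ∈ e ∧ y ∈ e := by
  obtain ⟨b, ⟨hb1, hb2⟩, -⟩ := hH.2 {x, y} (card_pair hxy)
  exact ⟨b, hb1, hb2 (by simp), hb2 (by simp)⟩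

theorem cnt_inter (hH : H.IsPairwiseBalancedDesign) {e f : Finset V} (he : e ∈ H) (hf : f ∈ H)
    (h : e ≠ f) : (e ∩ f).card ≤ 1 := by
  rw [card_le_one]
  intro a ha b hb
  rw [mem_inter] at ha hb
  by_contra hab
  exact h (cnt_uniq hH he hf hab ha.1 hb.1 ha.2 hb.2)

theorem cnt_union (hH : H.IsPairwiseBalancedDesign) (F : Finset (Finset V)) (hF : F ⊆ H) :
    ∑ e ∈ F, (e.card : ℝ) ≤ ((F.biUnion id).card : ℝ) + (F.card : ℝ) * (F.card - 1) / 2 := by
  induction F using Finset.induction_on with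
  | empty => simp
  | insert e F heF ih =>
    have h1 := ih ((subset_insert e F).trans hF)
    have he : e ∈ H := hF (mem_insert_self _ _)
    have h2 : (e ∩ F.biUnion id).card ≤ F.card := by
      have h3 : e ∩ F.biUnion id = F.biUnion fun f => e ∩ f := by
        ext x
        simp only [mem_inter, mem_biUnion, id]
        constructor
        · rintro ⟨a, f, b, c⟩
          exact ⟨f, b, a, c⟩
        · rintro ⟨f, b, a, c⟩
          exact ⟨a, f, b, c⟩
      rw [h3]
      have h4 := card_biUnion_le_card_mul F (fun f => e ∩ f) 1 (by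
        intro f hf
        exact cnt_inter hH he (hF (mem_insert_of_mem hf)) (by
          rintro rfl
          exact heF hf))
      rwa [mul_one] at h4
    have h5 := card_union_add_card_inter e (F.biUnion id)
    have h6 : (insert e F).biUnion id = e ∪ F.biUnion id := by
      rw [biUnion_insert, id]
    rw [sum_insert heF, card_insert_of_notMem heF, h6]
    have h7 : ((e ∪ F.biUnion id).card : ℝ) + ((e ∩ F.biUnion id).card : ℝ) =
        e.card + (F.biUnion id).card := by exact_mod_cast h5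
    have h8 : ((e ∩ F.biUnion id).card : ℝ) ≤ F.card := by exact_mod_cast h2
    push_cast
    nlinarith

theorem cnt_big (hH : H.IsPairwiseBalancedDesign) {N : ℝ} (hN : 1 ≤ N)
    (hn : N ^ 2 = Fintype.card V) :
    ((H.filter fun e => 2 * N < (e.card : ℝ)).card : ℝ) ≤ N ∧
    ∑ e ∈ H.filter (fun e => 2 * N < (e.card : ℝ)), (e.card : ℝ) ≤ 3 / 2 * N ^ 2 := by
  set B := H.filter fun e => 2 * N < (e.card : ℝ) with hB
  have hu : ∀ F : Finset (Finset V), ((F.biUnion id).card : ℝ) ≤ N ^ 2 := by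
    intro F
    rw [hn]
    exact_mod_cast card_le_univ _
  have h1 : (B.card : ℝ) ≤ N := by
    by_contra hcon
    rw [not_le] at hcon
    have h2 : ⌊N⌋₊ + 1 ≤ B.card := Nat.succ_le_of_lt ((Nat.floor_lt (by linarith)).2 hcon)
    obtain ⟨F, hF, hFc⟩ := Finset.exists_subset_card_eq h2
    have h3 := cnt_union hH F (hF.trans (filter_subset _ _))
    have h4 : ∑ e ∈ F, (2 * N) ≤ ∑ e ∈ F, (e.card : ℝ) :=
      sum_le_sum fun e he => (mem_filter.1 (hF he)).2.le
    rw [sum_const, nsmul_eq_mul, hFc] at h4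
    have h5 := hu F
    have h6 := Nat.lt_floor_add_one N
    have h7 := Nat.floor_le (by linarith : 0 ≤ N)
    rw [hFc] at h3
    push_cast at h3 h4
    generalize (⌊N⌋₊ : ℝ) = m at *
    nlinarith [mul_nonneg (by linarith : (0 : ℝ) ≤ N - m) (by linarith : (0 : ℝ) ≤ m + 1),
      mul_pos (by linarith : (0 : ℝ) < m + 1 - N) (by linarith : (0 : ℝ) < N)]
  refine ⟨h1, ?_⟩
  have h3 := cnt_union hH B (filter_subset _ _)
  have h5 := hu B
  have h6 : (0 : ℝ) ≤ B.card := Nat.cast_nonneg _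
  generalize (B.card : ℝ) = s at *
  nlinarith

theorem cnt_small {N K : ℝ} (hN : 1 ≤ N) (hK : 1 ≤ K) (hH : H.IsPairwiseBalancedDesign)
    (h : ∀ t, (Nt H t : ℝ) ≤ K * N) :
    ((H.filter fun e => ¬ 2 * N < (e.card : ℝ)).card : ℝ) ≤ K * N * (2 * N) := by
  have h1 := card_le_mul_card_image (f := fun e : Finset V => e.card)
    (H.filter fun e => ¬ 2 * N < (e.card : ℝ)) ⌊K * N⌋₊ (by
      intro t _
      refine (card_le_card ?_).trans (Nat.le_floor (h t))
      intro e he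
      rw [mem_filter, mem_filter] at he
      exact mem_filter.2 ⟨he.1.1, he.2⟩)
  have h2 : ((H.filter fun e => ¬ 2 * N < (e.card : ℝ)).image fun e : Finset V => e.card).card ≤
      ⌊2 * N⌋₊ := by
    refine (card_le_card (t := Icc 1 ⌊2 * N⌋₊) ?_).trans (by rw [Nat.card_Icc]; omega)
    intro t ht
    rw [mem_image] at ht
    obtain ⟨e, he, rfl⟩ := ht
    rw [mem_filter, not_lt] at he
    rw [mem_Icc]
    exact ⟨le_trans (by norm_num) (hH.1 e he.1), Nat.le_floor he.2⟩
  have h3 : ((H.filter fun e => ¬ 2 * N < (e.card : ℝ)).card : ℝ) ≤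
      (⌊K * N⌋₊ : ℝ) * (⌊2 * N⌋₊ : ℝ) := by
    exact_mod_cast h1.trans (Nat.mul_le_mul_left _ h2)
  exact h3.trans (mul_le_mul (Nat.floor_le (by positivity)) (Nat.floor_le (by linarith))
    (Nat.cast_nonneg _) (by positivity))

theorem cnt_deg : ∑ x : V, (dg H x : ℝ) = ∑ e ∈ H, (e.card : ℝ) := by
  have h1 : ∀ x : V, (dg H x : ℝ) = ∑ e ∈ H, if x ∈ e then (1 : ℝ) else 0 := by
    intro x
    unfold dg
    rw [card_filter]
    push_cast
    rfl
  simp only [h1]
  rw [sum_comm]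
  refine sum_congr rfl fun e _ => ?_
  simp

theorem cnt_block (hH : H.IsPairwiseBalancedDesign) {e : Finset V} (he : e ∈ H) {x : V}
    (hx : x ∉ e) : ∃ g : V → Finset V, (∀ y ∈ e, g y ∈ H ∧ x ∈ g y ∧ y ∈ g y) ∧
      ∀ y ∈ e, ∀ z ∈ e, g y = g z → y = z := by
  have h1 : ∀ y : V, ∃ f : Finset V, y ∈ e → f ∈ H ∧ x ∈ f ∧ y ∈ f := by
    intro y
    by_cases hy : y ∈ e
    · obtain ⟨f, h1, h2, h3⟩ := cnt_ex hH (x := x) (y := y) (by
        rintro rfl
        exact hx hy)
      exact ⟨f, fun _ => ⟨h1, h2, h3⟩⟩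
    · exact ⟨∅, fun h => absurd h hy⟩
  choose g hg using h1
  refine ⟨g, hg, fun y hy z hz hyz => ?_⟩
  by_contra hne
  have h2 := cnt_uniq hH he (hg y hy).1 hne hy hz (hg y hy).2.2 (by
    rw [hyz]
    exact (hg z hz).2.2)
  exact hx (by
    rw [h2]
    exact (hg y hy).2.1)

theorem cnt_deg_ge (hH : H.IsPairwiseBalancedDesign) {e : Finset V} (he : e ∈ H) {x : V}
    (hx : x ∉ e) : e.card ≤ dg H x := by
  obtain ⟨g, hg1, hg2⟩ := cnt_block hH he hx
  exact card_le_card_of_injOn g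
    (fun y hy => mem_coe.2 (mem_filter.2 ⟨(hg1 y hy).1, (hg1 y hy).2.1⟩))
    (fun y hy z hz h => hg2 y hy z hz h)

/-- the blocks of size `2` are many, if there is a large block -/
theorem cnt_two (hH : H.IsPairwiseBalancedDesign) {e : Finset V} (he : e ∈ H) {x : V}
    (hx : x ∉ e) : e.card ≤ Nt H 2 + (univ \ e).card := by
  obtain ⟨g, hg1, hg2⟩ := cnt_block hH he hx
  have h1 : (e.filter fun y => (g y).card = 2).card ≤ Nt H 2 := by
    refine card_le_card_of_injOn g (fun y hy => ?_) (fun y hy z hz h => ?_)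
    · have hy' := mem_filter.1 (mem_coe.1 hy)
      exact mem_coe.2 (mem_filter.2 ⟨(hg1 y hy'.1).1, hy'.2⟩)
    · exact hg2 y (mem_filter.1 (mem_coe.1 hy)).1 z (mem_filter.1 (mem_coe.1 hz)).1 h
  have h2 : ∀ y : V, ∃ z : V, y ∈ e → (g y).card ≠ 2 → z ∈ g y ∧ z ≠ x ∧ z ∉ e := by
    intro y
    by_cases hy : y ∈ e
    · by_cases hc : (g y).card = 2
      · exact ⟨y, fun _ h => absurd hc h⟩
      · have h3 := hH.1 _ (hg1 y hy).1
        have h4 : 2 < (g y).card := by omega
        obtain ⟨z, hz1, hz2⟩ := exists_mem_notMem_of_card_lt_card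
          (s := ({x, y} : Finset V)) (t := g y) (lt_of_le_of_lt card_le_two h4)
        rw [mem_insert, mem_singleton, not_or] at hz2
        refine ⟨z, fun _ _ => ⟨hz1, hz2.1, fun hze => ?_⟩⟩
        have h5 := cnt_uniq hH he (hg1 y hy).1 hz2.2 hze hy hz1 (hg1 y hy).2.2
        exact hx (by
          rw [h5]
          exact (hg1 y hy).2.1)
    · exact ⟨y, fun h => absurd h hy⟩
  choose w hw using h2
  have h3 : (e.filter fun y => ¬ (g y).card = 2).card ≤ (univ \ e).card := by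
    refine card_le_card_of_injOn w (fun y hy => ?_) (fun y hy z hz h => ?_)
    · have hy' := mem_filter.1 (mem_coe.1 hy)
      exact mem_coe.2 (mem_sdiff.2 ⟨mem_univ _, (hw y hy'.1 hy'.2).2.2⟩)
    · have hy' := mem_filter.1 (mem_coe.1 hy)
      have hz' := mem_filter.1 (mem_coe.1 hz)
      have a1 := hw y hy'.1 hy'.2
      have a2 := hw z hz'.1 hz'.2
      refine hg2 y hy'.1 z hz'.1 ?_
      refine cnt_uniq hH (hg1 y hy'.1).1 (hg1 z hz'.1).1 a1.2.1 a1.1 (hg1 y hy'.1).2.1 ?_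
        (hg1 z hz'.1).2.1
      rw [h]
      exact a2.1
  have h4 := card_filter_add_card_filter_not (s := e) (fun y => (g y).card = 2)
  omega

theorem cnt_pairs (hH : H.IsPairwiseBalancedDesign) (G : Finset V) (c : ℝ)
    (hc : ∀ e ∈ H, ((e ∩ G).card : ℝ) ≤ c) :
    (G.card : ℝ) * (G.card - 1) ≤ H.card * c ^ 2 := by
  have h1 : G.offDiag ⊆ H.biUnion fun e => (e ∩ G).offDiag := by
    rintro ⟨x, y⟩ hxy
    rw [mem_offDiag] at hxy
    obtain ⟨e, he, h2, h3⟩ := cnt_ex hH hxy.2.2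
    rw [mem_biUnion]
    exact ⟨e, he, mem_offDiag.2 ⟨mem_inter.2 ⟨h2, hxy.1⟩, mem_inter.2 ⟨h3, hxy.2.1⟩, hxy.2.2⟩⟩
  have h2 := (card_le_card h1).trans card_biUnion_le
  have h3 : (G.offDiag.card : ℝ) ≤ ∑ e ∈ H, (((e ∩ G).offDiag.card : ℕ) : ℝ) := by
    exact_mod_cast h2
  have h4 : (G.offDiag.card : ℝ) = (G.card : ℝ) * (G.card - 1) := by
    rw [offDiag_card, Nat.cast_sub (Nat.le_mul_self _)]
    push_cast
    ring
  rw [← h4]
  refine h3.trans ?_
  have h5 : ∑ e ∈ H, (((e ∩ G).offDiag.card : ℕ) : ℝ) ≤ ∑ e ∈ H, c ^ 2 := by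
    refine sum_le_sum fun e he => ?_
    have h6 : (((e ∩ G).offDiag.card : ℕ) : ℝ) ≤ ((e ∩ G).card : ℝ) ^ 2 := by
      have : (e ∩ G).offDiag.card ≤ (e ∩ G).card * (e ∩ G).card := by
        rw [offDiag_card]
        exact Nat.sub_le _ _
      rw [sq]
      exact_mod_cast this
    exact h6.trans (pow_le_pow_left₀ (Nat.cast_nonneg _) (hc e he) 2)
  rw [sum_const, nsmul_eq_mul] at h5
  exact h5

end

theorem thm_CNT : St_CNT := by
  intro V _ _ H K hH hlt hK hn hNt
  set N : ℝ := Real.sqrt (Fintype.card V) with hNd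
  have hN2 : N ^ 2 = Fintype.card V := Real.sq_sqrt (Nat.cast_nonneg _)
  have hN0 : 0 ≤ N := Real.sqrt_nonneg _
  have hKN : 100 * K ≤ N := by
    rw [← hN2] at hn
    have : (100 * K) ^ 2 ≤ N ^ 2 := by nlinarith
    exact le_of_sq_le_sq this hN0
  have hN100 : 100 ≤ N := by linarith
  obtain ⟨hb1, hb2⟩ := cnt_big hH (by linarith : 1 ≤ N) hN2
  have hs := cnt_small (by linarith : 1 ≤ N) hK hH hNt
  have hHc : (H.card : ℝ) ≤ 3 * K * N ^ 2 := by
    have h1 := card_filter_add_card_filter_not (s := H) (fun e => 2 * N < (e.card : ℝ))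
    have h2 : (H.card : ℝ) = ((H.filter fun e => 2 * N < (e.card : ℝ)).card : ℝ) +
        ((H.filter fun e => ¬ 2 * N < (e.card : ℝ)).card : ℝ) := by exact_mod_cast h1.symm
    rw [h2]
    nlinarith [mul_nonneg hN0 (by linarith : (0 : ℝ) ≤ K - 1)]
  have hdeg : ∑ x : V, (dg H x : ℝ) ≤ 5 * K * N ^ 3 := by
    rw [cnt_deg, ← sum_filter_add_sum_filter_not H (fun e => 2 * N < (e.card : ℝ))]
    have h1 : ∑ e ∈ H.filter (fun e => ¬ 2 * N < (e.card : ℝ)), (e.card : ℝ) ≤
        ∑ e ∈ H.filter (fun e => ¬ 2 * N < (e.card : ℝ)), 2 * N :=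
      sum_le_sum fun e he => not_lt.1 (mem_filter.1 he).2
    rw [sum_const, nsmul_eq_mul] at h1
    have h2 := mul_le_mul_of_nonneg_right hs (by linarith : (0 : ℝ) ≤ 2 * N)
    have h3 : (3 / 2 : ℝ) * N ^ 2 ≤ K * N ^ 3 := by
      have : (3 / 2 : ℝ) ≤ K * N := by nlinarith
      nlinarith [sq_nonneg N, mul_le_mul_of_nonneg_right this (sq_nonneg N)]
    nlinarith
  -- bad points
  set Bad : Finset V := univ.filter fun x => 40 * K * N < (dg H x : ℝ) with hBad
  set Gd : Finset V := univ.filter fun x => ¬ 40 * K * N < (dg H x : ℝ) with hGd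
  have hKNpos : 0 < K * N := by nlinarith
  have hbad : (Bad.card : ℝ) ≤ N ^ 2 / 8 := by
    have h1 : ∑ x ∈ Bad, (40 * K * N) ≤ ∑ x ∈ Bad, (dg H x : ℝ) :=
      sum_le_sum fun x hx => (mem_filter.1 hx).2.le
    have h2 : ∑ x ∈ Bad, (dg H x : ℝ) ≤ ∑ x : V, (dg H x : ℝ) :=
      sum_le_sum_of_subset_of_nonneg (subset_univ _) fun _ _ _ => Nat.cast_nonneg _
    rw [sum_const, nsmul_eq_mul] at h1
    have h3 : (Bad.card : ℝ) * (K * N) ≤ N ^ 2 / 8 * (K * N) := by nlinarith
    exact le_of_mul_le_mul_right h3 hKNpos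
  have hgood : 7 / 8 * N ^ 2 ≤ (Gd.card : ℝ) := by
    have h1 := card_filter_add_card_filter_not (s := (univ : Finset V))
      (fun x => 40 * K * N < (dg H x : ℝ))
    have h2 : (Bad.card : ℝ) + Gd.card = Fintype.card V := by
      rw [hBad, hGd]
      exact_mod_cast h1
    rw [← hN2] at h2
    linarith
  -- all blocks are small
  have hsize : ∀ e ∈ H, (e.card : ℝ) ≤ 40 * K * N := by
    intro e he
    by_contra hcon
    rw [not_le] at hcon
    obtain ⟨x, hx⟩ : ∃ x, x ∉ e := by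
      by_contra hall
      push Not at hall
      have h1 := hlt e he
      rw [eq_univ_iff_forall.2 hall, card_univ] at h1
      exact lt_irrefl _ h1
    have h1 : (univ \ e) ⊆ Bad := by
      intro y hy
      rw [hBad, mem_filter]
      refine ⟨mem_univ _, lt_of_lt_of_le hcon ?_⟩
      exact_mod_cast cnt_deg_ge hH he (mem_sdiff.1 hy).2
    have h2 : ((univ \ e).card : ℝ) ≤ N ^ 2 / 8 :=
      le_trans (by exact_mod_cast card_le_card h1) hbad
    have h3 : (e.card : ℝ) ≤ Nt H 2 + ((univ \ e).card : ℝ) := by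
      exact_mod_cast cnt_two hH he hx
    have h4 : ((univ \ e).card : ℝ) + e.card = N ^ 2 := by
      rw [hN2]
      have := card_sdiff_add_card_eq_card (subset_univ e)
      rw [card_univ] at this
      exact_mod_cast this
    have h5 := hNt 2
    nlinarith
  -- the block
  obtain ⟨L, hL, hLc⟩ : ∃ L ∈ H, N / (2 * K) ≤ ((L ∩ Gd).card : ℝ) := by
    by_contra hcon
    push Not at hcon
    have h1 := cnt_pairs hH Gd (N / (2 * K)) fun e he => (hcon e he).le
    have h2 : (H.card : ℝ) * (N / (2 * K)) ^ 2 ≤ 3 / 4 * N ^ 4 := by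
      have h3 : (N / (2 * K)) ^ 2 = N ^ 2 / (4 * K ^ 2) := by
        rw [div_pow]
        ring
      rw [h3]
      have h4 : (H.card : ℝ) * (N ^ 2 / (4 * K ^ 2)) ≤ 3 * K * N ^ 2 * (N ^ 2 / (4 * K ^ 2)) :=
        mul_le_mul_of_nonneg_right hHc (by positivity)
      have h5 : 3 * K * N ^ 2 * (N ^ 2 / (4 * K ^ 2)) = 3 / 4 * N ^ 4 / K := by
        field_simp
      rw [h5] at h4
      refine h4.trans ?_
      exact div_le_self (by positivity) hK
    have h6 : (7 / 8 * N ^ 2) * (7 / 8 * N ^ 2 - 1) ≤ (Gd.card : ℝ) * (Gd.card - 1) := by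
      have h7 : (0 : ℝ) ≤ 7 / 8 * N ^ 2 - 1 := by nlinarith
      exact mul_le_mul hgood (by linarith) h7 (by positivity)
    nlinarith [mul_nonneg hN0 hN0]
  refine ⟨L, hL, L ∩ Gd, inter_subset_left, ?_, ?_, ?_⟩
  · have h1 := hsize L hL
    have h4 : ((univ \ L).card : ℝ) + L.card = N ^ 2 := by
      rw [hN2]
      have := card_sdiff_add_card_eq_card (subset_univ L)
      rw [card_univ] at this
      exact_mod_cast this
    rw [← hN2]
    nlinarith
  · rw [div_le_iff₀ (by positivity)] at hLc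
    linarith
  · intro w hw
    have h1 := (mem_filter.1 (mem_inter.1 hw).2).2
    exact not_lt.1 h1

end Pool.Agent.DSG
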