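import Pool.Agent.DSG.Stmts

/-!
# DSG, module COS: many elements of `A` in a coset of `x K₀`
-/

set_option autoImplicit false

namespace Pool.Agent.DSG

open Finset
open scoped BigOperators Pointwise

/-- Cauchy-Schwarz for the number of collisions of a map. -/
private lemma cos_cs {ι κ : Type} [DecidableEq ι] [DecidableEq κ] (P : Finset ι) (f : ι → κ)
    (T : Finset κ) (h : ∀ p ∈ P, f p ∈ T) :
    (P.card : ℝ) ^ 2 ≤ (T.card : ℝ) *
      (((P ×ˢ P).filter fun z => f z.1 = f z.2).card : ℝ) := by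
  have h1 : P.card = ∑ t ∈ T, (P.filter fun p => f p = t).card :=
    Finset.card_eq_sum_card_fiberwise (fun p hp => h p hp)
  have h2 : ((P ×ˢ P).filter fun z => f z.1 = f z.2).card
      = ∑ t ∈ T, ((P.filter fun p => f p = t).card) ^ 2 := by
    rw [Finset.card_eq_sum_card_fiberwise (f := fun z : ι × ι => f z.1) (t := T)]
    · refine Finset.sum_congr rfl fun t ht => ?_
      rw [sq, ← Finset.card_product]
      congr 1
      ext z
      simp only [Finset.mem_filter, Finset.mem_product]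
      constructor
      · rintro ⟨⟨⟨a, b⟩, c⟩, d⟩
        exact ⟨⟨a, d⟩, b, c ▸ d⟩
      · rintro ⟨⟨a, b⟩, c, d⟩
        exact ⟨⟨⟨a, c⟩, b.trans d.symm⟩, b⟩
    · intro z hz
      have hz' := Finset.mem_coe.1 hz
      simp only [Finset.mem_filter, Finset.mem_product] at hz'
      exact h _ hz'.1.1
  rw [h2]
  have h3 := sq_sum_le_card_mul_sum_sq (s := T)
    (f := fun t => ((P.filter fun p => f p = t).card : ℝ))
  rw [h1]
  push_cast
  exact h3

/-- for one slope `ξ` -/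
private lemma cos_one {F : Type} [DivisionRing F] [DecidableEq F] (A : Finset F) (k : ℝ) (ξ : F)
    (hk : 1 ≤ k) (hA : 2 * k ≤ A.card) (hP : PrA A k ξ) :
    (A.card : ℝ) ^ 3 ≤ 2 * k *
      ((((A ×ˢ A) ×ˢ (A ×ˢ A)).filter fun z =>
        z.1.1 - z.1.2 * ξ = z.2.1 - z.2.2 * ξ ∧ z.1.2 ≠ z.2.2).card : ℝ) := by
  set n : ℝ := (A.card : ℝ) with hn
  have hn0 : 0 < n := by linarith
  have h1 := cos_cs (A ×ˢ A) (fun p : F × F => p.1 - p.2 * ξ)
    (A - A.image (fun a => a * ξ)) (by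
      rintro ⟨a, b⟩ hp
      obtain ⟨ha, hb⟩ := Finset.mem_product.1 hp
      exact Finset.sub_mem_sub ha (Finset.mem_image_of_mem _ hb))
  set E : Finset ((F × F) × (F × F)) :=
    (((A ×ˢ A) ×ˢ (A ×ˢ A)).filter fun z => z.1.1 - z.1.2 * ξ = z.2.1 - z.2.2 * ξ) with hE
  set E1 : Finset ((F × F) × (F × F)) := E.filter fun z => z.1.2 ≠ z.2.2 with hE1
  set E0 : Finset ((F × F) × (F × F)) := E.filter fun z => ¬ z.1.2 ≠ z.2.2 with hE0
  have hsplit : E1.card + E0.card = E.card := Finset.card_filter_add_card_filter_not _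
  have hE0c : E0.card ≤ (A ×ˢ A).card := by
    apply Finset.card_le_card_of_injOn (fun z => z.1)
    · intro z hz
      have hz' := Finset.mem_coe.1 hz
      simp only [hE0, hE, Finset.mem_filter] at hz'
      exact Finset.mem_coe.2 (Finset.mem_product.1 hz'.1.1).1
    · intro z hz z' hz' hzz
      have h2 := Finset.mem_coe.1 hz
      have h3 := Finset.mem_coe.1 hz'
      simp only [hE0, hE, Finset.mem_filter, not_not] at h2 h3
      have hzz' : z.1 = z'.1 := hzz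
      obtain ⟨⟨_, h4⟩, h5⟩ := h2
      obtain ⟨⟨_, h6⟩, h7⟩ := h3
      have e2 : z.2.2 = z'.2.2 := by rw [← h5, ← h7, hzz']
      have e1 : z.2.1 = z'.2.1 := by
        rw [h5] at h4
        rw [h7] at h6
        have h8 := sub_left_inj.1 h4
        have h9 := sub_left_inj.1 h6
        rw [← h8, ← h9, hzz']
      exact Prod.ext hzz' (Prod.ext e1 e2)
  have hEeq : (((A ×ˢ A) ×ˢ (A ×ˢ A)).filter fun z =>
        z.1.1 - z.1.2 * ξ = z.2.1 - z.2.2 * ξ ∧ z.1.2 ≠ z.2.2) = E1 := by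
    rw [hE1, hE, Finset.filter_filter]
  rw [hEeq]
  have hcard : ((A ×ˢ A).card : ℝ) = n ^ 2 := by
    rw [Finset.card_product]; push_cast; rw [sq]
  rw [hcard] at h1
  have hT : ((A - A.image (fun a => a * ξ)).card : ℝ) ≤ k * n := hP
  have h4 : (n ^ 2) ^ 2 ≤ k * n * (E.card : ℝ) :=
    h1.trans (mul_le_mul_of_nonneg_right hT (Nat.cast_nonneg _))
  have h5 : (E.card : ℝ) = E1.card + E0.card := by exact_mod_cast hsplit.symm
  have h6 : (E0.card : ℝ) ≤ n ^ 2 := by rw [← hcard]; exact_mod_cast hE0c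
  -- n^3 ≤ k (E1 + n^2)
  have h7 : n ^ 3 ≤ k * (E.card : ℝ) := by
    have : n * n ^ 3 ≤ n * (k * (E.card : ℝ)) := by nlinarith [h4]
    exact le_of_mul_le_mul_left this hn0
  have h8 : k * (E.card : ℝ) ≤ k * E1.card + k * n ^ 2 := by
    rw [h5]; nlinarith
  have h9 : 2 * k * n ^ 2 ≤ n ^ 3 := by
    have := mul_le_mul_of_nonneg_right hA (sq_nonneg n)
    calc 2 * k * n ^ 2 ≤ n * n ^ 2 := this
      _ = n ^ 3 := by ring
  nlinarith

theorem thm_COS : St_COS := by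
  intro F _ _ A k K₀ hk hA hfin hP
  classical
  have hn0 : (0 : ℝ) < A.card := by linarith
  have hAne : A.Nonempty := by
    rw [← Finset.card_pos]; exact_mod_cast hn0
  set KF : Finset F := hfin.toFinset with hKF
  have hKcard : Nat.card K₀ = KF.card := by
    rw [hKF]
    exact Nat.card_eq_card_finite_toFinset hfin
  set cnt : F → F → ℝ := fun a₀ x =>
    ((A.filter fun a => x⁻¹ * (a - a₀) ∈ K₀).card : ℝ) with hcnt
  have hNat : ∀ a₀ x : F, (Nat.card {a : F // a ∈ A ∧ x⁻¹ * (a - a₀) ∈ K₀} : ℝ) = cnt a₀ x := by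
    intro a₀ x
    have h1 : Nat.card {a : F // a ∈ A ∧ x⁻¹ * (a - a₀) ∈ K₀}
        = (A.filter fun a => x⁻¹ * (a - a₀) ∈ K₀).card := by
      rw [← Nat.card_eq_finsetCard]
      exact Nat.card_congr (Equiv.subtypeEquivRight fun a => by rw [Finset.mem_filter])
    rw [h1]
  -- all good quadruples
  set Q : Finset ((F × F) × (F × F)) :=
    (((A ×ˢ A) ×ˢ (A ×ˢ A)).filter fun z =>
      z.1.2 ≠ z.2.2 ∧ (z.1.2 - z.2.2)⁻¹ * (z.1.1 - z.2.1) ∈ K₀) with hQ
  have hlow : ((KF.card : ℝ) - 1) * (A.card : ℝ) ^ 3 ≤ 2 * k * (Q.card : ℝ) := by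
    have hsub : ((KF.erase 0).biUnion fun ξ => (((A ×ˢ A) ×ˢ (A ×ˢ A)).filter fun z =>
        z.1.1 - z.1.2 * ξ = z.2.1 - z.2.2 * ξ ∧ z.1.2 ≠ z.2.2)) ⊆ Q := by
      intro z hz
      simp only [Finset.mem_biUnion, Finset.mem_filter, Finset.mem_erase] at hz
      obtain ⟨ξ, ⟨_, hξ⟩, hz1, hz2, hz3⟩ := hz
      simp only [hQ, Finset.mem_filter]
      refine ⟨hz1, hz3, ?_⟩
      have h1 : z.1.1 - z.2.1 = (z.1.2 - z.2.2) * ξ := by
        rw [sub_mul]
        have := sub_eq_sub_iff_add_eq_add.1 hz2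
        rw [sub_eq_sub_iff_add_eq_add]
        rw [this]
        abel
      rw [h1, inv_mul_cancel_left₀ (sub_ne_zero.2 hz3)]
      exact hfin.mem_toFinset.1 hξ
    have hdisj : ∀ ξ ∈ KF.erase 0, ∀ ξ' ∈ KF.erase 0, ξ ≠ ξ' →
        Disjoint (((A ×ˢ A) ×ˢ (A ×ˢ A)).filter fun z : (F × F) × (F × F) =>
          z.1.1 - z.1.2 * ξ = z.2.1 - z.2.2 * ξ ∧ z.1.2 ≠ z.2.2)
        (((A ×ˢ A) ×ˢ (A ×ˢ A)).filter fun z : (F × F) × (F × F) =>
          z.1.1 - z.1.2 * ξ' = z.2.1 - z.2.2 * ξ' ∧ z.1.2 ≠ z.2.2) := by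
      intro ξ _ ξ' _ hne
      rw [Finset.disjoint_left]
      intro z hz hz'
      simp only [Finset.mem_filter] at hz hz'
      obtain ⟨_, h2, h3⟩ := hz
      obtain ⟨_, h2', _⟩ := hz'
      apply hne
      have e1 : z.1.1 - z.2.1 = (z.1.2 - z.2.2) * ξ := by
        rw [sub_mul]
        rw [sub_eq_sub_iff_add_eq_add, sub_eq_sub_iff_add_eq_add.1 h2]
        abel
      have e2 : z.1.1 - z.2.1 = (z.1.2 - z.2.2) * ξ' := by
        rw [sub_mul]
        rw [sub_eq_sub_iff_add_eq_add, sub_eq_sub_iff_add_eq_add.1 h2']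
        abel
      exact mul_left_cancel₀ (sub_ne_zero.2 h3) (e1.symm.trans e2)
    have hc := Finset.card_le_card hsub
    rw [Finset.card_biUnion hdisj] at hc
    have hc' : (∑ ξ ∈ KF.erase 0, ((((A ×ˢ A) ×ˢ (A ×ˢ A)).filter fun z : (F × F) × (F × F) =>
          z.1.1 - z.1.2 * ξ = z.2.1 - z.2.2 * ξ ∧ z.1.2 ≠ z.2.2).card : ℝ)) ≤ Q.card := by
      exact_mod_cast hc
    have hsum : ((KF.erase 0).card : ℝ) * (A.card : ℝ) ^ 3 ≤ 2 * k *
        (∑ ξ ∈ KF.erase 0, ((((A ×ˢ A) ×ˢ (A ×ˢ A)).filter fun z : (F × F) × (F × F) =>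
          z.1.1 - z.1.2 * ξ = z.2.1 - z.2.2 * ξ ∧ z.1.2 ≠ z.2.2).card : ℝ)) := by
      rw [Finset.mul_sum, ← nsmul_eq_mul]
      apply Finset.card_nsmul_le_sum
      intro ξ hξ
      exact cos_one A k ξ hk hA (hP ξ (hfin.mem_toFinset.1 (Finset.mem_of_mem_erase hξ)))
    have herase : ((KF.erase 0).card : ℝ) = (KF.card : ℝ) - 1 := by
      have h0 : (0 : F) ∈ KF := hfin.mem_toFinset.2 K₀.zero_mem
      rw [Finset.card_erase_of_mem h0, Nat.cast_sub (Finset.card_pos.2 ⟨_, h0⟩)]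
      simp
    rw [herase] at hsum
    exact hsum.trans (mul_le_mul_of_nonneg_left hc' (by linarith))
  -- upper bound by contradiction
  by_contra hcon
  push Not at hcon
  have hcon' : ∀ a₀ x : F, x ≠ 0 → 2 * k * cnt a₀ x < (KF.card : ℝ) - 1 := by
    intro a₀ x hx
    have := hcon a₀ x hx
    rw [hNat, hKcard] at this
    exact this
  -- K - 1 > 0
  have hcnt0 : ∀ a₀ x : F, 0 ≤ cnt a₀ x := fun _ _ => Nat.cast_nonneg _
  have hpos : 0 < (KF.card : ℝ) - 1 := by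
    have h1 := hcon' 0 1 one_ne_zero
    have h2 : 0 ≤ 2 * k * cnt 0 1 := mul_nonneg (by linarith) (hcnt0 _ _)
    linarith
  have hQne : Q.Nonempty := by
    rw [← Finset.card_pos]
    have : 0 < 2 * k * (Q.card : ℝ) :=
      lt_of_lt_of_le (mul_pos hpos (pow_pos hn0 3)) hlow
    have h3 : 0 < (Q.card : ℝ) := by
      by_contra hq
      have : (Q.card : ℝ) ≤ 0 := not_lt.1 hq
      nlinarith
    exact_mod_cast h3
  -- Q maps to (a₂, a₃, a₄)
  have hQc : Q.card = ∑ w ∈ (A ×ˢ (A ×ˢ A)).filter (fun w => w.2.1 ≠ w.2.2),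
      (Q.filter fun z => (z.2.1, (z.1.2, z.2.2)) = w).card := by
    apply Finset.card_eq_sum_card_fiberwise
    intro z hz
    have hz' := Finset.mem_coe.1 hz
    simp only [hQ, Finset.mem_filter, Finset.mem_product] at hz'
    rw [Finset.mem_coe, Finset.mem_filter, Finset.mem_product, Finset.mem_product]
    exact ⟨⟨hz'.1.2.1, hz'.1.1.2, hz'.1.2.2⟩, hz'.2.1⟩
  have hfib : ∀ w ∈ (A ×ˢ (A ×ˢ A)).filter (fun w => w.2.1 ≠ w.2.2),
      2 * k * ((Q.filter fun z => (z.2.1, (z.1.2, z.2.2)) = w).card : ℝ) <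
        (KF.card : ℝ) - 1 := by
    intro w hw
    have hw2 := (Finset.mem_filter.1 hw).2
    have h1 : (Q.filter fun z => (z.2.1, (z.1.2, z.2.2)) = w).card ≤
        (A.filter fun a => (w.2.1 - w.2.2)⁻¹ * (a - w.1) ∈ K₀).card := by
      apply Finset.card_le_card_of_injOn (fun z => z.1.1)
      · intro z hz
        have hz' := Finset.mem_coe.1 hz
        simp only [hQ, Finset.mem_filter, Finset.mem_product] at hz'
        obtain ⟨⟨⟨⟨h1, h2⟩, h3, h4⟩, h5, h6⟩, h7⟩ := hz'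
        rw [Finset.mem_coe, Finset.mem_filter, ← h7]
        exact ⟨h1, h6⟩
      · intro z hz z' hz' hzz
        have h1 := (Finset.mem_filter.1 (Finset.mem_coe.1 hz)).2
        have h2 := (Finset.mem_filter.1 (Finset.mem_coe.1 hz')).2
        have h3 := h1.trans h2.symm
        have h4 : z.1.1 = z'.1.1 := hzz
        obtain ⟨h5, h67⟩ := Prod.ext_iff.1 h3
        obtain ⟨h6, h7⟩ := Prod.ext_iff.1 h67
        exact Prod.ext (Prod.ext h4 h6) (Prod.ext h5 h7)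
    have h2 : ((Q.filter fun z => (z.2.1, (z.1.2, z.2.2)) = w).card : ℝ) ≤
        cnt w.1 (w.2.1 - w.2.2) := by
      simp only [hcnt]
      exact_mod_cast h1
    have h3 := hcon' w.1 (w.2.1 - w.2.2) (sub_ne_zero.2 hw2)
    exact lt_of_le_of_lt (mul_le_mul_of_nonneg_left h2 (by linarith)) h3
  have hWne : ((A ×ˢ (A ×ˢ A)).filter (fun w => w.2.1 ≠ w.2.2)).Nonempty := by
    obtain ⟨z, hz⟩ := hQne
    simp only [hQ, Finset.mem_filter, Finset.mem_product] at hz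
    exact ⟨(z.2.1, (z.1.2, z.2.2)), Finset.mem_filter.2
      ⟨Finset.mem_product.2 ⟨hz.1.2.1, Finset.mem_product.2 ⟨hz.1.1.2, hz.1.2.2⟩⟩, hz.2.1⟩⟩
  have hup : 2 * k * (Q.card : ℝ) < ((KF.card : ℝ) - 1) * (A.card : ℝ) ^ 3 := by
    have hQc' : (Q.card : ℝ) = ∑ w ∈ (A ×ˢ (A ×ˢ A)).filter (fun w => w.2.1 ≠ w.2.2),
      ((Q.filter fun z => (z.2.1, (z.1.2, z.2.2)) = w).card : ℝ) := by
      exact_mod_cast hQc
    rw [hQc', Finset.mul_sum]
    have h1 : ∑ w ∈ (A ×ˢ (A ×ˢ A)).filter (fun w => w.2.1 ≠ w.2.2),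
        2 * k * ((Q.filter fun z => (z.2.1, (z.1.2, z.2.2)) = w).card : ℝ) <
        ∑ w ∈ (A ×ˢ (A ×ˢ A)).filter (fun w => w.2.1 ≠ w.2.2), ((KF.card : ℝ) - 1) :=
      Finset.sum_lt_sum_of_nonempty hWne hfib
    refine lt_of_lt_of_le h1 ?_
    rw [Finset.sum_const, nsmul_eq_mul, mul_comm]
    apply mul_le_mul_of_nonneg_left _ hpos.le
    have h2 : ((A ×ˢ (A ×ˢ A)).filter (fun w => w.2.1 ≠ w.2.2)).card ≤ A.card ^ 3 := by
      refine (Finset.card_filter_le _ _).trans ?_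
      rw [Finset.card_product, Finset.card_product]
      apply le_of_eq; ring
    exact_mod_cast h2
  linarith

end Pool.Agent.DSG
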