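import Pool.Agent.DSG.Stmts

set_option autoImplicit false

/-!
# Assembly of the main theorem of DSG
-/

namespace Pool.Agent.DSG

open Finset
open scoped BigOperators Pointwise

/-- The numerical constant. -/
private theorem fin_const : ∃ c₁ : ℝ, c₁ = 2 ^ 28 * 3200 ^ 16 ∧ 2 ^ 28 ≤ c₁ ∧ 3200 ≤ c₁ := by
  refine ⟨_, rfl, ?_, ?_⟩
  · norm_num
  · norm_num

/-- Small powers of `k` times a factor at most `k` are below `N`. -/
private theorem fin_pow {k N c : ℝ} (i : ℕ) (hi : i + 1 ≤ 30000) (hk : 1 ≤ k)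
    (hN : k ^ 30000 < N) (hc : c ≤ k) : c * k ^ i < N := by
  have h1 : c * k ^ i ≤ k * k ^ i := mul_le_mul_of_nonneg_right hc (by positivity)
  have h2 : k * k ^ i = k ^ (i + 1) := by rw [pow_succ]; ring
  have h3 : k ^ (i + 1) ≤ k ^ 30000 := pow_le_pow_right₀ hk hi
  linarith

private theorem fin_pra_zero {F : Type} [DivisionRing F] [DecidableEq F] (A : Finset F) {k : ℝ}
    (hk : 1 ≤ k) : PrA A k 0 := by
  unfold PrA
  have h1 : A - A.image (fun a => a * 0) ⊆ A := by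
    intro z hz
    rw [mem_sub] at hz
    obtain ⟨y, hy, w, hw, rfl⟩ := hz
    rw [mem_image] at hw
    obtain ⟨v, hv, rfl⟩ := hw
    simpa using hy
  have h2 : ((A - A.image (fun a => a * 0)).card : ℝ) ≤ A.card := by
    exact_mod_cast card_le_card h1
  have h3 : (0 : ℝ) ≤ A.card := by positivity
  nlinarith

/-- First half: the grid, the set `A₀` and the set of slopes. -/
private theorem fin_first (h1 : St_CNT) (h2 : St_TRF) (h3 : St_PEN) (h4 : St_GRD)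
    {F : Type} [DivisionRing F] [DecidableEq F] {V : Type} [Fintype V] [DecidableEq V]
    {H : Finset (Finset V)} {φ : V → F × F} {K k N : ℝ} (hH : H.IsPairwiseBalancedDesign)
    (hlt : ∀ e ∈ H, e.card < Fintype.card V) (hφ : Function.Injective φ)
    (hcol : ∀ x y z : V, (∃ e ∈ H, x ∈ e ∧ y ∈ e ∧ z ∈ e) ↔ Collinear F {φ x, φ y, φ z})
    (hK : 1 ≤ K) (hNt : ∀ t, (Nt H t : ℝ) ≤ K * Real.sqrt (Fintype.card V))
    (hNs : Real.sqrt (Fintype.card V) = N) (hn : (Fintype.card V : ℝ) = N ^ 2)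
    (hkα : 2 ^ 28 * (3200 * K ^ 2) ^ 16 = k) (hN : 10 ^ 4 * K ^ 2 < N) :
    ∃ (L : Finset V) (a b : V → F) (Λ A₀ : Finset F), L ∈ H ∧ Λ.Nonempty ∧
      (∀ p q : V, p ∉ L → q ∉ L → a p = a q → b p = b q → p = q) ∧
      (∀ p q z : V, p ∉ L → q ∉ L → z ∉ L → p ≠ q →
        ((∃ e ∈ H, p ∈ e ∧ q ∈ e ∧ z ∈ e) ↔ (a p = a q ∧ a z = a p) ∨
          ∃ μ : F, a p * μ - b p = a q * μ - b q ∧ a z * μ - b z = a p * μ - b p)) ∧
      N ≤ 4 * K * Λ.card ∧ (∀ η ∈ Λ, η ≠ 0) ∧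
      (∀ η ∈ Λ, (((univ \ L).image fun p => a p * η - b p).card : ℝ) ≤ 40 * K * N) ∧
      (A₀.card : ℝ) ≤ 40 * K * N ∧ A₀.Nonempty ∧
      40 * N ≤ 6 * 3200 ^ 2 * K ^ 3 * A₀.card ∧
      (∀ c ∈ A₀, 40 * N ≤ 2 * 3200 ^ 2 * K ^ 3 *
        (((univ \ L).filter fun p => a p = c).card : ℝ)) ∧
      ∀ η ∈ Λ, ∀ η₀ ∈ Λ, PrA A₀ k (η * η₀⁻¹) := by
  have hK2 : (1 : ℝ) ≤ K ^ 2 := one_le_pow₀ hK
  have hN1 : 1 ≤ N := by nlinarith
  have hKK : K ≤ K ^ 2 := by nlinarith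
  have hN0 : 0 < N := by linarith
  have hK0 : 0 < K := by linarith
  obtain ⟨L, hL, W, hWL, hnL, hW, hWd⟩ := h1 V H K hH hlt hK (by rw [hn]; nlinarith) hNt
  rw [hNs] at hW hWd
  have hωN : N ≤ 2 * K * (W.card : ℝ) := hW
  have hW4 : (4 : ℝ) < W.card := by
    by_contra hc
    push Not at hc
    have : 2 * K * (W.card : ℝ) ≤ 2 * K * 4 := by
      apply mul_le_mul_of_nonneg_left hc; positivity
    nlinarith
  have hW1 : 1 < W.card := by
    have : (1 : ℝ) < (W.card : ℝ) := by linarith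
    exact_mod_cast this
  obtain ⟨w₁, hw₁, w₂, hw₂, hne⟩ := Finset.one_lt_card.mp hW1
  obtain ⟨a, b, η, hab, hη0, hηinj, hblk, htri⟩ :=
    h2 F V H φ L w₁ w₂ hH hφ hcol hL (hWL hw₁) (hWL hw₂) hne
  -- the slopes
  set W' := (W.erase w₁).erase w₂ with hW'
  have hmemW' : ∀ w ∈ W', w ∈ W ∧ w ≠ w₁ ∧ w ≠ w₂ := by
    intro w hw
    rw [hW', mem_erase, mem_erase] at hw
    exact ⟨hw.2.2, hw.2.1, hw.1⟩
  have hW'card : W'.card + 2 = W.card := by
    rw [hW', card_erase_of_mem (by rw [mem_erase]; exact ⟨hne.symm, hw₂⟩),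
      card_erase_of_mem hw₁]
    omega
  set Λ := W'.image η with hΛ
  have hΛcard : Λ.card = W'.card := by
    rw [hΛ]
    apply card_image_of_injOn
    intro w hw w' hw' h
    have h1 := hmemW' w (by exact_mod_cast hw)
    have h2 := hmemW' w' (by exact_mod_cast hw')
    exact hηinj w (hWL h1.1) h1.2.1 h1.2.2 w' (hWL h2.1) h2.2.1 h2.2.2 h
  have hΛN : N ≤ 4 * K * Λ.card := by
    have e1 : (Λ.card : ℝ) = W.card - 2 := by
      rw [hΛcard, ← hW'card]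
      push_cast
      ring
    rw [e1]
    nlinarith
  have hΛne : Λ.Nonempty := by
    rw [← card_pos]
    by_contra hc
    have : Λ.card = 0 := by omega
    rw [this] at hΛN
    simp at hΛN
    linarith
  have hΛ0 : ∀ ξ ∈ Λ, ξ ≠ 0 := by
    intro ξ hξ
    rw [hΛ, mem_image] at hξ
    obtain ⟨w, hw, rfl⟩ := hξ
    have h1 := hmemW' w hw
    exact hη0 w (hWL h1.1) h1.2.1 h1.2.2
  set P := univ \ L with hP
  have hmemP : ∀ p, p ∈ P ↔ p ∉ L := by
    intro p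
    rw [hP, mem_sdiff]
    simp
  have hΛr : ∀ ξ ∈ Λ, ((P.image fun p => a p * ξ - b p).card : ℝ) ≤ 40 * K * N := by
    intro ξ hξ
    rw [hΛ, mem_image] at hξ
    obtain ⟨w, hw, rfl⟩ := hξ
    have h1 := hmemW' w hw
    have h5 := h3 F V H L w (fun p => a p * η w - b p) hH hL (hWL h1.1)
      (fun p q hp hq hpq => (hblk p q hp hq hpq).2.2 w (hWL h1.1) h1.2.1 h1.2.2)
    have h6 := hWd w h1.1
    have h7 : ((P.image fun p => a p * η w - b p).card : ℝ) ≤ (dg H w : ℝ) := by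
      exact_mod_cast h5
    exact h7.trans h6
  have har : ((P.image a).card : ℝ) ≤ 40 * K * N := by
    have h5 := h3 F V H L w₁ a hH hL (hWL hw₁)
      (fun p q hp hq hpq => (hblk p q hp hq hpq).1)
    have h7 : ((P.image a).card : ℝ) ≤ (dg H w₁ : ℝ) := by exact_mod_cast h5
    exact h7.trans (hWd w₁ hw₁)
  have hbr : ((P.image b).card : ℝ) ≤ 40 * K * N := by
    have h5 := h3 F V H L w₂ b hH hL (hWL hw₂)
      (fun p q hp hq hpq => (hblk p q hp hq hpq).2.1)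
    have h7 : ((P.image b).card : ℝ) ≤ (dg H w₂ : ℝ) := by exact_mod_cast h5
    exact h7.trans (hWd w₂ hw₂)
  -- the grid
  set G := P.image (fun p => (a p, b p)) with hG
  have hGcard : G.card = P.card := by
    rw [hG]
    apply card_image_of_injOn
    intro p hp q hq h
    have hp' := (hmemP p).1 (by exact_mod_cast hp)
    have hq' := (hmemP q).1 (by exact_mod_cast hq)
    exact hab p q hp' hq' (congrArg Prod.fst h) (congrArg Prod.snd h)
  have hG1 : G.image Prod.fst = P.image a := by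
    rw [hG, image_image]
    rfl
  have hG2 : G.image Prod.snd = P.image b := by
    rw [hG, image_image]
    rfl
  have hG3 : ∀ ξ, (G.image fun p => p.1 * ξ - p.2) = P.image fun p => a p * ξ - b p := by
    intro ξ
    rw [hG, image_image]
    rfl
  have hα0 : (0 : ℝ) < (3200 * K ^ 2)⁻¹ := by positivity
  have hr0 : (0 : ℝ) < 40 * K * N := by positivity
  have hGα : (3200 * K ^ 2)⁻¹ * (40 * K * N) ^ 2 ≤ G.card := by
    have e1 : (3200 * K ^ 2)⁻¹ * (40 * K * N) ^ 2 = N ^ 2 / 2 := by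
      field_simp
      ring
    rw [e1, hGcard]
    rw [hn] at hnL
    linarith
  obtain ⟨A₀, hA₀G, hA₀ne, hA₀card, hA₀deg, hA₀pr⟩ := h4 F G Λ (40 * K * N) (3200 * K ^ 2)⁻¹
    hα0 hr0 (by rw [hG1]; exact har) (by rw [hG2]; exact hbr) hGα
    (fun ξ hξ => ⟨hΛ0 ξ hξ, by rw [hG3]; exact hΛr ξ hξ⟩)
  have eα : (3200 * K ^ 2)⁻¹ ^ 2 * (40 * K * N) = 40 * N / (3200 ^ 2 * K ^ 3) := by
    field_simp
  refine ⟨L, a, b, Λ, A₀, hL, hΛne, hab, htri, hΛN, hΛ0, hΛr, ?_, hA₀ne, ?_, ?_, ?_⟩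
  · rw [hG1] at hA₀G
    have : (A₀.card : ℝ) ≤ (P.image a).card := by exact_mod_cast card_le_card hA₀G
    linarith
  · rw [eα, div_le_iff₀ (by positivity)] at hA₀card
    linarith
  · intro c hc
    have h5 := hA₀deg c hc
    rw [eα, div_le_iff₀ (by positivity)] at h5
    have h6 : (G.filter fun p => p.1 = c).card ≤ (P.filter fun p => a p = c).card := by
      have : G.filter (fun p => p.1 = c) ⊆
          (P.filter fun p => a p = c).image (fun p => (a p, b p)) := by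
        intro z hz
        rw [mem_filter, hG, mem_image] at hz
        obtain ⟨⟨p, hp, rfl⟩, hz⟩ := hz
        rw [mem_image]
        exact ⟨p, by rw [mem_filter]; exact ⟨hp, hz⟩, rfl⟩
      exact (card_le_card this).trans card_image_le
    have h7 : ((G.filter fun p => p.1 = c).card : ℝ) ≤ ((P.filter fun p => a p = c).card : ℝ) := by
      exact_mod_cast h6
    have h8 : 2 * 3200 ^ 2 * K ^ 3 * ((G.filter fun p => p.1 = c).card : ℝ) ≤
        2 * 3200 ^ 2 * K ^ 3 * ((P.filter fun p => a p = c).card : ℝ) :=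
      mul_le_mul_of_nonneg_left h7 (by positivity)
    linarith
  · intro ξ hξ η₀ hη₀
    have h5 := hA₀pr ξ hξ η₀ hη₀
    rw [inv_inv, hkα] at h5
    exact h5

/-- Second half: the subfield, the affine plane over it and the window. -/
private theorem fin_second (h5 : St_FLD) (h6 : St_COS) (h7 : St_SPL) (h8 : St_PLN)
    {F : Type} [DivisionRing F] [DecidableEq F] {V : Type} [Fintype V] [DecidableEq V]
    {H : Finset (Finset V)} {K k N : ℝ} (hH : H.IsPairwiseBalancedDesign) (hK : 1 ≤ K)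
    (hNt : ∀ t, (Nt H t : ℝ) ≤ K * N) (hn : (Fintype.card V : ℝ) = N ^ 2)
    (hk28 : 2 ^ 28 ≤ k) (hkK : 3200 * K ^ 2 ≤ k) (hN : k ^ 30000 < N)
    {L : Finset V} {a b : V → F} {Λ A₀ : Finset F} (hL : L ∈ H) (hΛne : Λ.Nonempty)
    (hab : ∀ p q : V, p ∉ L → q ∉ L → a p = a q → b p = b q → p = q)
    (htri : ∀ p q z : V, p ∉ L → q ∉ L → z ∉ L → p ≠ q →
        ((∃ e ∈ H, p ∈ e ∧ q ∈ e ∧ z ∈ e) ↔ (a p = a q ∧ a z = a p) ∨
          ∃ μ : F, a p * μ - b p = a q * μ - b q ∧ a z * μ - b z = a p * μ - b p))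
    (hΛN : N ≤ 4 * K * Λ.card) (hΛ0 : ∀ η ∈ Λ, η ≠ 0)
    (hΛr : ∀ η ∈ Λ, (((univ \ L).image fun p => a p * η - b p).card : ℝ) ≤ 40 * K * N)
    (hA₀r : (A₀.card : ℝ) ≤ 40 * K * N) (hA₀ne : A₀.Nonempty)
    (hA₀N : 40 * N ≤ 6 * 3200 ^ 2 * K ^ 3 * A₀.card)
    (hdeg : ∀ c ∈ A₀, 40 * N ≤ 2 * 3200 ^ 2 * K ^ 3 *
        (((univ \ L).filter fun p => a p = c).card : ℝ))
    (hpr : ∀ η ∈ Λ, ∀ η₀ ∈ Λ, PrA A₀ k (η * η₀⁻¹)) : False := by
  classical
  have hk1 : 1 ≤ k := by linarith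
  have hk0 : 0 < k := by linarith
  have hK0 : 0 < K := by linarith
  have hK2 : (1 : ℝ) ≤ K ^ 2 := one_le_pow₀ hK
  have hKK : K ≤ K ^ 2 := by nlinarith
  have hKk : 3200 * K ≤ k := by linarith
  have h16K : 16 * K ≤ k := by linarith
  have h16K2 : 16 * K ^ 2 ≤ k := by linarith
  have h81 : 81 ≤ k := by linarith
  have hp : ∀ (c : ℝ) (i : ℕ), c ≤ k → i + 1 ≤ 30000 → c * k ^ i < N :=
    fun c i hc hi => fin_pow i hi hk1 hN hc
  have hN1 : 1 < N := by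
    have := hp 1 0 hk1 (by norm_num)
    simpa using this
  have hN0 : 0 < N := by linarith
  have hkp : ∀ i : ℕ, (1 : ℝ) ≤ k ^ i := fun i => one_le_pow₀ hk1
  have hK3 : 3200 ^ 2 * K ^ 3 ≤ k ^ 2 := by
    have e1 : (3200 * K ^ 2) ^ 2 ≤ k ^ 2 := pow_le_pow_left₀ (by positivity) hkK 2
    have e2 : K ^ 3 ≤ K ^ 4 := pow_le_pow_right₀ hK (by norm_num)
    nlinarith
  obtain ⟨η₀, hη₀⟩ := hΛne
  have hη₀0 := hΛ0 η₀ hη₀
  set Λ₁ := insert (0 : F) (Λ.image (fun ξ => ξ * η₀⁻¹)) with hΛ₁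
  have hΛ₁card : (Λ.card : ℝ) ≤ Λ₁.card := by
    have e1 : (Λ.image (fun ξ => ξ * η₀⁻¹)).card = Λ.card :=
      card_image_of_injective _ (mul_left_injective₀ (inv_ne_zero hη₀0))
    have e2 : (Λ.image (fun ξ => ξ * η₀⁻¹)).card ≤ Λ₁.card := card_le_card (subset_insert _ _)
    rw [e1] at e2
    exact_mod_cast e2
  have h0Λ₁ : (0 : F) ∈ Λ₁ := mem_insert_self _ _
  have h1Λ₁ : (1 : F) ∈ Λ₁ := by
    apply mem_insert_of_mem
    rw [mem_image]
    exact ⟨η₀, hη₀, mul_inv_cancel₀ hη₀0⟩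
  have hprΛ₁ : ∀ ξ ∈ Λ₁, PrA A₀ k ξ := by
    intro ξ hξ
    rw [hΛ₁, mem_insert] at hξ
    rcases hξ with rfl | hξ
    · exact fin_pra_zero A₀ hk1
    · rw [mem_image] at hξ
      obtain ⟨η, hη, rfl⟩ := hξ
      exact hpr η hη η₀ hη₀
  have hA : 40 * N ≤ 6 * k ^ 2 * A₀.card := by
    have e1 : 6 * 3200 ^ 2 * K ^ 3 * (A₀.card : ℝ) ≤ 6 * k ^ 2 * A₀.card := by
      apply mul_le_mul_of_nonneg_right _ (by positivity)
      linarith
    linarith
  have hAlow : ∀ i : ℕ, i ≤ 25088 → 2 * k ^ i ≤ (A₀.card : ℝ) := by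
    intro i hi
    by_contra hc
    push Not at hc
    have e1 : 6 * k ^ 2 * (A₀.card : ℝ) ≤ 6 * k ^ 2 * (2 * k ^ i) :=
      mul_le_mul_of_nonneg_left hc.le (by positivity)
    have e2 : 6 * k ^ 2 * (2 * k ^ i) = 12 * k ^ (i + 2) := by rw [pow_add]; ring
    have e3 := hp 12 (i + 2) (by linarith) (by omega)
    linarith
  have hX : 2 * k ^ 25088 * A₀.card + 1 < (Λ₁.card : ℝ) ^ 2 := by
    have e1 : N ^ 2 ≤ k * (Λ₁.card : ℝ) ^ 2 := by
      have e2 : N ≤ 4 * K * Λ₁.card := hΛN.trans (mul_le_mul_of_nonneg_left hΛ₁card (by positivity))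
      have e3 : N ^ 2 ≤ (4 * K * Λ₁.card) ^ 2 := pow_le_pow_left₀ hN0.le e2 2
      have e4 : (4 * K * (Λ₁.card : ℝ)) ^ 2 = 16 * K ^ 2 * (Λ₁.card : ℝ) ^ 2 := by ring
      have e5 : 16 * K ^ 2 * (Λ₁.card : ℝ) ^ 2 ≤ k * (Λ₁.card : ℝ) ^ 2 :=
        mul_le_mul_of_nonneg_right (by linarith) (by positivity)
      linarith
    have e6 : 2 * k ^ 25088 * (A₀.card : ℝ) ≤ 80 * k ^ 25089 * N := by
      have e7 : 2 * k ^ 25088 * (A₀.card : ℝ) ≤ 2 * k ^ 25088 * (40 * K * N) :=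
        mul_le_mul_of_nonneg_left hA₀r (by positivity)
      have e8 : 2 * k ^ 25088 * (40 * K * N) ≤ 2 * k ^ 25088 * (40 * k * N) := by
        apply mul_le_mul_of_nonneg_left _ (by positivity)
        apply mul_le_mul_of_nonneg_right _ hN0.le
        linarith
      have e9 : 2 * k ^ 25088 * (40 * k * N) = 80 * k ^ 25089 * N := by
        rw [pow_succ k 25088]; ring
      linarith
    have e10 : (1 : ℝ) ≤ k ^ 25089 * N := by
      have := mul_le_mul (hkp 25089) hN1.le (by norm_num) (by positivity)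
      linarith
    have e11 : k * (2 * k ^ 25088 * (A₀.card : ℝ) + 1) ≤ 81 * k ^ 25090 * N := by
      have e12 : k * (2 * k ^ 25088 * (A₀.card : ℝ) + 1) ≤ k * (81 * k ^ 25089 * N) :=
        mul_le_mul_of_nonneg_left (by linarith) hk0.le
      have e13 : k * (81 * k ^ 25089 * N) = 81 * k ^ 25090 * N := by
        rw [pow_succ k 25089]; ring
      linarith
    have e14 : 81 * k ^ 25090 * N < N * N :=
      mul_lt_mul_of_pos_right (hp 81 25090 (by linarith) (by norm_num)) hN0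
    have e15 : k * (2 * k ^ 25088 * (A₀.card : ℝ) + 1) < k * (Λ₁.card : ℝ) ^ 2 := by
      have : N * N = N ^ 2 := by ring
      linarith
    exact lt_of_mul_lt_mul_left e15 hk0.le
  obtain ⟨K₀, hfin, hqle, hΛK, hprK⟩ := h5 F A₀ k Λ₁ hA₀ne hk1 h0Λ₁ h1Λ₁ hprΛ₁
    (hAlow 25088 le_rfl) hX
  obtain ⟨q, hq⟩ : ∃ q : ℕ, Nat.card K₀ = q := ⟨_, rfl⟩
  rw [hq] at hqle
  have hqΛ : (Λ₁.card : ℝ) ≤ q := by
    have e1 : (Λ₁ : Set F).ncard ≤ (K₀ : Set F).ncard :=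
      Set.ncard_le_ncard (fun ξ hξ => hΛK ξ (by exact_mod_cast hξ)) hfin
    rw [Set.ncard_coe_finset] at e1
    have e2 : (K₀ : Set F).ncard = q := by
      rw [← hq]
      rfl
    rw [e2] at e1
    exact_mod_cast e1
  have hNq : N ≤ 4 * K * q :=
    hΛN.trans (mul_le_mul_of_nonneg_left (hΛ₁card.trans hqΛ) (by positivity))
  have hqup : (q : ℝ) ≤ k ^ 58 * N := by
    have e1 : 2 * k ^ 56 * (A₀.card : ℝ) ≤ 2 * k ^ 56 * (40 * k * N) := by
      apply mul_le_mul_of_nonneg_left _ (by positivity)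
      refine hA₀r.trans (mul_le_mul_of_nonneg_right (by linarith) hN0.le)
    have e2 : (1 : ℝ) ≤ k ^ 57 * N := by
      have := mul_le_mul (hkp 57) hN1.le (by norm_num) (by positivity)
      linarith
    have e3 : 2 * k ^ 56 * (40 * k * N) = 80 * (k ^ 57 * N) := by ring
    have e4 : 81 * (k ^ 57 * N) ≤ k * (k ^ 57 * N) :=
      mul_le_mul_of_nonneg_right (by linarith) (by positivity)
    have e5 : k * (k ^ 57 * N) = k ^ 58 * N := by ring
    linarith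
  have h8KN : 8 * K < N := by
    have := hp (8 * K) 0 (by linarith) (by norm_num)
    simpa using this
  obtain ⟨a₀, x, hx, hcos⟩ := h6 F A₀ (k ^ 56) K₀ (hkp 56) (hAlow 56 (by norm_num)) hfin hprK
  rw [hq] at hcos
  set Ac := A₀.filter (fun c => x⁻¹ * (c - a₀) ∈ K₀) with hAc
  have hAccard : Nat.card {c : F // c ∈ A₀ ∧ x⁻¹ * (c - a₀) ∈ K₀} = Ac.card :=
    Nat.subtype_card Ac (fun c => by rw [hAc, mem_filter])
  rw [hAccard] at hcos
  have hAcN : N ≤ k ^ 57 * Ac.card := by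
    have e1 : N ≤ 8 * K * ((q : ℝ) - 1) := by nlinarith
    have e2 : 8 * K * ((q : ℝ) - 1) ≤ 8 * K * (2 * k ^ 56 * Ac.card) :=
      mul_le_mul_of_nonneg_left hcos (by positivity)
    have e3 : 8 * K * (2 * k ^ 56 * (Ac.card : ℝ)) = 16 * K * (k ^ 56 * Ac.card) := by ring
    have e4 : 16 * K * (k ^ 56 * (Ac.card : ℝ)) ≤ k * (k ^ 56 * Ac.card) :=
      mul_le_mul_of_nonneg_right h16K (mul_nonneg (pow_nonneg hk0.le _) (Nat.cast_nonneg _))
    have e5 : k * (k ^ 56 * (Ac.card : ℝ)) = k ^ 57 * Ac.card := by ring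
    linarith
  set P := univ \ L with hP
  have hmemP : ∀ p, p ∈ P ↔ p ∉ L := by
    intro p
    rw [hP, mem_sdiff]
    simp
  set S := P.filter (fun p => a p ∈ Ac) with hS
  have hScard : S.card = ∑ c ∈ Ac, (P.filter (fun p => a p = c)).card := by
    rw [card_eq_sum_card_fiberwise (f := a) (s := S) (t := Ac)
      (fun p hp => by
        have hp' : p ∈ S := by exact_mod_cast hp
        rw [hS, mem_filter] at hp'
        exact_mod_cast hp'.2)]
    apply sum_congr rfl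
    intro c hc
    congr 1
    refine Finset.ext fun p => ?_
    simp only [hS, mem_filter]
    constructor
    · rintro ⟨⟨h1, h2⟩, h3⟩
      exact ⟨h1, h3⟩
    · rintro ⟨h1, h3⟩
      exact ⟨⟨h1, by rw [h3]; exact hc⟩, h3⟩
  have hSN : 20 * N * Ac.card ≤ k ^ 2 * S.card := by
    rw [hScard]
    push_cast
    rw [mul_sum]
    have e1 : ∀ c ∈ Ac, 20 * N ≤ k ^ 2 * ((P.filter (fun p => a p = c)).card : ℝ) := by
      intro c hc
      rw [hAc, mem_filter] at hc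
      have e2 := hdeg c hc.1
      have e3 : 2 * 3200 ^ 2 * K ^ 3 * ((P.filter (fun p => a p = c)).card : ℝ) ≤
          2 * k ^ 2 * ((P.filter (fun p => a p = c)).card : ℝ) :=
        mul_le_mul_of_nonneg_right (by linarith) (by positivity)
      linarith
    have e4 := sum_le_sum e1
    rw [sum_const, nsmul_eq_mul] at e4
    linarith
  have hSN2 : 20 * N ^ 2 ≤ k ^ 59 * S.card := by
    have e1 : 20 * N * N ≤ 20 * N * (k ^ 57 * Ac.card) :=
      mul_le_mul_of_nonneg_left hAcN (by positivity)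
    have e2 : k ^ 57 * (20 * N * Ac.card) ≤ k ^ 57 * (k ^ 2 * S.card) :=
      mul_le_mul_of_nonneg_left hSN (by positivity)
    have e3 : k ^ 57 * (k ^ 2 * (S.card : ℝ)) = k ^ 59 * S.card := by ring
    nlinarith
  have hS2r : 2 * (40 * K * N) ≤ (S.card : ℝ) := by
    by_contra hc
    push Not at hc
    have e1 : k ^ 59 * (S.card : ℝ) ≤ k ^ 59 * (2 * (40 * K * N)) :=
      mul_le_mul_of_nonneg_left hc.le (by positivity)
    have e2 : k ^ 59 * (2 * (40 * K * N)) = 80 * K * k ^ 59 * N := by ring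
    have e3 : 80 * K * k ^ 59 * N < N * N :=
      mul_lt_mul_of_pos_right (hp (80 * K) 59 (by linarith) (by norm_num)) hN0
    nlinarith
  obtain ⟨b₀, hb₀⟩ := h7 F V S a b Λ K₀ a₀ x η₀ (40 * K * N) (by positivity) hx hη₀0
    (fun p hp q hq => hab p q ((hmemP p).1 (mem_of_mem_filter p hp))
      ((hmemP q).1 (mem_of_mem_filter q hq)))
    (fun η hη => ⟨hΛK _ (by
        rw [hΛ₁]; apply mem_insert_of_mem; rw [mem_image]; exact ⟨η, hη, rfl⟩), by
      have e1 : (S.image fun p => a p * η - b p).card ≤ (P.image fun p => a p * η - b p).card :=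
        card_le_card (image_subset_image (filter_subset _ _))
      have e2 : ((S.image fun p => a p * η - b p).card : ℝ) ≤
        (P.image fun p => a p * η - b p).card := by exact_mod_cast e1
      exact e2.trans (hΛr η hη)⟩)
    (fun p hp => by
      have e1 := (mem_filter.1 hp).2
      rw [hAc, mem_filter] at e1
      exact e1.2)
    hS2r
  obtain ⟨s, hs⟩ : ∃ s : ℕ, Nat.card {p : V // p ∉ L ∧ x⁻¹ * (a p - a₀) ∈ K₀ ∧
    x⁻¹ * (b p - b₀) * η₀⁻¹ ∈ K₀} = s := ⟨_, rfl⟩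
  have hsS : (Nat.card {p : V // p ∈ S ∧ x⁻¹ * (b p - b₀) * η₀⁻¹ ∈ K₀} : ℝ) ≤ s := by
    rw [← hs]
    have e1 : Nat.card {p : V // p ∈ S ∧ x⁻¹ * (b p - b₀) * η₀⁻¹ ∈ K₀} ≤
        Nat.card {p : V // p ∉ L ∧ x⁻¹ * (a p - a₀) ∈ K₀ ∧ x⁻¹ * (b p - b₀) * η₀⁻¹ ∈ K₀} := by
      apply Nat.card_le_card_of_injective (fun p : {p : V // p ∈ S ∧
        x⁻¹ * (b p - b₀) * η₀⁻¹ ∈ K₀} => (⟨p.1, (hmemP p.1).1 (mem_of_mem_filter p.1 p.2.1), by
          have e1 := (mem_filter.1 p.2.1).2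
          rw [hAc, mem_filter] at e1
          exact e1.2, p.2.2⟩ : {p : V // p ∉ L ∧ x⁻¹ * (a p - a₀) ∈ K₀ ∧
            x⁻¹ * (b p - b₀) * η₀⁻¹ ∈ K₀}))
      intro p q h
      apply Subtype.ext
      exact congrArg (fun z => z.1) h
    exact_mod_cast e1
  have hsN : N ^ 2 ≤ k ^ 60 * s := by
    have e1 : (Λ.card : ℝ) * S.card ≤ 80 * K * N * s := by
      have e2 : 2 * (40 * K * N) * (Nat.card {p : V // p ∈ S ∧ x⁻¹ * (b p - b₀) * η₀⁻¹ ∈ K₀} : ℝ) ≤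
          2 * (40 * K * N) * s := mul_le_mul_of_nonneg_left hsS (by positivity)
      linarith
    have e3 : N * (20 * N ^ 2) ≤ (4 * K * Λ.card) * (k ^ 59 * S.card) :=
      mul_le_mul hΛN hSN2 (by positivity) (by positivity)
    have e4 : (4 * K * (Λ.card : ℝ)) * (k ^ 59 * S.card) =
      4 * K * k ^ 59 * (Λ.card * S.card) := by ring
    have e5 : 4 * K * k ^ 59 * ((Λ.card : ℝ) * S.card) ≤ 4 * K * k ^ 59 * (80 * K * N * s) :=
      mul_le_mul_of_nonneg_left e1 (by positivity)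
    have e6 : 4 * K * k ^ 59 * (80 * K * N * s) = N * (20 * (16 * K ^ 2 * (k ^ 59 * s))) := by ring
    have e7 : N * (20 * N ^ 2) ≤ N * (20 * (16 * K ^ 2 * (k ^ 59 * s))) := by linarith
    have e8 : N ^ 2 ≤ 16 * K ^ 2 * (k ^ 59 * s) := by
      have := le_of_mul_le_mul_left e7 hN0
      linarith
    have e9 : 16 * K ^ 2 * (k ^ 59 * (s : ℝ)) ≤ k * (k ^ 59 * s) :=
      mul_le_mul_of_nonneg_right h16K2 (mul_nonneg (pow_nonneg hk0.le _) (Nat.cast_nonneg _))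
    have e10 : k * (k ^ 59 * (s : ℝ)) = k ^ 60 * s := by ring
    linarith
  have hqs : 16 * q ^ 3 ≤ s ^ 2 := by
    have e1 : (q : ℝ) ^ 3 ≤ (k ^ 58 * N) ^ 3 := pow_le_pow_left₀ (by positivity) hqup 3
    have e2 : (N ^ 2) ^ 2 ≤ (k ^ 60 * s) ^ 2 := pow_le_pow_left₀ (by positivity) hsN 2
    have e3 : k ^ 120 * (16 * (q : ℝ) ^ 3) ≤ k ^ 120 * (16 * (k ^ 58 * N) ^ 3) :=
      mul_le_mul_of_nonneg_left (by linarith) (by positivity)
    have e4 : k ^ 120 * (16 * (k ^ 58 * N) ^ 3) = 16 * k ^ 294 * N ^ 3 := by ring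
    have e5 : 16 * k ^ 294 * N ^ 3 ≤ N * N ^ 3 :=
      mul_le_mul_of_nonneg_right (hp 16 294 (by linarith) (by norm_num)).le (by positivity)
    have e6 : (k ^ 60 * (s : ℝ)) ^ 2 = k ^ 120 * (s : ℝ) ^ 2 := by ring
    have e7 : N * N ^ 3 = (N ^ 2) ^ 2 := by ring
    have e8 : k ^ 120 * (16 * (q : ℝ) ^ 3) ≤ k ^ 120 * (s : ℝ) ^ 2 := by linarith
    have e9 : 16 * (q : ℝ) ^ 3 ≤ (s : ℝ) ^ 2 := le_of_mul_le_mul_left e8 (by positivity)
    exact_mod_cast e9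
  obtain ⟨t, ht⟩ := h8 F V H L a b K₀ x η₀ a₀ b₀ q s hH hL hab htri hfin hq hx hη₀0 hs hqs
  rw [hn] at ht
  obtain ⟨m, hm⟩ : ∃ m : ℝ, m = Real.sqrt N := ⟨_, rfl⟩
  have hm2 : m ^ 2 = N := by rw [hm]; exact Real.sq_sqrt hN0.le
  have hm0 : 0 ≤ m := by rw [hm]; exact Real.sqrt_nonneg _
  have hm1 : 1 ≤ m := by
    by_contra hc
    push Not at hc
    nlinarith
  have hsq : Real.sqrt q ≤ k ^ 29 * m := by
    rw [Real.sqrt_le_iff]
    refine ⟨by positivity, ?_⟩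
    have : (k ^ 29 * m) ^ 2 = k ^ 58 * m ^ 2 := by ring
    rw [this, hm2]
    exact hqup
  have hq0 : (0 : ℝ) < q := by
    by_contra hc
    push Not at hc
    have : 4 * K * (q : ℝ) ≤ 0 := by nlinarith
    linarith
  have hNq2 : N ^ 2 ≤ 16 * K ^ 2 * (q : ℝ) ^ 2 := by
    have := pow_le_pow_left₀ hN0.le hNq 2
    have e : (4 * K * (q : ℝ)) ^ 2 = 16 * K ^ 2 * (q : ℝ) ^ 2 := by ring
    linarith
  have hdiv : 8 * N ^ 2 / (q : ℝ) ^ 2 ≤ k := by
    rw [div_le_iff₀ (by positivity)]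
    have : 128 * K ^ 2 * (q : ℝ) ^ 2 ≤ k * (q : ℝ) ^ 2 :=
      mul_le_mul_of_nonneg_right (by linarith) (by positivity)
    nlinarith
  have hbr : 8 * Real.sqrt q + 8 * N ^ 2 / (q : ℝ) ^ 2 + 4 ≤ 10 * (k ^ 29 * m) := by
    have e1 : k ≤ k ^ 29 * m := by
      have e2 : k ^ 1 ≤ k ^ 29 := pow_le_pow_right₀ hk1 (by norm_num)
      have e3 : k ^ 29 * 1 ≤ k ^ 29 * m := mul_le_mul_of_nonneg_left hm1 (by positivity)
      rw [pow_one] at e2
      linarith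
    linarith
  have hq2 : (q : ℝ) ^ 2 ≤ K * N * (10 * (k ^ 29 * m)) := by
    refine ht.trans ?_
    refine mul_le_mul (hNt t) hbr ?_ (by positivity)
    have := Real.sqrt_nonneg (q : ℝ)
    positivity
  have hfinal : m ≤ k ^ 31 := by
    have e1 : N ^ 2 ≤ 16 * K ^ 2 * (K * N * (10 * (k ^ 29 * m))) :=
      hNq2.trans (mul_le_mul_of_nonneg_left hq2 (by positivity))
    have e2 : 16 * K ^ 2 * (K * N * (10 * (k ^ 29 * m))) = N * m * (160 * K ^ 2 * K * k ^ 29) := by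
      ring
    have e3 : N ^ 2 = N * m * m := by rw [mul_assoc, ← pow_two, hm2, ← pow_two]
    have e4 : N * m * m ≤ N * m * (160 * K ^ 2 * K * k ^ 29) := by linarith
    have e5 : m ≤ 160 * K ^ 2 * K * k ^ 29 := le_of_mul_le_mul_left e4 (by positivity)
    have e6 : 160 * K ^ 2 * K * k ^ 29 ≤ k * k * k ^ 29 := by
      apply mul_le_mul_of_nonneg_right _ (by positivity)
      exact mul_le_mul (by linarith) (by linarith) hK0.le hk0.le
    have e7 : k * k * k ^ 29 = k ^ 31 := by ring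
    linarith
  have e1 : m ^ 2 ≤ (k ^ 31) ^ 2 := pow_le_pow_left₀ hm0 hfinal 2
  have e2 : (k ^ 31) ^ 2 = 1 * k ^ 62 := by ring
  have e3 := hp 1 62 hk1 (by norm_num)
  linarith

theorem thm_FIN (h1 : St_CNT) (h2 : St_TRF) (h3 : St_PEN) (h4 : St_GRD) (h5 : St_FLD)
    (h6 : St_COS) (h7 : St_SPL) (h8 : St_PLN) : St_FIN := by
  obtain ⟨c₁, hc₁, hc28, hc32⟩ := fin_const
  refine ⟨c₁ ^ 60000, 32 * 60000, one_le_pow₀ (by linarith), ?_⟩
  intro F _ V _ _ H φ K hH hlt hφ hcol hK hNt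
  let _ : DecidableEq F := Classical.decEq F
  obtain ⟨k, hk⟩ : ∃ k : ℝ, k = c₁ * K ^ 32 := ⟨_, rfl⟩
  have hkpow : c₁ ^ 60000 * K ^ (32 * 60000) = k ^ 60000 := by
    rw [hk, mul_pow, ← pow_mul]
  rw [hkpow]
  by_contra hcon
  push Not at hcon
  have hK1 : (1 : ℝ) ≤ K ^ 32 := one_le_pow₀ hK
  have hK2 : (1 : ℝ) ≤ K ^ 2 := one_le_pow₀ hK
  have hk28 : 2 ^ 28 ≤ k := by
    rw [hk]
    nlinarith
  have hkK : 3200 * K ^ 2 ≤ k := by
    rw [hk]
    have e1 : K ^ 2 ≤ K ^ 32 := pow_le_pow_right₀ hK (by norm_num)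
    have e2 : 3200 * K ^ 2 ≤ c₁ * K ^ 2 := mul_le_mul_of_nonneg_right hc32 (by positivity)
    have e3 : c₁ * K ^ 2 ≤ c₁ * K ^ 32 := mul_le_mul_of_nonneg_left e1 (by linarith)
    linarith
  have hk1 : 1 ≤ k := by linarith
  have hkα : 2 ^ 28 * (3200 * K ^ 2) ^ 16 = k := by
    rw [hk, hc₁]
    ring
  obtain ⟨N, hNdef⟩ : ∃ N : ℝ, Real.sqrt (Fintype.card V) = N := ⟨_, rfl⟩
  have hN0 : 0 ≤ N := by rw [← hNdef]; exact Real.sqrt_nonneg _
  have hn : (Fintype.card V : ℝ) = N ^ 2 := by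
    rw [← hNdef, Real.sq_sqrt (by positivity)]
  have hN : k ^ 30000 < N := by
    by_contra hc
    push Not at hc
    have e1 : N ^ 2 ≤ (k ^ 30000) ^ 2 := pow_le_pow_left₀ hN0 hc 2
    rw [← pow_mul] at e1
    rw [hn] at hcon
    exact absurd hcon (not_lt.2 e1)
  have hNK : 10 ^ 4 * K ^ 2 < N := by
    have e1 := fin_pow 1 (by norm_num) hk1 hN (c := 4) (by linarith)
    rw [pow_one] at e1
    linarith
  obtain ⟨L, a, b, Λ, A₀, hL, hΛne, hab, htri, hΛN, hΛ0, hΛr, hA₀r, hA₀ne, hA₀N, hdeg, hpr⟩ :=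
    fin_first h1 h2 h3 h4 hH hlt hφ hcol hK hNt hNdef hn hkα hNK
  exact fin_second h5 h6 h7 h8 hH hK (fun t => by rw [← hNdef]; exact hNt t) hn hk28 hkK hN hL
    hΛne hab htri hΛN hΛ0 hΛr hA₀r hA₀ne hA₀N hdeg hpr

end Pool.Agent.DSG
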