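import Pool.Agent.DSG.Stmts

/-!
# DSG FLD: the subfield (helper88)
-/

set_option autoImplicit false

namespace Pool.Agent.DSG

open Finset
open scoped BigOperators Pointwise

private theorem fld_mono {F : Type} [DivisionRing F] [DecidableEq F] {A : Finset F} {k k' : ℝ}
    {ξ : F} (h : k ≤ k') (hp : PrA A k ξ) : PrA A k' ξ :=
  le_trans hp (mul_le_mul_of_nonneg_right h (Nat.cast_nonneg _))

/-- the general form, with exponents as variables -/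
private theorem fld_main (h1 : St_CAL) (h2 : St_NUM) (F : Type) [DivisionRing F] [DecidableEq F]
    (A : Finset F) (k : ℝ) (Λ : Finset F) (n1 n2 n3 n4 : ℕ) (e1 : 7 * 8 = n1) (e2 : n1 * 8 = n2)
    (e3 : n2 * 8 = n3) (e4 : n3 * 7 = n4) (hA : A.Nonempty) (hk : 1 ≤ k) (hΛ0 : (0 : F) ∈ Λ)
    (hΛ1 : (1 : F) ∈ Λ) (hΛ : ∀ ξ ∈ Λ, PrA A k ξ) (hb : 2 * k ^ n4 ≤ A.card)
    (hc : 2 * k ^ n4 * A.card + 1 < (Λ.card : ℝ) ^ 2) :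
    ∃ K₀ : Subfield F, (K₀ : Set F).Finite ∧ (Nat.card K₀ : ℝ) ≤ 2 * k ^ n1 * A.card + 1 ∧
      (∀ ξ ∈ Λ, ξ ∈ K₀) ∧ ∀ ξ ∈ K₀, PrA A (k ^ n1) ξ := by
  classical
  have hmono : ∀ {a b : ℕ}, a ≤ b → k ^ a ≤ k ^ b := fun h => pow_le_pow_right₀ hk h
  have hone : ∀ m : ℕ, (1 : ℝ) ≤ k ^ m := fun m => one_le_pow₀ hk
  have hq1 : ∀ m : ℕ, 1 ≤ m → PrA A (k ^ m) 1 := fun m hm =>
    fld_mono (by simpa using hmono hm) (hΛ 1 hΛ1)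
  have hΛm : ∀ m : ℕ, 1 ≤ m → ∀ ξ ∈ Λ, PrA A (k ^ m) ξ := fun m hm ξ hξ =>
    fld_mono (by simpa using hmono hm) (hΛ ξ hξ)
  have hcal : ∀ m : ℕ, 1 ≤ m → ∀ ξ ζ : F, PrA A (k ^ m) ξ → PrA A (k ^ m) ζ →
      PrA A (k ^ (m * 7)) (ξ + ζ) ∧ PrA A (k ^ (m * 7)) (ξ - ζ) ∧ PrA A (k ^ (m * 8)) (ξ * ζ) ∧
        (ξ ≠ 0 → PrA A (k ^ m) ξ⁻¹) := by
    intro m hm ξ ζ hξ hζ
    have h := h1 F A (k ^ m) hA (hone m) (hq1 m hm) ξ ζ hξ hζ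
    rw [← pow_mul, ← pow_mul] at h
    exact h
  obtain ⟨D, hD⟩ : ∃ D : Finset F, D = (((Λ ×ˢ Λ) ×ˢ (Λ ×ˢ Λ)).filter
      (fun p => p.1.2 ≠ p.2.2)).image fun p => (p.1.2 - p.2.2)⁻¹ * (p.2.1 - p.1.1) := ⟨_, rfl⟩
  have hmem : ∀ ξ : F, ξ ∈ D ↔ ∃ l1 ∈ Λ, ∃ l2 ∈ Λ, ∃ l3 ∈ Λ, ∃ l4 ∈ Λ, l2 ≠ l4 ∧
      (l2 - l4)⁻¹ * (l3 - l1) = ξ := by
    intro ξ
    rw [hD, mem_image]
    constructor
    · rintro ⟨⟨⟨l1, l2⟩, ⟨l3, l4⟩⟩, hp, rfl⟩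
      rw [mem_filter, mem_product, mem_product, mem_product] at hp
      exact ⟨l1, hp.1.1.1, l2, hp.1.1.2, l3, hp.1.2.1, l4, hp.1.2.2, hp.2, rfl⟩
    · rintro ⟨l1, m1, l2, m2, l3, m3, l4, m4, hne, rfl⟩
      refine ⟨((l1, l2), (l3, l4)), ?_, rfl⟩
      rw [mem_filter, mem_product, mem_product, mem_product]
      exact ⟨⟨⟨m1, m2⟩, ⟨m3, m4⟩⟩, hne⟩
  -- every element of `D` is good
  have hgood : ∀ ξ ∈ D, PrA A (k ^ n1) ξ := by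
    intro ξ hξ
    obtain ⟨l1, m1, l2, m2, l3, m3, l4, m4, hne, rfl⟩ := (hmem ξ).1 hξ
    have a1 := (hcal 1 le_rfl l2 l4 (hΛm 1 le_rfl l2 m2) (hΛm 1 le_rfl l4 m4)).2.1
    have a2 := (hcal 1 le_rfl l3 l1 (hΛm 1 le_rfl l3 m3) (hΛm 1 le_rfl l1 m1)).2.1
    rw [one_mul] at a1 a2
    have a3 := (hcal 7 (by norm_num) _ _ a1 a1).2.2.2 (sub_ne_zero.2 hne)
    have a4 := (hcal 7 (by norm_num) _ _ a3 a2).2.2.1
    rwa [e1] at a4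
  -- the converse
  have hconv : ∀ ξ : F, PrA A (k ^ n2) ξ → ξ ∈ D := by
    intro ξ hξ
    by_contra hcon
    have hinj : Set.InjOn (fun p : F × F => p.1 + p.2 * ξ) ((Λ ×ˢ Λ : Finset (F × F)) : Set (F × F)) := by
      rintro ⟨l1, l2⟩ hp ⟨l3, l4⟩ hp' h
      rw [mem_coe, mem_product] at hp hp'
      simp only at h
      by_cases h24 : l2 = l4
      · rw [h24] at h
        rw [h24, add_right_cancel h]
      · exfalso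
        apply hcon
        rw [hmem]
        refine ⟨l1, hp.1, l2, hp.2, l3, hp'.1, l4, hp'.2, h24, ?_⟩
        have h5 : (l2 - l4) * ξ = l3 - l1 := by
          rw [sub_mul, sub_eq_sub_iff_add_eq_add, add_comm, h]
        rw [← h5, ← mul_assoc, inv_mul_cancel₀ (sub_ne_zero.2 h24), one_mul]
    have hall : ∀ ζ ∈ (Λ ×ˢ Λ).image (fun p : F × F => p.1 + p.2 * ξ), PrA A (k ^ n4) ζ := by
      intro ζ hζ
      obtain ⟨⟨l1, l2⟩, hp, rfl⟩ := mem_image.1 hζ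
      rw [mem_product] at hp
      have b1 := (hcal n2 (by omega) l2 ξ (hΛm n2 (by omega) l2 hp.2) hξ).2.2.1
      rw [e3] at b1
      have b2 := (hcal n3 (by omega) l1 _ (hΛm n3 (by omega) l1 hp.1) b1).1
      rwa [e4] at b2
    have hnum := h2 F A (k ^ n4) _ (hone n4) hb hall
    rw [card_image_of_injOn hinj, card_product] at hnum
    push_cast at hnum
    rw [← sq] at hnum
    linarith
  have h01 : (1 : F) ≠ 0 := one_ne_zero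
  have hΛD : ∀ ξ ∈ Λ, ξ ∈ D := by
    intro ξ hξ
    rw [hmem]
    exact ⟨0, hΛ0, 1, hΛ1, ξ, hξ, 0, hΛ0, h01, by rw [sub_zero, inv_one, one_mul, sub_zero]⟩
  have hm2 : ∀ {a : ℕ}, a ≤ n2 → ∀ {ξ : F}, PrA A (k ^ a) ξ → ξ ∈ D := fun h _ hp =>
    hconv _ (fld_mono (hmono h) hp)
  have hn1 : 1 ≤ n1 := by omega
  have hsub : ∀ ξ ∈ D, ∀ ζ ∈ D, ξ - ζ ∈ D := fun ξ hξ ζ hζ =>
    hm2 (by omega) (hcal n1 hn1 ξ ζ (hgood ξ hξ) (hgood ζ hζ)).2.1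
  let K₀ : Subfield F :=
    { carrier := (D : Set F)
      mul_mem' := fun {ξ ζ} hξ hζ =>
        hm2 (by omega) (hcal n1 hn1 ξ ζ (hgood ξ hξ) (hgood ζ hζ)).2.2.1
      one_mem' := hΛD 1 hΛ1
      add_mem' := fun {ξ ζ} hξ hζ =>
        hm2 (by omega) (hcal n1 hn1 ξ ζ (hgood ξ hξ) (hgood ζ hζ)).1
      zero_mem' := hΛD 0 hΛ0
      neg_mem' := fun {ξ} hξ => by
        have h := hsub 0 (hΛD 0 hΛ0) ξ hξ
        rwa [zero_sub] at h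
      inv_mem' := fun ξ hξ => by
        by_cases h0 : ξ = 0
        · rw [h0, inv_zero]
          exact hΛD 0 hΛ0
        · exact hm2 (by omega) ((hcal n1 hn1 ξ ξ (hgood ξ hξ) (hgood ξ hξ)).2.2.2 h0) }
  have hcoe : (K₀ : Set F) = (D : Set F) := rfl
  refine ⟨K₀, ?_, ?_, fun ξ hξ => hΛD ξ hξ, fun ξ hξ => hgood ξ hξ⟩
  · rw [hcoe]
    exact D.finite_toSet
  · have hcard : Nat.card K₀ = D.card := by
      have h5 : Nat.card K₀ = Nat.card (D : Set F) := rfl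
      rw [h5, Nat.card_coe_set_eq, Set.ncard_coe_finset]
    rw [hcard]
    refine h2 F A (k ^ n1) D (hone n1) ?_ hgood
    have h6 := hmono (show n1 ≤ n4 by omega)
    linarith

theorem thm_FLD (h1 : St_CAL) (h2 : St_NUM) : St_FLD := by
  intro F _ _ A k Λ hA hk hΛ0 hΛ1 hΛ hb hc
  exact fld_main h1 h2 F A k Λ 56 448 3584 25088 rfl rfl rfl rfl hA hk hΛ0 hΛ1 hΛ hb hc

end Pool.Agent.DSG
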