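import Pool.Agent.DSG.Stmts

/-!
Module GRD of project DSG: dense grids which few lines of many slopes cover.
-/

set_option autoImplicit false

namespace Pool.Agent.DSG

open Finset
open scoped BigOperators Pointwise

/-- counting the paths of length three between two classes of a bipartite graph -/
private theorem grd_paths (F : Type) [DivisionRing F] [DecidableEq F] (G : Finset (F × F))
    (A B A' B' : Finset F) (η : F) (hη : η ≠ 0) (m : ℝ)
    (hm : ∀ a ∈ A', ∀ b ∈ B', m ≤
      (((A ×ˢ B).filter fun q => (a, q.2) ∈ G ∧ (q.1, q.2) ∈ G ∧ (q.1, b) ∈ G).card : ℝ)) :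
    ((A'.image (fun a => a * η) - B').card : ℝ) * m ≤
      ((G.image fun p => p.1 * η - p.2).card : ℝ) ^ 3 := by
  generalize hC : (G.image fun p => p.1 * η - p.2) = C
  generalize hZ : A'.image (fun a => a * η) - B' = Z
  have h1 : ∀ z ∈ Z, m ≤
      (((C ×ˢ (C ×ˢ C)).filter fun t => t.1 - t.2.1 + t.2.2 = z).card : ℝ) := by
    intro z hz
    rw [← hZ, Finset.mem_sub] at hz
    obtain ⟨x, hx, b, hb, hxb⟩ := hz
    obtain ⟨a, ha, hax⟩ := Finset.mem_image.1 hx
    refine (hm a ha b hb).trans ?_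
    norm_cast
    refine Finset.card_le_card_of_injOn
      (fun q => (a * η - q.2, (q.1 * η - q.2, q.1 * η - b))) ?_ ?_
    · intro q hq
      have hq' := (Finset.mem_filter.1 (Finset.mem_coe.1 hq)).2
      obtain ⟨hq1, hq2, hq3⟩ := hq'
      refine Finset.mem_coe.2 (Finset.mem_filter.2 ⟨?_, ?_⟩)
      · rw [← hC]
        refine Finset.mem_product.2 ⟨?_, Finset.mem_product.2 ⟨?_, ?_⟩⟩
        · exact Finset.mem_image.2 ⟨_, hq1, rfl⟩
        · exact Finset.mem_image.2 ⟨_, hq2, rfl⟩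
        · exact Finset.mem_image.2 ⟨_, hq3, rfl⟩
      · show a * η - q.2 - (q.1 * η - q.2) + (q.1 * η - b) = z
        rw [← hxb, ← hax]
        abel
    · intro q _ q' _ hqq
      have e1 : a * η - q.2 = a * η - q'.2 := congrArg Prod.fst hqq
      have e2 : q.1 * η - b = q'.1 * η - b := congrArg (fun t => t.2.2) hqq
      have e3 : q.2 = q'.2 := sub_right_injective e1
      have e4 : q.1 * η = q'.1 * η := sub_left_injective e2
      have e5 : q.1 = q'.1 := mul_right_cancel₀ hη e4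
      exact Prod.ext e5 e3
  have h2 : (Z.card : ℝ) * m ≤
      ∑ z ∈ Z, (((C ×ˢ (C ×ˢ C)).filter fun t => t.1 - t.2.1 + t.2.2 = z).card : ℝ) := by
    rw [← nsmul_eq_mul]
    exact Finset.card_nsmul_le_sum Z _ m h1
  refine h2.trans ?_
  have h3 := Finset.sum_card_fiberwise_eq_card_filter (C ×ˢ (C ×ˢ C)) Z
    (fun t => t.1 - t.2.1 + t.2.2)
  have h4 : ((C ×ˢ (C ×ˢ C)).filter fun t => t.1 - t.2.1 + t.2.2 ∈ Z).card ≤ C.card ^ 3 := by
    refine (Finset.card_filter_le _ _).trans (le_of_eq ?_)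
    rw [Finset.card_product, Finset.card_product]
    ring
  have h5 := h3.le.trans h4
  exact_mod_cast h5

theorem thm_GRD (h : St_BSG) : St_GRD := by
  intro F _ _ G Λ r α hα hr hA hB hG hΛ
  set A : Finset F := G.image Prod.fst with hAdef
  set B : Finset F := G.image Prod.snd with hBdef
  have hGAB : G ⊆ A ×ˢ B := by
    intro p hp
    exact Finset.mem_product.2 ⟨Finset.mem_image.2 ⟨p, hp, rfl⟩, Finset.mem_image.2 ⟨p, hp, rfl⟩⟩
  have hGc : (G.card : ℝ) ≤ (A.card : ℝ) * B.card := by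
    have := Finset.card_le_card hGAB
    rw [Finset.card_product] at this
    exact_mod_cast this
  have hr2 : 0 < α * r ^ 2 := by positivity
  have hGpos : (0 : ℝ) < G.card := hr2.trans_le hG
  have hGne : G.Nonempty := by
    rw [← Finset.card_pos]
    exact_mod_cast hGpos
  have hAne : A.Nonempty := hGne.image _
  have hBne : B.Nonempty := hGne.image _
  have hAr : α * r ≤ A.card := by
    have h1 : α * r ^ 2 ≤ (A.card : ℝ) * r :=
      (hG.trans hGc).trans (mul_le_mul_of_nonneg_left hB (Nat.cast_nonneg _))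
    nlinarith [h1, hr]
  have hBr : α * r ≤ B.card := by
    have h1 : α * r ^ 2 ≤ r * (B.card : ℝ) :=
      (hG.trans hGc).trans (mul_le_mul_of_nonneg_right hA (Nat.cast_nonneg _))
    nlinarith [h1, hr]
  have hABG : α * ((A.card : ℝ) * B.card) ≤ G.card := by
    refine le_trans ?_ hG
    refine mul_le_mul_of_nonneg_left ?_ hα.le
    rw [sq]
    exact mul_le_mul hA hB (Nat.cast_nonneg _) hr.le
  obtain ⟨A', hA'A, B', hB'B, hA', hB', hdeg, hpath⟩ := h F F A B G α hα hGAB hAne hBne hABG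
  have hA'r : α ^ 2 * r ≤ 6 * (A'.card : ℝ) := by
    have : α * (α * r) ≤ α * A.card := mul_le_mul_of_nonneg_left hAr hα.le
    nlinarith
  have hB'r : α ^ 2 * r ≤ 4 * (B'.card : ℝ) := by
    have : α * (α * r) ≤ α * B.card := mul_le_mul_of_nonneg_left hBr hα.le
    nlinarith
  have hA'pos : (0 : ℝ) < A'.card := by
    have : 0 < α ^ 2 * r := by positivity
    linarith
  refine ⟨A', hA'A, ?_, hA'r, ?_, ?_⟩
  · rw [← Finset.card_pos]
    exact_mod_cast hA'pos
  · intro a ha
    have h1 := hdeg a ha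
    have h2 : α * (α * r) ≤ α * B.card := mul_le_mul_of_nonneg_left hBr hα.le
    have h3 : ((B.filter fun b => (a, b) ∈ G).card : ℝ) ≤
        ((G.filter fun p => p.1 = a).card : ℝ) := by
      norm_cast
      refine Finset.card_le_card_of_injOn (fun b => (a, b)) ?_ ?_
      · intro b hb
        have hb' := (Finset.mem_filter.1 (Finset.mem_coe.1 hb)).2
        exact Finset.mem_coe.2 (Finset.mem_filter.2 ⟨hb', rfl⟩)
      · intro b _ b' _ hbb
        exact congrArg Prod.snd hbb
    nlinarith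
  · -- the differences of slopes
    have hZ : ∀ η ∈ Λ, α ^ 6 * ((A'.image (fun a => a * η) - B').card : ℝ) ≤ 3072 * r := by
      intro η hη
      obtain ⟨hη0, hηr⟩ := hΛ η hη
      have h1 := grd_paths F G A B A' B' η hη0 (α ^ 5 * ((A.card : ℝ) * B.card) / 3072)
        (fun a ha b hb => by
          rw [div_le_iff₀ (by norm_num)]
          have := hpath a ha b hb
          linarith)
      have h2 : ((G.image fun p => p.1 * η - p.2).card : ℝ) ^ 3 ≤ r ^ 3 :=
        pow_le_pow_left₀ (Nat.cast_nonneg _) hηr 3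
      have h3 := h1.trans h2
      have hz0 : (0 : ℝ) ≤ ((A'.image (fun a => a * η) - B').card : ℝ) := Nat.cast_nonneg _
      have h4 : α ^ 5 * (α * r ^ 2) ≤ α ^ 5 * ((A.card : ℝ) * B.card) :=
        mul_le_mul_of_nonneg_left (hG.trans hGc) (by positivity)
      have h5 : ((A'.image (fun a => a * η) - B').card : ℝ) * (α ^ 5 * (α * r ^ 2) / 3072) ≤
          r ^ 3 := by
        refine le_trans (mul_le_mul_of_nonneg_left ?_ hz0) h3
        linarith
      have h6 : (α ^ 6 * ((A'.image (fun a => a * η) - B').card : ℝ)) * r ^ 2 ≤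
          (3072 * r) * r ^ 2 := by
        nlinarith [h5]
      exact le_of_mul_le_mul_right h6 (by positivity)
    intro η hη η₀ hη₀
    have hη0 : η₀ ≠ 0 := (hΛ η₀ hη₀).1
    -- Ruzsa
    have hR := Finset.ruzsa_triangle_inequality_sub_sub_sub (A'.image (fun a => a * η₀)) B'
      (A'.image (fun a => a * η))
    have hR' : ((A'.image (fun a => a * η₀) - A'.image (fun a => a * η)).card : ℝ) * B'.card ≤
        ((A'.image (fun a => a * η₀) - B').card : ℝ) *
          ((A'.image (fun a => a * η) - B').card : ℝ) := by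
      exact_mod_cast hR
    have hz1 := hZ η hη
    have hz2 := hZ η₀ hη₀
    -- multiplication by the inverse
    have hcard : (A' - A'.image (fun a => a * (η * η₀⁻¹))).card =
        (A'.image (fun a => a * η₀) - A'.image (fun a => a * η)).card := by
      have : A'.image (fun a => a * η₀) - A'.image (fun a => a * η) =
          (A' - A'.image (fun a => a * (η * η₀⁻¹))).image (fun x => x * η₀) := by
        ext z
        simp only [Finset.mem_sub, Finset.mem_image]
        constructor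
        · rintro ⟨x, ⟨a, ha, rfl⟩, y, ⟨b, hb, rfl⟩, rfl⟩
          refine ⟨a - b * (η * η₀⁻¹), ⟨a, ha, b * (η * η₀⁻¹), ⟨b, hb, rfl⟩, rfl⟩, ?_⟩
          rw [sub_mul, mul_assoc b, mul_assoc η, inv_mul_cancel₀ hη0, mul_one]
        · rintro ⟨x, ⟨a, ha, y, ⟨b, hb, rfl⟩, rfl⟩, rfl⟩
          refine ⟨a * η₀, ⟨a, ha, rfl⟩, b * η, ⟨b, hb, rfl⟩, ?_⟩
          rw [sub_mul, mul_assoc b, mul_assoc η, inv_mul_cancel₀ hη0, mul_one]
      rw [this, Finset.card_image_of_injective _ (mul_left_injective₀ hη0)]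
    unfold PrA
    rw [hcard]
    set X : ℝ := ((A'.image (fun a => a * η₀) - A'.image (fun a => a * η)).card : ℝ) with hX
    set Z₁ : ℝ := ((A'.image (fun a => a * η) - B').card : ℝ) with hZ₁
    set Z₂ : ℝ := ((A'.image (fun a => a * η₀) - B').card : ℝ) with hZ₂
    have hX0 : 0 ≤ X := Nat.cast_nonneg _
    have hZ10 : 0 ≤ Z₁ := Nat.cast_nonneg _
    have hZ20 : 0 ≤ Z₂ := Nat.cast_nonneg _
    have hB0 : (0 : ℝ) ≤ B'.card := Nat.cast_nonneg _
    -- `X α ^ 14 r ≤ 4 * 3072 ^ 2 r ^ 2`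
    have k1 : X * (α ^ 12 * (α ^ 2 * r)) ≤ X * (α ^ 12 * (4 * (B'.card : ℝ))) := by
      refine mul_le_mul_of_nonneg_left ?_ hX0
      exact mul_le_mul_of_nonneg_left hB'r (by positivity)
    have k2 : (α ^ 6 * Z₂) * (α ^ 6 * Z₁) ≤ (3072 * r) * (3072 * r) :=
      mul_le_mul hz2 hz1 (by positivity) (by positivity)
    have k3 : α ^ 12 * (X * (B'.card : ℝ)) ≤ α ^ 12 * (Z₂ * Z₁) :=
      mul_le_mul_of_nonneg_left hR' (by positivity)
    have k4 : (X * α ^ 14) * r ≤ (4 * 3072 ^ 2 * r) * r := by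
      nlinarith [k1, k2, k3]
    have k5 : X * α ^ 14 ≤ 4 * 3072 ^ 2 * r := le_of_mul_le_mul_right k4 hr
    have k6 : X * α ^ 16 ≤ 2 ^ 28 * (A'.card : ℝ) := by
      have k7 : (X * α ^ 14) * α ^ 2 ≤ (4 * 3072 ^ 2 * r) * α ^ 2 :=
        mul_le_mul_of_nonneg_right k5 (by positivity)
      nlinarith [k7, hA'r, hA'pos]
    have hα16 : 0 < α ^ 16 := by positivity
    have k8 : X ≤ 2 ^ 28 * (A'.card : ℝ) / α ^ 16 := by
      rw [le_div_iff₀ hα16]
      exact k6
    refine k8.trans (le_of_eq ?_)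
    rw [inv_pow, div_eq_mul_inv]
    ring

end Pool.Agent.DSG
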