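import Pool.Agent.DSG.Stmts

/-!
# DSG [NUM]: few `ξ` have `|A - A ξ| ≤ k |A|`
-/

set_option autoImplicit false

namespace Pool.Agent.DSG

open Finset
open scoped BigOperators Pointwise

/-- Cauchy-Schwarz: many pairs with the same value -/
private theorem num_cs {ι F : Type} [DecidableEq ι] [DecidableEq F] (P : Finset ι) (f : ι → F)
    (C : Finset F) (hf : ∀ p ∈ P, f p ∈ C) :
    ((P.card : ℝ)) ^ 2 ≤ (C.card : ℝ) *
      (((P ×ˢ P).filter fun t => f t.1 = f t.2).card : ℝ) := by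
  have h1 : P.card = ∑ c ∈ C, (P.filter fun p => f p = c).card :=
    Finset.card_eq_sum_card_fiberwise hf
  have h2 : ((P ×ˢ P).filter fun t => f t.1 = f t.2).card =
      ∑ c ∈ C, (P.filter fun p => f p = c).card ^ 2 := by
    rw [Finset.card_eq_sum_card_fiberwise (f := fun t : ι × ι => f t.1) (t := C)]
    · refine Finset.sum_congr rfl fun c _ => ?_
      rw [pow_two, ← Finset.card_product]
      congr 1
      ext t
      simp only [mem_filter, mem_product]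
      constructor
      · rintro ⟨⟨⟨ha, hb⟩, hab⟩, hc⟩
        exact ⟨⟨ha, hc⟩, hb, hab ▸ hc⟩
      · rintro ⟨⟨ha, hc⟩, hb, hc'⟩
        exact ⟨⟨⟨ha, hb⟩, hc.trans hc'.symm⟩, hc⟩
    · intro t ht
      rw [Finset.mem_coe, mem_filter, mem_product] at ht
      exact hf _ ht.1.1
  have h3 := sq_sum_le_card_mul_sum_sq (s := C)
    (f := fun c => ((P.filter fun p => f p = c).card : ℝ))
  have h4 : (P.card : ℝ) = ∑ c ∈ C, ((P.filter fun p => f p = c).card : ℝ) := by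
    rw [h1]
    push_cast
    rfl
  have h5 : ((((P ×ˢ P).filter fun t => f t.1 = f t.2).card : ℕ) : ℝ) =
      ∑ c ∈ C, ((P.filter fun p => f p = c).card : ℝ) ^ 2 := by
    rw [h2]
    push_cast
    rfl
  rw [h4, h5]
  exact h3

/-- [NUM] -/
theorem thm_NUM : St_NUM := by
  classical
  intro F _ _ A k Λ hk hA hΛ
  have hN : (0 : ℝ) < A.card := by linarith
  have hk0 : 0 < k := by linarith
  set P : Finset (F × F) := A ×ˢ A with hP
  have hPc : (P.card : ℝ) = (A.card : ℝ) ^ 2 := by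
    rw [hP, Finset.card_product]
    push_cast
    ring
  -- the quadruples of `ξ`
  set E : F → Finset ((F × F) × (F × F)) := fun ξ =>
    (P ×ˢ P).filter fun t => t.1.1 - t.1.2 * ξ = t.2.1 - t.2.2 * ξ with hE
  have hlow : ∀ ξ ∈ Λ, (A.card : ℝ) ^ 3 ≤ k * (E ξ).card := by
    intro ξ hξ
    have h1 := num_cs P (fun p : F × F => p.1 - p.2 * ξ) (A - A.image fun a => a * ξ) (by
      rintro ⟨a, b⟩ hp
      rw [hP, mem_product] at hp
      exact Finset.sub_mem_sub hp.1 (mem_image_of_mem _ hp.2))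
    rw [hPc] at h1
    have h2 : ((A - A.image fun a => a * ξ).card : ℝ) ≤ k * A.card := hΛ ξ hξ
    have h3 : ((A.card : ℝ) ^ 2) ^ 2 ≤ k * A.card * ((E ξ).card : ℝ) :=
      h1.trans (mul_le_mul_of_nonneg_right h2 (Nat.cast_nonneg _))
    have h4 : (A.card : ℝ) * (A.card : ℝ) ^ 3 ≤ (A.card : ℝ) * (k * ((E ξ).card : ℝ)) := by
      calc (A.card : ℝ) * (A.card : ℝ) ^ 3 = ((A.card : ℝ) ^ 2) ^ 2 := by ring
        _ ≤ k * A.card * ((E ξ).card : ℝ) := h3
        _ = (A.card : ℝ) * (k * ((E ξ).card : ℝ)) := by ring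
    exact le_of_mul_le_mul_left h4 hN
  -- the quadruples with different pairs
  set O : F → Finset ((F × F) × (F × F)) := fun ξ => (E ξ).filter fun t => t.1 ≠ t.2 with hO
  have hup : ∀ ξ, (E ξ).card ≤ P.card + (O ξ).card := by
    intro ξ
    rw [← Finset.card_filter_add_card_filter_not (s := E ξ) (p := fun t => t.1 = t.2)]
    refine Nat.add_le_add ?_ le_rfl
    refine Finset.card_le_card_of_injOn (fun t => t.1) ?_ ?_
    · intro t ht
      rw [Finset.mem_coe, mem_filter, hE, mem_filter, mem_product] at ht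
      exact ht.1.1.1
    · rintro ⟨p, q⟩ hp ⟨p', q'⟩ hp' h
      rw [Finset.mem_coe, mem_filter] at hp hp'
      have h1 : p = q := hp.2
      have h2 : p' = q' := hp'.2
      have h3 : p = p' := h
      rw [← h1, ← h2, h3]
  have hdisj : (Λ : Set F).PairwiseDisjoint O := by
    intro ξ _ ζ _ hne
    rw [Function.onFun, Finset.disjoint_left]
    rintro ⟨⟨a₁, a₃⟩, ⟨a₂, a₄⟩⟩ h h'
    rw [hO, mem_filter, hE, mem_filter] at h h'
    have h1 : a₁ - a₃ * ξ = a₂ - a₄ * ξ := h.1.2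
    have h2 : a₁ - a₃ * ζ = a₂ - a₄ * ζ := h'.1.2
    have hgen : ∀ ν : F, a₁ - a₃ * ν = a₂ - a₄ * ν → (a₃ - a₄) * ν = a₁ - a₂ := by
      intro ν hν
      have e : a₃ * ν - a₄ * ν = (a₁ - a₂) - ((a₁ - a₃ * ν) - (a₂ - a₄ * ν)) := by abel
      rw [sub_mul, e, hν, sub_self, sub_zero]
    have h3 := hgen ξ h1
    have h4 := hgen ζ h2
    have h5 : a₃ ≠ a₄ := by
      intro he
      apply h.2
      rw [he, sub_self, zero_mul] at h3
      have : a₁ = a₂ := (sub_eq_zero.1 h3.symm)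
      rw [he, this]
    exact hne (mul_left_cancel₀ (sub_ne_zero.2 h5) (h3.trans h4.symm))
  have hsum : ∑ ξ ∈ Λ, (O ξ).card ≤ (P ×ˢ P).card := by
    rw [← Finset.card_biUnion hdisj]
    refine Finset.card_le_card ?_
    intro t ht
    rw [mem_biUnion] at ht
    obtain ⟨ξ, -, ht⟩ := ht
    rw [hO, mem_filter, hE, mem_filter] at ht
    exact ht.1.1
  have hsumR : ∑ ξ ∈ Λ, ((O ξ).card : ℝ) ≤ (A.card : ℝ) ^ 4 := by
    have h1 : ((∑ ξ ∈ Λ, (O ξ).card : ℕ) : ℝ) ≤ (((P ×ˢ P).card : ℕ) : ℝ) := by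
      exact_mod_cast hsum
    rw [Finset.card_product] at h1
    push_cast at h1
    rw [hPc] at h1
    calc ∑ ξ ∈ Λ, ((O ξ).card : ℝ) ≤ (A.card : ℝ) ^ 2 * (A.card : ℝ) ^ 2 := h1
      _ = (A.card : ℝ) ^ 4 := by ring
  have h1 : (Λ.card : ℝ) * (A.card : ℝ) ^ 3 ≤
      k * ((Λ.card : ℝ) * (A.card : ℝ) ^ 2 + (A.card : ℝ) ^ 4) := by
    calc (Λ.card : ℝ) * (A.card : ℝ) ^ 3 = ∑ ξ ∈ Λ, (A.card : ℝ) ^ 3 := by
          rw [Finset.sum_const, nsmul_eq_mul]
      _ ≤ ∑ ξ ∈ Λ, k * ((E ξ).card : ℝ) := Finset.sum_le_sum hlow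
      _ ≤ ∑ ξ ∈ Λ, k * ((A.card : ℝ) ^ 2 + ((O ξ).card : ℝ)) := by
          refine Finset.sum_le_sum fun ξ _ => mul_le_mul_of_nonneg_left ?_ hk0.le
          have := hup ξ
          rw [← hPc]
          exact_mod_cast this
      _ = k * ((Λ.card : ℝ) * (A.card : ℝ) ^ 2 + ∑ ξ ∈ Λ, ((O ξ).card : ℝ)) := by
          rw [← Finset.mul_sum, Finset.sum_add_distrib, Finset.sum_const, nsmul_eq_mul]
      _ ≤ k * ((Λ.card : ℝ) * (A.card : ℝ) ^ 2 + (A.card : ℝ) ^ 4) :=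
          mul_le_mul_of_nonneg_left (by linarith) hk0.le
  -- `2 k |A| ^ 2 ≤ |A| ^ 3`
  have h2 : 2 * k * (A.card : ℝ) ^ 2 ≤ (A.card : ℝ) ^ 3 := by
    calc 2 * k * (A.card : ℝ) ^ 2 ≤ A.card * (A.card : ℝ) ^ 2 :=
          mul_le_mul_of_nonneg_right hA (by positivity)
      _ = (A.card : ℝ) ^ 3 := by ring
  have h3 : (Λ.card : ℝ) * (2 * k * (A.card : ℝ) ^ 2) ≤ Λ.card * (A.card : ℝ) ^ 3 :=
    mul_le_mul_of_nonneg_left h2 (Nat.cast_nonneg _)
  have h4 : (Λ.card : ℝ) * (A.card : ℝ) ^ 3 ≤ 2 * k * A.card * (A.card : ℝ) ^ 3 := by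
    nlinarith
  have h5 : (Λ.card : ℝ) ≤ 2 * k * A.card :=
    le_of_mul_le_mul_right h4 (by positivity)
  linarith

end Pool.Agent.DSG
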