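import Pool.Agent.DSG.Stmts

/-!
# DSG/PEN (helper52): the number of values of a coordinate of a pencil
-/

set_option autoImplicit false

namespace Pool.Agent.DSG

open Finset

theorem thm_PEN : St_PEN := by
  intro F _ V _ _ H L w f hH hL hw hf
  classical
  -- for every value a point
  have hpt : ∀ c ∈ (univ \ L).image f, ∃ p : V, p ∉ L ∧ f p = c ∧ ∃ e ∈ H, w ∈ e ∧ p ∈ e := by
    intro c hc
    obtain ⟨p, hp, hpc⟩ := Finset.mem_image.1 hc
    have hpL : p ∉ L := (Finset.mem_sdiff.1 hp).2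
    have hne : w ≠ p := fun h => hpL (h ▸ hw)
    obtain ⟨e, ⟨heH, hse⟩, -⟩ := hH.2 {w, p} (Finset.card_pair hne)
    exact ⟨p, hpL, hpc, e, heH, hse (by simp), hse (by simp)⟩
  have : Nonempty V := ⟨w⟩
  choose! P hPL hPf E hEH hwE hPE using hpt
  unfold dg
  refine Finset.card_le_card_of_injOn E ?_ ?_
  · intro c hc
    have hc' : c ∈ (univ \ L).image f := hc
    exact Finset.mem_coe.2 (Finset.mem_filter.2 ⟨hEH c hc', hwE c hc'⟩)
  · intro c hc d hd hcd
    have hc' : c ∈ (univ \ L).image f := hc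
    have hd' : d ∈ (univ \ L).image f := hd
    by_contra hne
    have hPne : P c ≠ P d := by
      intro h
      apply hne
      rw [← hPf c hc', ← hPf d hd', h]
    have h1 := (hf (P c) (P d) (hPL c hc') (hPL d hd') hPne).1
      ⟨E c, hEH c hc', hwE c hc', hPE c hc', by rw [hcd]; exact hPE d hd'⟩
    rw [hPf c hc', hPf d hd'] at h1
    exact hne h1

end Pool.Agent.DSG
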