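import Pool.Agent.DSG.Stmts

/-!
# DSG, module PLN
-/

set_option autoImplicit false

namespace Pool.Agent.DSG

open Finset
open scoped BigOperators Pointwise

private lemma pln_sm {δ V F : Type} [DecidableEq δ] [DecidableEq V] [DecidableEq F]
    (D : Finset δ) (C : Finset F) (S : Finset V) (f : δ → V → F) (q : ℕ) (hq : 0 < q)
    (hD : D.card = q + 1) (hC : C.card = q)
    (h1 : ∀ d ∈ D, ∀ p ∈ S, f d p ∈ C)
    (h2 : ∀ p ∈ S, ∀ p' ∈ S, p ≠ p' → ∀ d ∈ D, ∀ d' ∈ D, f d p = f d p' → f d' p = f d' p' →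
      d = d') :
    ∑ l ∈ D ×ˢ C, (((S.filter fun p => f l.1 p = l.2).card : ℝ) - S.card / q) ^ 2
      ≤ S.card * q := by
  have hqR : (0 : ℝ) < q := by exact_mod_cast hq
  have hA : ∑ l ∈ D ×ˢ C, ((S.filter fun p => f l.1 p = l.2).card : ℝ) = S.card * (q + 1) := by
    rw [Finset.sum_product]
    have : ∀ d ∈ D, ∑ c ∈ C, ((S.filter fun p => f (d, c).1 p = (d, c).2).card : ℝ) = S.card := by
      intro d hd
      have := Finset.card_eq_sum_card_fiberwise (f := f d) (s := S) (t := C)
        (fun p hp => h1 d hd p hp)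
      rw [this]
      push_cast
      rfl
    rw [Finset.sum_congr rfl this, Finset.sum_const, hD]
    simp only [nsmul_eq_mul]
    push_cast
    ring
  have hB : ∑ l ∈ D ×ˢ C, ((S.filter fun p => f l.1 p = l.2).card : ℝ) ^ 2
      ≤ S.card * (q + S.card) := by
    rw [Finset.sum_product]
    have e1 : ∀ d ∈ D, ∑ c ∈ C, ((S.filter fun p => f (d, c).1 p = (d, c).2).card : ℝ) ^ 2
        = ∑ p ∈ S, ((S.filter fun p' => f d p' = f d p).card : ℝ) := by
      intro d hd
      rw [← Finset.sum_fiberwise_of_maps_to (g := f d) (t := C) (fun p hp => h1 d hd p hp)]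
      refine Finset.sum_congr rfl fun c _ => ?_
      have : ∀ p ∈ S.filter (fun p => f d p = c),
          ((S.filter fun p' => f d p' = f d p).card : ℝ) = (S.filter fun p' => f d p' = c).card := by
        intro p hp
        rw [(Finset.mem_filter.1 hp).2]
      rw [Finset.sum_congr rfl this, Finset.sum_const, nsmul_eq_mul, sq]
    rw [Finset.sum_congr rfl e1]
    have e2 : ∑ d ∈ D, ∑ p ∈ S, ((S.filter fun p' => f d p' = f d p).card : ℝ)
        = ∑ p ∈ S, ∑ p' ∈ S, ((D.filter fun d => f d p' = f d p).card : ℝ) := by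
      rw [Finset.sum_comm]
      refine Finset.sum_congr rfl fun p _ => ?_
      simp only [Finset.card_filter]
      push_cast
      rw [Finset.sum_comm]
    rw [e2]
    have e3 : ∀ p ∈ S, ∑ p' ∈ S, ((D.filter fun d => f d p' = f d p).card : ℝ) ≤ q + S.card := by
      intro p hp
      have e4 : ∀ p' ∈ S, ((D.filter fun d => f d p' = f d p).card : ℝ)
          ≤ 1 + (if p' = p then (q : ℝ) else 0) := by
        intro p' hp'
        by_cases h : p' = p
        · subst h
          simp only [Finset.filter_true, if_true]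
          rw [hD]
          push_cast
          linarith
        · rw [if_neg h, add_zero]
          have : (D.filter fun d => f d p' = f d p).card ≤ 1 := by
            rw [Finset.card_le_one]
            intro d hd d' hd'
            rw [Finset.mem_filter] at hd hd'
            exact h2 p' hp' p hp h d hd.1 d' hd'.1 hd.2 hd'.2
          exact_mod_cast this
      refine (Finset.sum_le_sum e4).trans ?_
      rw [Finset.sum_add_distrib, Finset.sum_ite_eq' S p]
      simp [hp, add_comm]
    refine (Finset.sum_le_sum e3).trans ?_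
    rw [Finset.sum_const, nsmul_eq_mul]
  have hcard : ((D ×ˢ C).card : ℝ) = (q + 1) * q := by
    rw [Finset.card_product, hD, hC]
    push_cast
    ring
  have hexp : ∑ l ∈ D ×ˢ C, (((S.filter fun p => f l.1 p = l.2).card : ℝ) - S.card / q) ^ 2
      = ∑ l ∈ D ×ˢ C, ((S.filter fun p => f l.1 p = l.2).card : ℝ) ^ 2
        - 2 * (S.card / q) * ∑ l ∈ D ×ˢ C, ((S.filter fun p => f l.1 p = l.2).card : ℝ)
        + (D ×ˢ C).card * ((S.card : ℝ) / q) ^ 2 := by
    rw [Finset.mul_sum, ← Finset.sum_sub_distrib, ← nsmul_eq_mul, ← Finset.sum_const,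
      ← Finset.sum_add_distrib]
    refine Finset.sum_congr rfl fun l _ => ?_
    ring
  rw [hexp, hA, hcard]
  have hs : (0 : ℝ) ≤ S.card := Nat.cast_nonneg _
  have e5 : (2 : ℝ) * (S.card / q) * (S.card * (q + 1)) = 2 * S.card ^ 2 + 2 * (S.card ^ 2 / q) := by
    field_simp
  have e6 : ((q : ℝ) + 1) * q * ((S.card : ℝ) / q) ^ 2 = S.card ^ 2 + S.card ^ 2 / q := by
    field_simp
  have e7 : (0 : ℝ) ≤ S.card ^ 2 / q := by positivity
  rw [e5, e6]
  nlinarith [hB]

private lemma pln_blk {V : Type} [Fintype V] [DecidableEq V] {H : Finset (Finset V)}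
    (hH : H.IsPairwiseBalancedDesign) {e e' : Finset V} (he : e ∈ H) (he' : e' ∈ H) {p p' : V}
    (hpp : p ≠ p') (h1 : p ∈ e) (h2 : p' ∈ e) (h3 : p ∈ e') (h4 : p' ∈ e') : e = e' := by
  obtain ⟨g, -, hg⟩ := hH.2 {p, p'} (Finset.card_pair hpp)
  have a1 : ({p, p'} : Finset V) ⊆ e := by
    intro z hz
    rw [Finset.mem_insert, Finset.mem_singleton] at hz
    rcases hz with rfl | rfl <;> assumption
  have a2 : ({p, p'} : Finset V) ⊆ e' := by
    intro z hz
    rw [Finset.mem_insert, Finset.mem_singleton] at hz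
    rcases hz with rfl | rfl <;> assumption
  rw [hg e ⟨he, a1⟩, hg e' ⟨he', a2⟩]

private lemma pln_core {δ V F : Type} [DecidableEq δ] [Fintype V] [DecidableEq V] [DecidableEq F]
    (H : Finset (Finset V)) (L : Finset V) (hH : H.IsPairwiseBalancedDesign) (hL : L ∈ H)
    (D : Finset δ) (C : Finset F) (S : Finset V) (f : δ → V → F) (q : ℕ) (hq : 0 < q)
    (hD : D.card = q + 1) (hC : C.card = q) (hSL : ∀ p ∈ S, p ∉ L)
    (h1 : ∀ d ∈ D, ∀ p ∈ S, f d p ∈ C)
    (h2 : ∀ p ∈ S, ∀ p' ∈ S, p ≠ p' → ∀ d ∈ D, ∀ d' ∈ D, f d p = f d p' → f d' p = f d' p' →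
      d = d')
    (h3 : ∀ d ∈ D, ∀ p ∈ S, ∀ p' ∈ S, p ≠ p' → f d p = f d p' → ∀ z, z ∉ L →
      ((∃ e ∈ H, p ∈ e ∧ p' ∈ e ∧ z ∈ e) ↔ f d z = f d p))
    (h4 : ∀ z, z ∉ L → z ∉ S → ∀ d ∈ D, ∀ d' ∈ D, f d z ∈ C → f d' z ∈ C → d = d')
    (hs1 : S.card ≤ q ^ 2) (hs2 : 16 * q ^ 3 ≤ S.card ^ 2) :
    ∃ t : ℕ, (q : ℝ) ^ 2 ≤
      (Nt H t : ℝ) * (8 * Real.sqrt q + 8 * (Fintype.card V : ℝ) / (q : ℝ) ^ 2 + 4) := by
  have hqR : (1 : ℝ) ≤ q := by exact_mod_cast hq
  set r : ℝ := Real.sqrt q with hr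
  have hr1 : 1 ≤ r := by
    rw [hr, Real.le_sqrt' one_pos]; simpa using hqR
  have hrr : r ^ 2 = q := Real.sq_sqrt (by linarith)
  set s : ℝ := (S.card : ℝ) with hs
  have hs0 : 0 ≤ s := Nat.cast_nonneg _
  have hs1R : s ≤ q ^ 2 := by rw [hs]; exact_mod_cast hs1
  have hs2R : 16 * (q : ℝ) ^ 3 ≤ s ^ 2 := by rw [hs]; exact_mod_cast hs2
  have hsq : 4 * r ≤ s / q := by
    rw [le_div_iff₀ (by linarith)]
    have : (4 * r * q) ^ 2 ≤ s ^ 2 := by
      have : (4 * r * q) ^ 2 = 16 * (r ^ 2) * q ^ 2 := by ring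
      rw [this, hrr]
      calc 16 * (q : ℝ) * q ^ 2 = 16 * q ^ 3 := by ring
        _ ≤ s ^ 2 := hs2R
    exact le_of_sq_le_sq this hs0 |> fun h => h
  set n : ℝ := (Fintype.card V : ℝ) with hn
  have hn0 : 0 < n := by
    have : 0 < S.card := by
      by_contra h
      have : S.card = 0 := by omega
      rw [this] at hs2
      have : 0 < q ^ 3 := by positivity
      omega
    have h' : S.card ≤ Fintype.card V := Finset.card_le_univ S
    have : 0 < Fintype.card V := by omega
    rw [hn]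
    exact_mod_cast this
  -- the numbers
  let i : δ × F → ℝ := fun l => ((S.filter fun p => f l.1 p = l.2).card : ℝ)
  have hmom : ∑ l ∈ D ×ˢ C, (i l - s / q) ^ 2 ≤ s * q := pln_sm D C S f q hq hD hC h1 h2
  have hcardN : ((D ×ˢ C).card : ℝ) = (q + 1) * q := by
    rw [Finset.card_product, hD, hC]
    push_cast
    ring
  let Bad := (D ×ˢ C).filter fun l => 4 * (q : ℝ) < (i l - s / q) ^ 2
  let Good := (D ×ˢ C).filter fun l => ¬ 4 * (q : ℝ) < (i l - s / q) ^ 2
  have hBG : (Bad.card : ℝ) + Good.card = (q + 1) * q := by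
    rw [← hcardN]
    have h' : Bad.card + Good.card = (D ×ˢ C).card :=
      Finset.card_filter_add_card_filter_not (s := D ×ˢ C)
        (fun l => 4 * (q : ℝ) < (i l - s / q) ^ 2)
    exact_mod_cast h'
  have hBad : (Bad.card : ℝ) ≤ (q : ℝ) ^ 2 / 4 := by
    have e1 : (Bad.card : ℝ) * (4 * q) ≤ ∑ l ∈ D ×ˢ C, (i l - s / q) ^ 2 := by
      rw [← nsmul_eq_mul, ← Finset.sum_const]
      refine (Finset.sum_le_sum fun l hl => (le_of_lt (Finset.mem_filter.1 hl).2)).trans ?_
      exact Finset.sum_le_sum_of_subset_of_nonneg (Finset.filter_subset _ _)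
        fun _ _ _ => sq_nonneg _
    have e2 : s * q ≤ q ^ 2 * q := by nlinarith
    have e3 : (Bad.card : ℝ) * (4 * q) ≤ q ^ 2 * q := by linarith
    have e4 : (Bad.card : ℝ) * 4 ≤ q ^ 2 := by
      by_contra h
      push Not at h
      nlinarith
    linarith
  -- the blocks
  have hex : ∀ l ∈ Good, ∃ e ∈ H, (∀ z, z ∉ L → (z ∈ e ↔ f l.1 z = l.2)) ∧
      (∃ p ∈ S, ∃ p' ∈ S, p ≠ p' ∧ f l.1 p = l.2 ∧ f l.1 p' = l.2) := by
    intro l hl
    rw [Finset.mem_filter, Finset.mem_product] at hl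
    obtain ⟨⟨hl1, hl2⟩, hl3⟩ := hl
    push Not at hl3
    have hi : 2 * r ≤ i l := by
      have : |i l - s / q| ≤ 2 * r := by
        apply abs_le_of_sq_le_sq _ (by linarith)
        calc (i l - s / q) ^ 2 ≤ 4 * q := hl3
          _ = (2 * r) ^ 2 := by rw [mul_pow, hrr]; ring
      have := (abs_le.1 this).1
      linarith
    have hi2 : 1 < (S.filter fun p => f l.1 p = l.2).card := by
      have : (1 : ℝ) < ((S.filter fun p => f l.1 p = l.2).card : ℝ) := by
        have : (1 : ℝ) < i l := by linarith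
        exact this
      exact_mod_cast this
    obtain ⟨p, hp, p', hp', hpp⟩ := Finset.one_lt_card.1 hi2
    rw [Finset.mem_filter] at hp hp'
    have hpq : f l.1 p = f l.1 p' := by rw [hp.2, hp'.2]
    obtain ⟨e, he, hpe, hpe', -⟩ := (h3 l.1 hl1 p hp.1 p' hp'.1 hpp hpq p (hSL p hp.1)).2 rfl
    refine ⟨e, he, fun z hz => ?_, p, hp.1, p', hp'.1, hpp, hp.2, hp'.2⟩
    have h5 := h3 l.1 hl1 p hp.1 p' hp'.1 hpp hpq z hz
    rw [hp.2] at h5
    rw [← h5]
    constructor
    · intro h
      exact ⟨e, he, hpe, hpe', h⟩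
    · rintro ⟨e', he', a1, a2, a3⟩
      rwa [pln_blk hH he he' hpp hpe hpe' a1 a2]
  choose! E hEH hEz hEp using hex
  have hinj : ∀ l ∈ Good, ∀ l' ∈ Good, E l = E l' → l = l' := by
    intro l hl l' hl' hEE
    obtain ⟨p, hp, p', hp', hpp, a1, a2⟩ := hEp l hl
    have b1 : f l'.1 p = l'.2 := by
      rw [← hEz l' hl' p (hSL p hp), ← hEE, hEz l hl p (hSL p hp)]; exact a1
    have b2 : f l'.1 p' = l'.2 := by
      rw [← hEz l' hl' p' (hSL p' hp'), ← hEE, hEz l hl p' (hSL p' hp')]; exact a2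
    have hl1 := (Finset.mem_product.1 (Finset.mem_filter.1 hl).1).1
    have hl1' := (Finset.mem_product.1 (Finset.mem_filter.1 hl').1).1
    have c1 : l.1 = l'.1 := h2 p hp p' hp' hpp _ hl1 _ hl1' (by rw [a1, a2]) (by rw [b1, b2])
    have c2 : l.2 = l'.2 := by rw [← a1, ← b1, c1]
    exact Prod.ext c1 c2
  let R : Finset V := univ \ (S ∪ L)
  have hEcard : ∀ l ∈ Good, i l ≤ ((E l).card : ℝ) ∧
      ((E l).card : ℝ) ≤ i l + ((R.filter fun z => z ∈ E l).card : ℝ) + 1 := by
    intro l hl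
    have e1 : (S.filter fun p => f l.1 p = l.2) ⊆ E l := by
      intro z hz
      rw [Finset.mem_filter] at hz
      exact (hEz l hl z (hSL z hz.1)).2 hz.2
    have e2 : E l ⊆ (S.filter fun p => f l.1 p = l.2) ∪ (R.filter fun z => z ∈ E l) ∪
        (E l ∩ L) := by
      intro z hz
      rw [Finset.mem_union, Finset.mem_union, Finset.mem_filter, Finset.mem_filter,
        Finset.mem_inter]
      by_cases hzL : z ∈ L
      · exact Or.inr ⟨hz, hzL⟩
      · by_cases hzS : z ∈ S
        · exact Or.inl (Or.inl ⟨hzS, (hEz l hl z hzL).1 hz⟩)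
        · refine Or.inl (Or.inr ⟨?_, hz⟩)
          simp [R, hzL, hzS]
    have e3 : (E l ∩ L).card ≤ 1 := by
      rw [Finset.card_le_one]
      intro x hx y hy
      by_contra hxy
      rw [Finset.mem_inter] at hx hy
      have : E l = L := pln_blk hH (hEH l hl) hL hxy hx.1 hy.1 hx.2 hy.2
      obtain ⟨p, hp, p', hp', hpp, a1, a2⟩ := hEp l hl
      exact hSL p hp (this ▸ (hEz l hl p (hSL p hp)).2 a1)
    refine ⟨Nat.cast_le.2 (Finset.card_le_card e1), ?_⟩
    have e4 := (Finset.card_le_card e2).trans (Finset.card_union_le _ _)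
    have e5 := Finset.card_union_le (S.filter fun p => f l.1 p = l.2) (R.filter fun z => z ∈ E l)
    have : (E l).card ≤ (S.filter fun p => f l.1 p = l.2).card + (R.filter fun z => z ∈ E l).card
        + 1 := by omega
    have h' : ((E l).card : ℝ) ≤ ((S.filter fun p => f l.1 p = l.2).card : ℝ) +
        ((R.filter fun z => z ∈ E l).card : ℝ) + 1 := by exact_mod_cast this
    exact h'
  have hsumR : ∑ l ∈ Good, ((R.filter fun z => z ∈ E l).card : ℝ) ≤ n := by
    have e1 : ∑ l ∈ Good, ((R.filter fun z => z ∈ E l).card : ℝ)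
        = ∑ z ∈ R, ((Good.filter fun l => z ∈ E l).card : ℝ) := by
      simp only [Finset.card_filter]
      push_cast
      rw [Finset.sum_comm]
    rw [e1]
    have e2 : ∀ z ∈ R, ((Good.filter fun l => z ∈ E l).card : ℝ) ≤ 1 := by
      intro z hz
      have hz' : z ∉ S ∧ z ∉ L := by
        simpa [R, not_or] using hz
      have : (Good.filter fun l => z ∈ E l).card ≤ 1 := by
        rw [Finset.card_le_one]
        intro l hl l' hl'
        rw [Finset.mem_filter] at hl hl'
        have hl1 := Finset.mem_product.1 (Finset.mem_filter.1 hl.1).1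
        have hl1' := Finset.mem_product.1 (Finset.mem_filter.1 hl'.1).1
        have a1 := (hEz l hl.1 z hz'.2).1 hl.2
        have a2 := (hEz l' hl'.1 z hz'.2).1 hl'.2
        have c1 : l.1 = l'.1 := h4 z hz'.2 hz'.1 _ hl1.1 _ hl1'.1 (a1 ▸ hl1.2) (a2 ▸ hl1'.2)
        have c2 : l.2 = l'.2 := by rw [← a1, ← a2, c1]
        exact Prod.ext c1 c2
      exact_mod_cast this
    refine (Finset.sum_le_sum e2).trans ?_
    rw [Finset.sum_const, nsmul_eq_mul, mul_one]
    exact Nat.cast_le.2 (Finset.card_le_univ R)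
  let Bad2 := Good.filter fun l => 4 * n / q ^ 2 < ((R.filter fun z => z ∈ E l).card : ℝ)
  let Good2 := Good.filter fun l => ¬ 4 * n / q ^ 2 < ((R.filter fun z => z ∈ E l).card : ℝ)
  have hBG2 : (Bad2.card : ℝ) + Good2.card = Good.card := by
    have h' : Bad2.card + Good2.card = Good.card :=
      Finset.card_filter_add_card_filter_not (s := Good)
        (fun l => 4 * n / q ^ 2 < ((R.filter fun z => z ∈ E l).card : ℝ))
    exact_mod_cast h'
  have hq2 : (0 : ℝ) < q ^ 2 := by positivity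
  have hBad2 : (Bad2.card : ℝ) ≤ (q : ℝ) ^ 2 / 4 := by
    have e1 : (Bad2.card : ℝ) * (4 * n / q ^ 2) ≤ n := by
      rw [← nsmul_eq_mul, ← Finset.sum_const]
      refine (Finset.sum_le_sum fun l hl => (le_of_lt (Finset.mem_filter.1 hl).2)).trans ?_
      refine (Finset.sum_le_sum_of_subset_of_nonneg (Finset.filter_subset _ _)
        fun _ _ _ => Nat.cast_nonneg _).trans hsumR
    have e2 : (Bad2.card : ℝ) * (4 * n / q ^ 2) = ((Bad2.card : ℝ) * 4 / q ^ 2) * n := by
      field_simp
    rw [e2] at e1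
    have e3 : (Bad2.card : ℝ) * 4 / q ^ 2 ≤ 1 := by
      by_contra h
      push Not at h
      nlinarith
    rw [div_le_one hq2] at e3
    linarith
  have hG2 : (q : ℝ) ^ 2 / 2 ≤ Good2.card := by nlinarith
  -- pigeonhole
  set lam : ℝ := 4 * n / q ^ 2 with hlam
  have hlam0 : 0 < lam := by positivity
  let lo : ℕ := ⌈s / q - 2 * r⌉₊
  let hi : ℕ := ⌊s / q + 2 * r + lam + 1⌋₊
  let T : Finset ℕ := Finset.Icc lo hi
  have hmaps : ∀ l ∈ Good2, (E l).card ∈ T := by
    intro l hl
    rw [Finset.mem_filter] at hl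
    obtain ⟨hlG, hl2⟩ := hl
    push Not at hl2
    have hl3 := (Finset.mem_filter.1 hlG).2
    push Not at hl3
    have habs : |i l - s / q| ≤ 2 * r := by
      apply abs_le_of_sq_le_sq _ (by linarith)
      calc (i l - s / q) ^ 2 ≤ 4 * q := hl3
        _ = (2 * r) ^ 2 := by rw [mul_pow, hrr]; ring
    obtain ⟨b1, b2⟩ := abs_le.1 habs
    obtain ⟨b3, b4⟩ := hEcard l hlG
    rw [Finset.mem_Icc]
    constructor
    · apply Nat.ceil_le.2
      linarith
    · apply Nat.le_floor
      linarith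
  have hTcard : (T.card : ℝ) ≤ 4 * r + lam + 2 := by
    have e0 : T.card = hi + 1 - lo := Nat.card_Icc lo hi
    have e1 : (hi : ℝ) ≤ s / q + 2 * r + lam + 1 := Nat.floor_le (by positivity)
    have e2 : s / q - 2 * r ≤ lo := Nat.le_ceil _
    rcases le_total lo (hi + 1) with h | h
    · rw [e0, Nat.cast_sub h]
      push_cast
      linarith
    · rw [e0, Nat.sub_eq_zero_of_le h]
      push_cast
      linarith
  have hG2pos : 0 < Good2.card := by
    have : (0 : ℝ) < Good2.card := by linarith [hG2, hq2]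
    exact_mod_cast this
  have hTne : T.Nonempty := by
    obtain ⟨l, hl⟩ := Finset.card_pos.1 hG2pos
    exact ⟨_, hmaps l hl⟩
  have hTpos : (0 : ℝ) < T.card := by exact_mod_cast Finset.card_pos.2 hTne
  obtain ⟨t, ht, hbt⟩ := Finset.exists_le_card_fiber_of_nsmul_le_card_of_maps_to
    (s := Good2) (t := T) (f := fun l => (E l).card) (b := (Good2.card : ℝ) / T.card) hmaps hTne
    (by rw [nsmul_eq_mul, mul_div_cancel₀ _ hTpos.ne'])
  refine ⟨t, ?_⟩
  have hNt : (Good2.filter fun l => (E l).card = t).card ≤ Nt H t := by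
    apply Finset.card_le_card_of_injOn E
    · intro l hl
      have hl := Finset.mem_filter.1 (Finset.mem_coe.1 hl)
      rw [Finset.mem_coe, Finset.mem_filter]
      exact ⟨hEH l (Finset.mem_filter.1 hl.1).1, hl.2⟩
    · intro l hl l' hl' h
      have hl := Finset.mem_filter.1 (Finset.mem_coe.1 hl)
      have hl' := Finset.mem_filter.1 (Finset.mem_coe.1 hl')
      exact hinj l (Finset.mem_filter.1 hl.1).1 l' (Finset.mem_filter.1 hl'.1).1 h
  have hNtR : (Good2.card : ℝ) / T.card ≤ Nt H t := hbt.trans (by exact_mod_cast hNt)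
  rw [div_le_iff₀ hTpos] at hNtR
  have hNt0 : (0 : ℝ) ≤ Nt H t := Nat.cast_nonneg _
  have hfin : (Good2.card : ℝ) ≤ (Nt H t : ℝ) * (4 * r + lam + 2) :=
    hNtR.trans (mul_le_mul_of_nonneg_left hTcard hNt0)
  have : (8 : ℝ) * n / q ^ 2 = 2 * lam := by rw [hlam]; ring
  rw [this]
  nlinarith

theorem thm_PLN : St_PLN := by
  classical
  intro F _ V _ _ H L a b K₀ x η₀ a₀ b₀ q s hH hL h1 h4 hfin hq hx hη hs hqs
  set U : V → F := fun p => x⁻¹ * (a p - a₀) with hU
  set W : V → F := fun p => x⁻¹ * (b p - b₀) * η₀⁻¹ with hW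
  have : Finite K₀ := hfin.to_subtype
  let : Fintype K₀ := Fintype.ofFinite K₀
  have haU : ∀ p, a p = a₀ + x * U p := by
    intro p
    simp only [hU]
    rw [mul_inv_cancel_left₀ hx]
    abel
  have hbW : ∀ p, b p = b₀ + x * W p * η₀ := by
    intro p
    simp only [hW]
    rw [mul_assoc, mul_assoc (x⁻¹ * (b p - b₀)), inv_mul_cancel₀ hη, mul_one,
      mul_inv_cancel_left₀ hx]
    abel
  let C : Finset F := hfin.toFinset
  have hCm : ∀ y : F, y ∈ C ↔ y ∈ K₀ := fun y => by simp [C]
  let f : Option K₀ → V → F := fun d z => d.elim (U z) (fun ξ => W z - U z * (ξ : F))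
  let S : Finset V := univ.filter fun p => p ∉ L ∧ U p ∈ K₀ ∧ W p ∈ K₀
  have hSm : ∀ p, p ∈ S ↔ p ∉ L ∧ U p ∈ K₀ ∧ W p ∈ K₀ := fun p => by simp [S]
  have hSs : S.card = s := by
    rw [← hs, Nat.card_eq_fintype_card, Fintype.card_subtype]
  have hq0 : 0 < q := by
    rw [← hq]
    exact Nat.card_pos
  have hinj : ∀ p p' : V, p ∉ L → p' ∉ L → U p = U p' → W p = W p' → p = p' := by
    intro p p' hp hp' e1 e2
    exact h1 p p' hp hp' (by rw [haU, haU, e1]) (by rw [hbW, hbW, e2])
  have hD : (univ : Finset (Option K₀)).card = q + 1 := by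
    rw [Finset.card_univ, Fintype.card_option, ← Nat.card_eq_fintype_card, hq]
  have hC : C.card = q := by
    rw [← hq]
    simp only [C]
    rw [← Set.ncard_eq_toFinset_card (K₀ : Set F) hfin]
    rfl
  have hs1 : S.card ≤ q ^ 2 := by
    have : S.card ≤ (C ×ˢ C).card := by
      apply Finset.card_le_card_of_injOn (fun p => (U p, W p))
      · intro p hp
        have hp := (hSm p).1 (Finset.mem_coe.1 hp)
        rw [Finset.mem_coe, Finset.mem_product]
        exact ⟨(hCm _).2 hp.2.1, (hCm _).2 hp.2.2⟩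
      · intro p hp p' hp' h
        have hp := (hSm p).1 (Finset.mem_coe.1 hp)
        have hp' := (hSm p').1 (Finset.mem_coe.1 hp')
        have h := Prod.ext_iff.1 h
        exact hinj p p' hp.1 hp'.1 h.1 h.2
    rw [Finset.card_product, hC] at this
    rw [sq]
    exact this
  refine pln_core H L hH hL (univ : Finset (Option K₀)) C S f q hq0 hD hC
    (fun p hp => ((hSm p).1 hp).1) ?_ ?_ ?_ ?_ hs1 (by rw [hSs]; exact hqs)
  · intro d _ p hp
    have hp := (hSm p).1 hp
    rw [hCm]
    rcases d with _ | ξ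
    · exact hp.2.1
    · exact K₀.sub_mem hp.2.2 (K₀.mul_mem hp.2.1 ξ.2)
  · intro p hp p' hp' hpp d _ d' _ e1 e2
    have hp := (hSm p).1 hp
    have hp' := (hSm p').1 hp'
    rcases d with _ | ξ <;> rcases d' with _ | ξ'
    · rfl
    · exfalso
      have e1 : U p = U p' := e1
      have e2 : W p - U p * (ξ' : F) = W p' - U p' * (ξ' : F) := e2
      rw [e1] at e2
      exact hpp (hinj p p' hp.1 hp'.1 e1 (sub_left_injective e2))
    · exfalso
      have e2 : U p = U p' := e2
      have e1 : W p - U p * (ξ : F) = W p' - U p' * (ξ : F) := e1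
      rw [e2] at e1
      exact hpp (hinj p p' hp.1 hp'.1 e2 (sub_left_injective e1))
    · have e1 : W p - U p * (ξ : F) = W p' - U p' * (ξ : F) := e1
      have e2 : W p - U p * (ξ' : F) = W p' - U p' * (ξ' : F) := e2
      by_contra hne
      have hξ : (ξ : F) ≠ ξ' := fun h => hne (by rw [Subtype.ext h])
      have e3 : (U p - U p') * ((ξ : F) - ξ') = 0 := by
        have : (U p - U p') * ((ξ : F) - ξ') = ((W p - U p * (ξ' : F)) - (W p' - U p' * (ξ' : F)))
            - ((W p - U p * (ξ : F)) - (W p' - U p' * (ξ : F))) := by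
          noncomm_ring
        rw [this, e1, e2, sub_self, sub_self, sub_self]
      rcases mul_eq_zero.1 e3 with h | h
      · have h := sub_eq_zero.1 h
        rw [h] at e1
        exact hpp (hinj p p' hp.1 hp'.1 h (sub_left_injective e1))
      · exact hξ (sub_eq_zero.1 h)
  · intro d _ p hp p' hp' hpp e z hz
    have hp := (hSm p).1 hp
    have hp' := (hSm p').1 hp'
    rw [h4 p p' z hp.1 hp'.1 hz hpp]
    rcases d with _ | ξ
    · have e : U p = U p' := e
      show _ ↔ U z = U p
      have ea : a p = a p' := by rw [haU, haU, e]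
      constructor
      · rintro (⟨-, h⟩ | ⟨μ, h, -⟩)
        · rw [haU z, haU p] at h
          exact mul_left_cancel₀ hx (add_left_cancel h)
        · exfalso
          rw [ea] at h
          exact hpp (h1 p p' hp.1 hp'.1 ea (sub_right_injective h))
      · intro h
        exact Or.inl ⟨ea, by rw [haU z, haU p, h]⟩
    · have e : W p - U p * (ξ : F) = W p' - U p' * (ξ : F) := e
      show _ ↔ W z - U z * (ξ : F) = W p - U p * (ξ : F)
      have hUne : U p ≠ U p' := by
        intro h
        rw [h] at e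
        exact hpp (hinj p p' hp.1 hp'.1 h (sub_left_injective e))
      have key : ∀ y y' : V, (a y * ((ξ : F) * η₀) - b y = a y' * ((ξ : F) * η₀) - b y' ↔
          W y - U y * (ξ : F) = W y' - U y' * (ξ : F)) := by
        intro y y'
        have e1 : ∀ w : V, a w * ((ξ : F) * η₀) - b w
            = (a₀ * ((ξ : F) * η₀) - b₀) - x * (W w - U w * (ξ : F)) * η₀ := by
          intro w
          rw [haU w, hbW w]
          noncomm_ring
        rw [e1 y, e1 y', sub_right_inj]
        constructor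
        · intro h
          exact mul_left_cancel₀ hx (mul_right_cancel₀ hη h)
        · intro h
          rw [h]
      constructor
      · rintro (⟨h, -⟩ | ⟨μ, h, h'⟩)
        · exfalso
          rw [haU p, haU p'] at h
          exact hUne (mul_left_cancel₀ hx (add_left_cancel h))
        · have hμ : μ = (ξ : F) * η₀ := by
            have e2 := (key p p').2 e
            have e3 : (a p - a p') * μ = (a p - a p') * ((ξ : F) * η₀) := by
              have f1 : (a p - a p') * μ = b p - b p' := by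
                rw [sub_mul]
                have := sub_eq_sub_iff_sub_eq_sub.1 h
                exact this
              have f2 : (a p - a p') * ((ξ : F) * η₀) = b p - b p' := by
                rw [sub_mul]
                have := sub_eq_sub_iff_sub_eq_sub.1 e2
                exact this
              rw [f1, f2]
            refine mul_left_cancel₀ (sub_ne_zero.2 ?_) e3
            intro h
            rw [haU p, haU p'] at h
            exact hUne (mul_left_cancel₀ hx (add_left_cancel h))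
          rw [hμ] at h'
          exact (key z p).1 h'
      · intro h
        exact Or.inr ⟨(ξ : F) * η₀, (key p p').2 e, (key z p).2 h⟩
  · intro z hz hzS d _ d' _ e1 e2
    rw [hCm] at e1 e2
    have hno : ¬ (U z ∈ K₀ ∧ W z ∈ K₀) := fun h => hzS ((hSm z).2 ⟨hz, h⟩)
    rcases d with _ | ξ <;> rcases d' with _ | ξ'
    · rfl
    · exfalso
      have e1 : U z ∈ K₀ := e1
      have e2 : W z - U z * (ξ' : F) ∈ K₀ := e2
      refine hno ⟨e1, ?_⟩
      have := K₀.add_mem e2 (K₀.mul_mem e1 ξ'.2)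
      simpa using this
    · exfalso
      have e1 : W z - U z * (ξ : F) ∈ K₀ := e1
      have e2 : U z ∈ K₀ := e2
      refine hno ⟨e2, ?_⟩
      have := K₀.add_mem e1 (K₀.mul_mem e2 ξ.2)
      simpa using this
    · by_contra hne
      have hξ : (ξ : F) ≠ ξ' := fun h => hne (by rw [Subtype.ext h])
      have e1 : W z - U z * (ξ : F) ∈ K₀ := e1
      have e2 : W z - U z * (ξ' : F) ∈ K₀ := e2
      have hd : (ξ : F) - ξ' ≠ 0 := sub_ne_zero.2 hξ
      have e3 : U z * ((ξ : F) - ξ') ∈ K₀ := by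
        have := K₀.sub_mem e2 e1
        have e4 : W z - U z * (ξ' : F) - (W z - U z * (ξ : F)) = U z * ((ξ : F) - ξ') := by
          noncomm_ring
        rwa [e4] at this
      have e5 : U z ∈ K₀ := by
        have := K₀.mul_mem e3 (K₀.inv_mem (K₀.sub_mem ξ.2 ξ'.2))
        rwa [mul_assoc, mul_inv_cancel₀ hd, mul_one] at this
      refine hno ⟨e5, ?_⟩
      have := K₀.add_mem e1 (K₀.mul_mem e5 ξ.2)
      simpa using this

end Pool.Agent.DSG
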