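import Pool.Agent.DSG.Stmts

set_option autoImplicit false

namespace Pool.Agent.DSG

open Finset

private theorem res_aux (n M C₀ K δ : ℝ) (E : ℕ) (hn : 1 ≤ n) (hM : 1 ≤ M) (hC : 1 ≤ C₀)
    (hK : K = max 1 (M / Real.sqrt n)) (hδ : δ = 1 / ((E : ℝ) + 2)) (h : n ≤ C₀ * K ^ E) :
    n ^ (1 / 2 + δ) ≤ C₀ * M := by
  have hn0 : 0 < n := by linarith
  have hE : (0 : ℝ) < (E : ℝ) + 2 := by positivity
  have hδ0 : 0 < δ := by rw [hδ]; positivity
  have hE0 : (0 : ℝ) ≤ (E : ℝ) := Nat.cast_nonneg E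
  have hδ1 : δ ≤ 1 / 2 := by
    rw [hδ]
    apply one_div_le_one_div_of_le <;> linarith
  have hK1 : 1 ≤ K := by rw [hK]; exact le_max_left _ _
  have hK0 : 0 ≤ K := by linarith
  have hs : 0 < Real.sqrt n := Real.sqrt_pos.2 hn0
  rcases le_or_gt (Real.sqrt n) M with h1 | h1
  · have hKM : K = M / Real.sqrt n := by
      rw [hK, max_eq_right]
      rw [le_div_iff₀ hs]
      linarith
    have h2 : n ≤ C₀ * K ^ (E + 2) := by
      refine h.trans (mul_le_mul_of_nonneg_left ?_ (by linarith))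
      exact pow_le_pow_right₀ hK1 (by omega)
    have h3 : n ^ δ ≤ C₀ * K := by
      calc n ^ δ ≤ (C₀ * K ^ (E + 2)) ^ δ := Real.rpow_le_rpow hn0.le h2 hδ0.le
        _ = C₀ ^ δ * (K ^ (E + 2)) ^ δ := Real.mul_rpow (by linarith) (by positivity)
        _ = C₀ ^ δ * K := by
            congr 1
            rw [← Real.rpow_natCast, ← Real.rpow_mul hK0, hδ]
            have : (((E + 2 : ℕ) : ℝ)) * (1 / ((E : ℝ) + 2)) = 1 := by
              push_cast
              field_simp
            rw [this, Real.rpow_one]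
        _ ≤ C₀ * K := by
            refine mul_le_mul_of_nonneg_right ?_ hK0
            calc C₀ ^ δ ≤ C₀ ^ (1 : ℝ) := Real.rpow_le_rpow_of_exponent_le hC (by linarith)
              _ = C₀ := Real.rpow_one _
    calc n ^ (1 / 2 + δ) = n ^ (1 / 2 : ℝ) * n ^ δ := Real.rpow_add hn0 _ _
      _ = Real.sqrt n * n ^ δ := by rw [Real.sqrt_eq_rpow]
      _ ≤ Real.sqrt n * (C₀ * K) := mul_le_mul_of_nonneg_left h3 hs.le
      _ = C₀ * M := by
          rw [hKM]
          field_simp
  · have hK' : K = 1 := by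
      rw [hK, max_eq_left]
      rw [div_le_one hs]
      exact h1.le
    rw [hK', one_pow, mul_one] at h
    calc n ^ (1 / 2 + δ) ≤ n ^ (1 : ℝ) := Real.rpow_le_rpow_of_exponent_le hn (by linarith)
      _ = n := Real.rpow_one _
      _ ≤ C₀ := h
      _ ≤ C₀ * M := le_mul_of_one_le_right (by linarith) hM

theorem thm_RES (h : St_FIN) : St_RES := by
  obtain ⟨C₀, E, hC, hF⟩ := h
  refine ⟨1 / ((E : ℝ) + 2), by positivity, 1 / C₀, by positivity, ?_⟩
  intro F _ n H φ hH hcard hinj hcol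
  rcases Nat.eq_zero_or_pos n with h0 | hn
  · refine ⟨0, ?_⟩
    have h1 : (n : ℝ) ^ (1 / 2 + 1 / ((E : ℝ) + 2)) = 0 := by
      rw [h0, Nat.cast_zero]
      apply Real.zero_rpow
      positivity
    rw [h1, mul_zero]
    exact Nat.cast_nonneg _
  · obtain ⟨t₀, -, hmax⟩ := Finset.exists_max_image (range (n + 1)) (fun t => Nt H t) ⟨0, by simp⟩
    have hall : ∀ t, Nt H t ≤ Nt H t₀ := by
      intro t
      by_cases ht : t < n + 1
      · exact hmax t (mem_range.2 ht)
      · have h2 : Nt H t = 0 := by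
          unfold Nt
          rw [card_eq_zero, filter_eq_empty_iff]
          intro e he hc
          have := hcard e he
          omega
        rw [h2]
        exact Nat.zero_le _
    have hpos : 1 ≤ Nt H t₀ := by
      have hx : Collinear F ({φ ⟨0, hn⟩, φ ⟨0, hn⟩, φ ⟨0, hn⟩} : Set (F × F)) := by
        simp only [Set.insert_eq_of_mem, Set.mem_singleton_iff]
        exact collinear_singleton F _
      obtain ⟨e, he, -⟩ := (hcol ⟨0, hn⟩ ⟨0, hn⟩ ⟨0, hn⟩).2 hx
      refine le_trans ?_ (hall e.card)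
      unfold Nt
      exact card_pos.2 ⟨e, mem_filter.2 ⟨he, rfl⟩⟩
    refine ⟨t₀, ?_⟩
    have hn1 : (1 : ℝ) ≤ n := by exact_mod_cast hn
    have hs : 0 < Real.sqrt (n : ℝ) := Real.sqrt_pos.2 (by linarith)
    have key := hF F (Fin n) H φ (max 1 ((Nt H t₀ : ℝ) / Real.sqrt n)) hH
      (by rw [Fintype.card_fin]; exact hcard) hinj hcol (le_max_left _ _) (by
        intro t
        rw [Fintype.card_fin]
        calc (Nt H t : ℝ) ≤ Nt H t₀ := by exact_mod_cast hall t
          _ = (Nt H t₀ : ℝ) / Real.sqrt n * Real.sqrt n := by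
              field_simp
          _ ≤ max 1 ((Nt H t₀ : ℝ) / Real.sqrt n) * Real.sqrt n :=
              mul_le_mul_of_nonneg_right (le_max_right _ _) hs.le)
    rw [Fintype.card_fin] at key
    have h3 := res_aux n (Nt H t₀) C₀ _ _ E hn1 (by exact_mod_cast hpos) hC rfl rfl key
    have h4 : ((H.filter fun e => e.card = t₀).card : ℝ) = (Nt H t₀ : ℝ) := rfl
    rw [h4, one_div_mul_eq_div, div_le_iff₀ (by linarith)]
    linarith

end Pool.Agent.DSG
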