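import Pool.Agent.DSG.Stmts

/-!
# SPL: many points in an affine plane over `K₀`
-/

set_option autoImplicit false

namespace Pool.Agent.DSG

open Finset
open scoped BigOperators Pointwise

/-- Cauchy-Schwarz: pairs of elements with the same value. -/
theorem spl_pairs {V Y : Type} [DecidableEq V] [DecidableEq Y] (S : Finset V) (f : V → Y) (r : ℝ)
    (h : ((S.image f).card : ℝ) ≤ r) :
    (S.card : ℝ) ^ 2 ≤ r * (((S ×ˢ S).filter fun z => f z.1 = f z.2).card : ℝ) := by
  have h1 : S.card = ∑ y ∈ S.image f, (S.filter fun p => f p = y).card :=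
    card_eq_sum_card_image f S
  have h2 : ((S ×ˢ S).filter fun z => f z.1 = f z.2).card =
      ∑ y ∈ S.image f, (S.filter fun p => f p = y).card ^ 2 := by
    rw [card_eq_sum_card_fiberwise (f := fun z : V × V => f z.1) (t := S.image f)]
    · refine sum_congr rfl fun y _ => ?_
      have h3 : ((S ×ˢ S).filter fun z => f z.1 = f z.2).filter (fun z => f z.1 = y) =
          (S.filter fun p => f p = y) ×ˢ (S.filter fun p => f p = y) := by
        ext ⟨p, q⟩
        simp only [mem_filter, mem_product]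
        constructor
        · rintro ⟨⟨⟨h4, h5⟩, h6⟩, h7⟩
          exact ⟨⟨h4, h7⟩, h5, by rw [← h6, h7]⟩
        · rintro ⟨⟨h4, h5⟩, h6, h7⟩
          exact ⟨⟨⟨h4, h6⟩, by rw [h5, h7]⟩, h5⟩
      rw [h3, card_product, sq]
    · intro z hz
      have hz' := mem_product.1 (mem_filter.1 (mem_coe.1 hz)).1
      exact mem_coe.2 (mem_image_of_mem f hz'.1)
  have h3 := sq_sum_le_card_mul_sum_sq (s := S.image f)
    (f := fun y => ((S.filter fun p => f p = y).card : ℝ))
  have h4 : (S.card : ℝ) = ∑ y ∈ S.image f, ((S.filter fun p => f p = y).card : ℝ) := by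
    exact_mod_cast h1
  have h5 : (((S ×ˢ S).filter fun z => f z.1 = f z.2).card : ℝ) =
      ∑ y ∈ S.image f, ((S.filter fun p => f p = y).card : ℝ) ^ 2 := by
    exact_mod_cast h2
  rw [h4, h5]
  refine h3.trans (mul_le_mul_of_nonneg_right h ?_)
  exact sum_nonneg fun y _ => sq_nonneg _

/-- SPL. -/
theorem thm_SPL : St_SPL := by
  classical
  intro F _ _ V _ S a b Λ K₀ a₀ x η₀ r hr hx hη₀ hinj hΛ hS hcard
  have hSpos : (0 : ℝ) < S.card := by linarith
  have hSne : S.Nonempty := by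
    rw [← card_pos]
    exact_mod_cast hSpos
  -- the pairs
  let Pη : F → Finset (V × V) := fun η =>
    (S ×ˢ S).filter fun z => z.1 ≠ z.2 ∧ a z.1 * η - b z.1 = a z.2 * η - b z.2
  have hPη : ∀ η ∈ Λ, (S.card : ℝ) ^ 2 ≤ 2 * r * (Pη η).card := by
    intro η hη
    have h1 := spl_pairs S (fun p => a p * η - b p) r (hΛ η hη).2
    have h2 : ((S ×ˢ S).filter fun z => a z.1 * η - b z.1 = a z.2 * η - b z.2) ⊆
        Pη η ∪ S.diag := by
      intro z hz
      rw [mem_filter] at hz
      rw [mem_union]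
      by_cases h : z.1 = z.2
      · right
        rw [mem_diag]
        exact ⟨(mem_product.1 hz.1).1, h⟩
      · left
        exact mem_filter.2 ⟨hz.1, h, hz.2⟩
    have h3 : ((S ×ˢ S).filter fun z => a z.1 * η - b z.1 = a z.2 * η - b z.2).card ≤
        (Pη η).card + S.card := by
      refine (card_le_card h2).trans ((card_union_le _ _).trans ?_)
      rw [diag_card]
    have h4 : (((S ×ˢ S).filter fun z => a z.1 * η - b z.1 = a z.2 * η - b z.2).card : ℝ) ≤
        (Pη η).card + S.card := by exact_mod_cast h3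
    have h5 := h1.trans (mul_le_mul_of_nonneg_left h4 hr.le)
    nlinarith
  have hdisj : ∀ η ∈ Λ, ∀ η' ∈ Λ, η ≠ η' → Disjoint (Pη η) (Pη η') := by
    intro η _ η' _ hne
    rw [Finset.disjoint_left]
    intro z hz hz'
    obtain ⟨h1, h2, h3⟩ := mem_filter.1 hz
    obtain ⟨-, -, h4⟩ := mem_filter.1 hz'
    obtain ⟨hz1, hz2⟩ := mem_product.1 h1
    have h5 : (a z.1 - a z.2) * (η - η') = 0 := by
      have e1 : (a z.1 - a z.2) * η = b z.1 - b z.2 := by
        rw [sub_mul]
        rw [sub_eq_sub_iff_add_eq_add] at h3 ⊢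
        rw [h3]
        abel
      have e2 : (a z.1 - a z.2) * η' = b z.1 - b z.2 := by
        rw [sub_mul]
        rw [sub_eq_sub_iff_add_eq_add] at h4 ⊢
        rw [h4]
        abel
      rw [mul_sub, e1, e2, sub_self]
    rcases mul_eq_zero.1 h5 with h6 | h6
    · have h7 : a z.1 = a z.2 := sub_eq_zero.1 h6
      rw [h7] at h3
      exact h2 (hinj _ hz1 _ hz2 h7 (sub_right_injective h3))
    · exact hne (sub_eq_zero.1 h6)
  let P : Finset (V × V) := Λ.biUnion Pη
  have hPcard : (Λ.card : ℝ) * (S.card : ℝ) ^ 2 ≤ 2 * r * P.card := by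
    have h1 : (P.card : ℝ) = ∑ η ∈ Λ, ((Pη η).card : ℝ) := by
      have : P.card = ∑ η ∈ Λ, (Pη η).card := card_biUnion hdisj
      exact_mod_cast this
    rw [h1, mul_sum, ← nsmul_eq_mul, ← sum_const]
    exact sum_le_sum hPη
  have hPsum : (P.card : ℝ) = ∑ q ∈ S, ((P.filter fun z => z.2 = q).card : ℝ) := by
    have : P.card = ∑ q ∈ S, (P.filter fun z => z.2 = q).card := by
      refine card_eq_sum_card_fiberwise ?_
      intro z hz
      obtain ⟨η, -, hz'⟩ := mem_biUnion.1 (mem_coe.1 hz)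
      exact mem_coe.2 (mem_product.1 (mem_filter.1 hz').1).2
    exact_mod_cast this
  obtain ⟨q, hq, hle⟩ : ∃ q ∈ S, (Λ.card : ℝ) * S.card ≤
      2 * r * ((P.filter fun z => z.2 = q).card : ℝ) := by
    by_contra hcon
    push Not at hcon
    have h1 := sum_lt_sum_of_nonempty hSne hcon
    rw [← mul_sum, ← hPsum, sum_const, nsmul_eq_mul] at h1
    nlinarith
  refine ⟨b q, hle.trans (mul_le_mul_of_nonneg_left ?_ (by linarith))⟩
  rw [Nat.subtype_card (S.filter fun p => x⁻¹ * (b p - b q) * η₀⁻¹ ∈ K₀)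
    (fun p => by rw [mem_filter])]
  have hcl : (P.filter fun z => z.2 = q).card ≤
      (S.filter fun p => x⁻¹ * (b p - b q) * η₀⁻¹ ∈ K₀).card := by
    refine card_le_card_of_injOn Prod.fst ?_ ?_
    · intro z hz
      obtain ⟨hz1, hz2⟩ := mem_filter.1 (mem_coe.1 hz)
      obtain ⟨η, hη, hz3⟩ := mem_biUnion.1 hz1
      obtain ⟨h1, -, h3⟩ := mem_filter.1 hz3
      obtain ⟨hp, -⟩ := mem_product.1 h1
      rw [hz2] at h3
      refine mem_coe.2 (mem_filter.2 ⟨hp, ?_⟩)
      have e1 : b z.1 - b q = (a z.1 - a q) * η := by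
        rw [sub_mul]
        rw [sub_eq_sub_iff_add_eq_add] at h3 ⊢
        rw [add_comm, ← h3]
      have e2 : x⁻¹ * (b z.1 - b q) * η₀⁻¹ =
          (x⁻¹ * (a z.1 - a₀) - x⁻¹ * (a q - a₀)) * (η * η₀⁻¹) := by
        rw [e1, ← mul_sub, sub_sub_sub_cancel_right, mul_assoc, mul_assoc, mul_assoc]
      rw [e2]
      exact mul_mem (sub_mem (hS _ hp) (hS _ hq)) (hΛ η hη).1
    · intro z hz w hw hzw
      have hz2 := (mem_filter.1 (mem_coe.1 hz)).2
      have hw2 := (mem_filter.1 (mem_coe.1 hw)).2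
      exact Prod.ext hzw (hz2.trans hw2.symm)
  exact_mod_cast hcl

end Pool.Agent.DSG
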