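import Pool.Agent.DSG.Stmts

/-!
# DSG/TRF (helper13): coordinates with the block `L` at infinity
-/

set_option autoImplicit false

namespace Pool.Agent.DSG

open Finset

section Crit

variable {F : Type} [DivisionRing F]

/-- the linear condition for collinearity -/
private lemma trf_crit (P Q R : F × F) (hPQ : P ≠ Q) :
    Collinear F {P, Q, R} ↔ ∃ A B C : F, (A ≠ 0 ∨ B ≠ 0) ∧ P.1 * A + P.2 * B = C ∧
      Q.1 * A + Q.2 * B = C ∧ R.1 * A + R.2 * B = C := by
  constructor
  · intro h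
    rw [collinear_iff_of_mem (p₀ := P) (by simp)] at h
    obtain ⟨v, hv⟩ := h
    obtain ⟨r, hr⟩ := hv Q (by simp)
    obtain ⟨s, hs⟩ := hv R (by simp)
    have hv0 : v ≠ 0 := by
      rintro rfl
      rw [smul_zero, zero_vadd] at hr
      exact hPQ hr.symm
    have hQ1 : Q.1 = r * v.1 + P.1 := by rw [hr]; rfl
    have hQ2 : Q.2 = r * v.2 + P.2 := by rw [hr]; rfl
    have hR1 : R.1 = s * v.1 + P.1 := by rw [hs]; rfl
    have hR2 : R.2 = s * v.2 + P.2 := by rw [hs]; rfl
    obtain ⟨A, B, hAB, h0⟩ : ∃ A B : F, (A ≠ 0 ∨ B ≠ 0) ∧ v.1 * A + v.2 * B = 0 := by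
      by_cases h1 : v.1 = 0
      · exact ⟨1, 0, Or.inl one_ne_zero, by rw [h1]; simp⟩
      · refine ⟨-(v.1⁻¹ * v.2), 1, Or.inr one_ne_zero, ?_⟩
        rw [mul_neg, ← mul_assoc, mul_inv_cancel₀ h1]; simp
    have key : ∀ t : F, (t * v.1 + P.1) * A + (t * v.2 + P.2) * B = P.1 * A + P.2 * B := by
      intro t
      have : (t * v.1 + P.1) * A + (t * v.2 + P.2) * B =
          t * (v.1 * A + v.2 * B) + (P.1 * A + P.2 * B) := by noncomm_ring
      rw [this, h0, mul_zero, zero_add]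
    refine ⟨A, B, P.1 * A + P.2 * B, hAB, rfl, ?_, ?_⟩
    · rw [hQ1, hQ2, key]
    · rw [hR1, hR2, key]
  · rintro ⟨A, B, C, hAB, hP, hQ, hR⟩
    have hu : (Q.1 - P.1) * A + (Q.2 - P.2) * B = 0 := by
      have : (Q.1 - P.1) * A + (Q.2 - P.2) * B = (Q.1 * A + Q.2 * B) - (P.1 * A + P.2 * B) := by
        noncomm_ring
      rw [this, hP, hQ, sub_self]
    have hw : (R.1 - P.1) * A + (R.2 - P.2) * B = 0 := by
      have : (R.1 - P.1) * A + (R.2 - P.2) * B = (R.1 * A + R.2 * B) - (P.1 * A + P.2 * B) := by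
        noncomm_ring
      rw [this, hP, hR, sub_self]
    obtain ⟨r, hr1, hr2⟩ : ∃ r : F, R.1 - P.1 = r * (Q.1 - P.1) ∧ R.2 - P.2 = r * (Q.2 - P.2) := by
      by_cases h1 : Q.1 - P.1 = 0
      · have h2 : Q.2 - P.2 ≠ 0 := by
          intro h2
          exact hPQ (Prod.ext (sub_eq_zero.1 h1).symm (sub_eq_zero.1 h2).symm)
        rw [h1, zero_mul, zero_add] at hu
        have hB : B = 0 := by
          rcases mul_eq_zero.1 hu with h | h
          · exact absurd h h2
          · exact h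
        have hA : A ≠ 0 := by
          rcases hAB with h | h
          · exact h
          · exact absurd hB h
        rw [hB, mul_zero, add_zero] at hw
        have h3 : R.1 - P.1 = 0 := by
          rcases mul_eq_zero.1 hw with h | h
          · exact h
          · exact absurd h hA
        refine ⟨(R.2 - P.2) * (Q.2 - P.2)⁻¹, ?_, ?_⟩
        · rw [h1, h3, mul_zero]
        · rw [mul_assoc, inv_mul_cancel₀ h2, mul_one]
      · refine ⟨(R.1 - P.1) * (Q.1 - P.1)⁻¹, ?_, ?_⟩
        · rw [mul_assoc, inv_mul_cancel₀ h1, mul_one]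
        · have hB : B ≠ 0 := by
            intro hB
            rw [hB, mul_zero, add_zero] at hu
            rcases mul_eq_zero.1 hu with h | h
            · exact h1 h
            · rcases hAB with h' | h'
              · exact h' h
              · exact h' hB
          have h4 : (R.1 - P.1) * A = -((R.2 - P.2) * B) := eq_neg_of_add_eq_zero_left hw
          have h5 : (Q.1 - P.1) * A = -((Q.2 - P.2) * B) := eq_neg_of_add_eq_zero_left hu
          have h6 : (R.1 - P.1) * (Q.1 - P.1)⁻¹ * ((Q.1 - P.1) * A) = (R.1 - P.1) * A := by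
            rw [mul_assoc, ← mul_assoc (Q.1 - P.1)⁻¹, inv_mul_cancel₀ h1, one_mul]
          have h7 : (R.1 - P.1) * (Q.1 - P.1)⁻¹ * (Q.2 - P.2) * B = (R.2 - P.2) * B := by
            rw [h4, h5, mul_neg, neg_inj] at h6
            rw [mul_assoc]
            exact h6
          exact (mul_right_cancel₀ hB h7).symm
    rw [collinear_iff_of_mem (p₀ := P) (by simp)]
    refine ⟨Q - P, ?_⟩
    intro p hp
    simp only [Set.mem_insert_iff, Set.mem_singleton_iff] at hp
    rcases hp with rfl | rfl | rfl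
    · exact ⟨0, by simp⟩
    · exact ⟨1, by simp⟩
    · refine ⟨r, ?_⟩
      rw [vadd_eq_add]
      refine Prod.ext ?_ ?_
      · change p.1 = r * (Q.1 - P.1) + P.1
        rw [← hr1]; abel
      · change p.2 = r * (Q.2 - P.2) + P.2
        rw [← hr2]; abel

/-- a linear automorphism which maps a given nonzero vector to `(1, 0)` -/
private lemma trf_lin (v : F × F) (hv : v ≠ 0) :
    ∃ (T S : F × F →ₗ[F] F × F), T v = (1, 0) ∧ ∀ x, S (T x) = x := by
  by_cases h1 : v.1 = 0
  · have h2 : v.2 ≠ 0 := fun h2 => hv (Prod.ext h1 h2)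
    refine ⟨LinearMap.coprod (LinearMap.toSpanSingleton F (F × F) (0, 1))
      (LinearMap.toSpanSingleton F (F × F) (v.2⁻¹, 0)),
      LinearMap.coprod (LinearMap.toSpanSingleton F (F × F) (0, v.2))
      (LinearMap.toSpanSingleton F (F × F) (1, 0)), ?_, ?_⟩
    · refine Prod.ext ?_ ?_
      · simp [h1, h2]
      · simp [h1]
    · intro x
      refine Prod.ext ?_ ?_
      · simp
      · simp [h2]
  · refine ⟨LinearMap.coprod (LinearMap.toSpanSingleton F (F × F) (v.1⁻¹, -(v.1⁻¹ * v.2)))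
      (LinearMap.toSpanSingleton F (F × F) (0, 1)),
      LinearMap.coprod (LinearMap.toSpanSingleton F (F × F) (v.1, v.2))
      (LinearMap.toSpanSingleton F (F × F) (0, 1)), ?_, ?_⟩
    · refine Prod.ext ?_ ?_
      · simp [h1]
      · simp [h1]
    · intro x
      refine Prod.ext ?_ ?_
      · simp [h1]
      · simp [mul_assoc]

/-- collinearity is invariant -/
private lemma trf_inv (T S : F × F →ₗ[F] F × F) (hTS : ∀ x, S (T x) = x) (O P Q R : F × F) :
    Collinear F {P, Q, R} ↔ Collinear F {T (P - O), T (Q - O), T (R - O)} := by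
  have aux : ∀ (U : F × F →ₗ[F] F × F) (c d P Q R : F × F), Collinear F {P, Q, R} →
      Collinear F {U (P - c) + d, U (Q - c) + d, U (R - c) + d} := by
    intro U c d P Q R h
    rw [collinear_iff_of_mem (p₀ := P) (by simp)] at h
    obtain ⟨v, hv⟩ := h
    rw [collinear_iff_of_mem (p₀ := U (P - c) + d) (by simp)]
    refine ⟨U v, ?_⟩
    intro p hp
    simp only [Set.mem_insert_iff, Set.mem_singleton_iff] at hp
    have key : ∀ X : F × F, (∃ r : F, X = r • v +ᵥ P) →
        ∃ r : F, U (X - c) + d = r • U v +ᵥ (U (P - c) + d) := by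
      rintro X ⟨r, hr⟩
      refine ⟨r, ?_⟩
      rw [hr, vadd_eq_add, vadd_eq_add, ← U.map_smul, ← add_assoc, ← U.map_add]
      congr 2
      abel
    rcases hp with rfl | rfl | rfl
    · exact key P (hv P (by simp))
    · exact key Q (hv Q (by simp))
    · exact key R (hv R (by simp))
  constructor
  · intro h
    have := aux T O 0 P Q R h
    simpa only [add_zero] using this
  · intro h
    have := aux S 0 O _ _ _ h
    simpa only [sub_zero, hTS, sub_add_cancel] using this

end Crit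

theorem thm_TRF : St_TRF := by
  intro F _ V _ _ H φ L w₁ w₂ hH hφ hcol hL hw₁ hw₂ hne
  classical
  -- two points are in exactly one block
  have huniq : ∀ e ∈ H, ∀ e' ∈ H, ∀ x y : V, x ≠ y → x ∈ e → y ∈ e → x ∈ e' → y ∈ e' → e = e' := by
    intro e he e' he' x y hxy h1 h2 h3 h4
    obtain ⟨e₀, -, he₀⟩ := hH.2 {x, y} (Finset.card_pair hxy)
    have h5 := he₀ e ⟨he, by intro z hz; rcases Finset.mem_insert.1 hz with rfl | hz; exact h1; rw [Finset.mem_singleton.1 hz]; exact h2⟩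
    have h6 := he₀ e' ⟨he', by intro z hz; rcases Finset.mem_insert.1 hz with rfl | hz; exact h3; rw [Finset.mem_singleton.1 hz]; exact h4⟩
    rw [h5, h6]
  have hv : φ w₂ - φ w₁ ≠ 0 := fun h => hne (hφ (sub_eq_zero.1 h)).symm
  obtain ⟨T, S, hTv, hTS⟩ := trf_lin (φ w₂ - φ w₁) hv
  obtain ⟨ψ, hψ⟩ : ∃ ψ : V → F × F, ∀ p, ψ p = T (φ p - φ w₁) := ⟨_, fun _ => rfl⟩
  have hψinj : ∀ p q, ψ p = ψ q → p = q := by
    intro p q h
    rw [hψ, hψ] at h
    have h2 := congrArg S h
    rw [hTS, hTS] at h2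
    exact hφ (sub_left_inj.1 h2)
  have hψcol : ∀ x y z : V, (∃ e ∈ H, x ∈ e ∧ y ∈ e ∧ z ∈ e) ↔ Collinear F {ψ x, ψ y, ψ z} := by
    intro x y z
    rw [hcol, hψ, hψ, hψ]
    exact trf_inv T S hTS (φ w₁) _ _ _
  have hψ1 : ψ w₁ = (0, 0) := by rw [hψ, sub_self, map_zero]; rfl
  have hψ2 : ψ w₂ = (1, 0) := by rw [hψ, hTv]
  obtain ⟨X, hX⟩ : ∃ X : V → F, ∀ p, X p = (ψ p).1 := ⟨_, fun _ => rfl⟩
  obtain ⟨Y, hY⟩ : ∃ Y : V → F, ∀ p, Y p = (ψ p).2 := ⟨_, fun _ => rfl⟩
  have hXY : ∀ p q, X p = X q → Y p = Y q → p = q := by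
    intro p q h1 h2
    rw [hX, hX] at h1
    rw [hY, hY] at h2
    exact hψinj p q (Prod.ext h1 h2)
  have hX1 : X w₁ = 0 := by rw [hX, hψ1]
  have hX2 : X w₂ = 1 := by rw [hX, hψ2]
  have hcr : ∀ p q z : V, p ≠ q → ((∃ e ∈ H, p ∈ e ∧ q ∈ e ∧ z ∈ e) ↔ ∃ A B C : F,
      (A ≠ 0 ∨ B ≠ 0) ∧ X p * A + Y p * B = C ∧ X q * A + Y q * B = C ∧
        X z * A + Y z * B = C) := by
    intro p q z hpq
    rw [hψcol, trf_crit _ _ _ (fun h => hpq (hψinj p q h))]
    simp only [hX, hY]
  have hYL : ∀ p, p ∈ L ↔ Y p = 0 := by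
    intro p
    constructor
    · intro hp
      obtain ⟨A, B, C, hAB, h1, h2, h3⟩ := (hcr w₁ w₂ p hne).1 ⟨L, hL, hw₁, hw₂, hp⟩
      have hY1 : Y w₁ = 0 := by rw [hY, hψ1]
      have hY2 : Y w₂ = 0 := by rw [hY, hψ2]
      rw [hX1, hY1, zero_mul, zero_mul, add_zero] at h1
      rw [hX2, hY2, zero_mul, one_mul, add_zero, ← h1] at h2
      rw [h2, mul_zero, zero_add, ← h1] at h3
      rcases mul_eq_zero.1 h3 with h | h
      · exact h
      · rcases hAB with h' | h'
        · exact absurd h2 h'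
        · exact absurd h h'
    · intro hp
      have hY1 : Y w₁ = 0 := by rw [hY, hψ1]
      have hY2 : Y w₂ = 0 := by rw [hY, hψ2]
      obtain ⟨e, he, h1, h2, h3⟩ := (hcr w₁ w₂ p hne).2
        ⟨0, 1, 0, Or.inr one_ne_zero, by rw [hY1]; simp, by rw [hY2]; simp, by rw [hp]; simp⟩
      rw [huniq L hL e he w₁ w₂ hne hw₁ hw₂ h1 h2]
      exact h3
  obtain ⟨a, ha⟩ : ∃ a : V → F, ∀ p, a p = (Y p)⁻¹ * X p := ⟨_, fun _ => rfl⟩
  obtain ⟨b, hb⟩ : ∃ b : V → F, ∀ p, b p = (Y p)⁻¹ * (1 - X p) := ⟨_, fun _ => rfl⟩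
  obtain ⟨η, hη⟩ : ∃ η : V → F, ∀ p, η p = (X p)⁻¹ - 1 := ⟨_, fun _ => rfl⟩
  have hab : ∀ p, a p + b p = (Y p)⁻¹ := by
    intro p
    rw [ha, hb, ← mul_add]; simp
  have hY0 : ∀ p, p ∉ L → Y p ≠ 0 := fun p hp h => hp ((hYL p).2 h)
  have hXa : ∀ p, p ∉ L → Y p * a p = X p := by
    intro p hp
    rw [ha, ← mul_assoc, mul_inv_cancel₀ (hY0 p hp), one_mul]
  -- points of `L`
  have hXL1 : ∀ w ∈ L, w ≠ w₁ → X w ≠ 0 := by
    intro w hw h h0
    exact h (hXY w w₁ (by rw [h0, hX1]) (by rw [(hYL w).1 hw, (hYL w₁).1 hw₁]))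
  have hXL2 : ∀ w ∈ L, w ≠ w₂ → X w ≠ 1 := by
    intro w hw h h0
    exact h (hXY w w₂ (by rw [h0, hX2]) (by rw [(hYL w).1 hw, (hYL w₂).1 hw₂]))
  have h4 : ∀ w ∈ L, ∀ p q : V, p ∉ L → q ∉ L → p ≠ q →
      ((∃ e ∈ H, w ∈ e ∧ p ∈ e ∧ q ∈ e) ↔ (Y p)⁻¹ * (X p - X w) = (Y q)⁻¹ * (X q - X w)) := by
    intro w hw p q hp hq hpq
    have h5 : (∃ e ∈ H, w ∈ e ∧ p ∈ e ∧ q ∈ e) ↔ ∃ e ∈ H, p ∈ e ∧ q ∈ e ∧ w ∈ e := by
      constructor
      · rintro ⟨e, he, h1, h2, h3⟩
        exact ⟨e, he, h2, h3, h1⟩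
      · rintro ⟨e, he, h1, h2, h3⟩
        exact ⟨e, he, h3, h1, h2⟩
    rw [h5, hcr p q w hpq]
    have hYw := (hYL w).1 hw
    constructor
    · rintro ⟨A, B, C, hAB, h1, h2, h3⟩
      rw [hYw, zero_mul, add_zero] at h3
      have hA : A ≠ 0 := by
        intro hA
        rw [hA, mul_zero] at h3
        rw [hA, mul_zero, zero_add, ← h3] at h1
        rcases mul_eq_zero.1 h1 with h | h
        · exact hY0 p hp h
        · rcases hAB with h' | h'
          · exact h' hA
          · exact h' h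
      have key : ∀ r : V, r ∉ L → X r * A + Y r * B = C →
          (Y r)⁻¹ * (X r - X w) * A = -B := by
        intro r hr h
        have h6 : (X r - X w) * A = -(Y r * B) := by
          rw [sub_mul, h3, ← h]; abel
        rw [mul_assoc, h6, mul_neg, ← mul_assoc, inv_mul_cancel₀ (hY0 r hr), one_mul]
      apply mul_right_cancel₀ hA
      rw [key p hp h1, key q hq h2]
    · intro h
      refine ⟨1, -((Y p)⁻¹ * (X p - X w)), X w, Or.inl one_ne_zero, ?_, ?_, ?_⟩
      · rw [mul_one, mul_neg, ← mul_assoc, mul_inv_cancel₀ (hY0 p hp), one_mul]; abel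
      · rw [h, mul_one, mul_neg, ← mul_assoc, mul_inv_cancel₀ (hY0 q hq), one_mul]; abel
      · rw [hYw, zero_mul, add_zero, mul_one]
  refine ⟨a, b, η, ?_, ?_, ?_, ?_, ?_⟩
  · intro p q hp hq h1 h2
    have h3 : Y p = Y q := by
      apply inv_injective
      rw [← hab, ← hab, h1, h2]
    exact hXY p q (by rw [← hXa p hp, ← hXa q hq, h1, h3]) h3
  · intro w hw h1 h2 h3
    rw [hη, sub_eq_zero, inv_eq_one] at h3
    exact hXL2 w hw h2 h3
  · intro w hw _ _ w' hw' _ _ h
    rw [hη, hη, sub_left_inj] at h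
    exact hXY w w' (inv_injective h) (by rw [(hYL w).1 hw, (hYL w').1 hw'])
  · intro p q hp hq hpq
    refine ⟨?_, ?_, ?_⟩
    · rw [h4 w₁ hw₁ p q hp hq hpq, hX1, sub_zero, sub_zero, ha, ha]
    · rw [h4 w₂ hw₂ p q hp hq hpq, hX2, hb, hb]
      have : ∀ r : V, (Y r)⁻¹ * (X r - 1) = -((Y r)⁻¹ * (1 - X r)) := by
        intro r
        rw [← mul_neg, neg_sub]
      rw [this, this, neg_inj]
    · intro w hw hw1 hw2
      rw [h4 w hw p q hp hq hpq]
      have hw0 := hXL1 w hw hw1
      have key : ∀ r : V, (a r * η w - b r) * X w = (Y r)⁻¹ * (X r - X w) := by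
        intro r
        have e1 : (a r * η w - b r) * X w = a r * ((X w)⁻¹ * X w) - (a r + b r) * X w := by
          rw [hη]; noncomm_ring
        rw [e1, inv_mul_cancel₀ hw0, hab, mul_one, ha, mul_sub]
      rw [← key p, ← key q]
      constructor
      · intro h
        exact mul_right_cancel₀ hw0 h
      · intro h
        rw [h]
  · intro p q z hp hq hz hpq
    rw [hcr p q z hpq]
    constructor
    · rintro ⟨A, B, C, hAB, h1, h2, h3⟩
      have key : ∀ r : V, r ∉ L → X r * A + Y r * B = C → a r * A + B = (a r + b r) * C := by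
        intro r hr h
        rw [hab, ← h, mul_add, ha, ← mul_assoc, ← mul_assoc, inv_mul_cancel₀ (hY0 r hr), one_mul]
      have k1 := key p hp h1
      have k2 := key q hq h2
      have k3 := key z hz h3
      by_cases hC : C = 0
      · left
        rw [hC, mul_zero] at k1 k2 k3
        have hA : A ≠ 0 := by
          intro hA
          rw [hA, mul_zero, zero_add] at k1
          rcases hAB with h' | h'
          · exact h' hA
          · exact h' k1
        constructor
        · apply mul_right_cancel₀ hA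
          rw [eq_neg_of_add_eq_zero_left k1, eq_neg_of_add_eq_zero_left k2]
        · apply mul_right_cancel₀ hA
          rw [eq_neg_of_add_eq_zero_left k1, eq_neg_of_add_eq_zero_left k3]
      · right
        refine ⟨(A - C) * C⁻¹, ?_⟩
        have key2 : ∀ r : V, a r * A + B = (a r + b r) * C →
            a r * ((A - C) * C⁻¹) - b r = -(B * C⁻¹) := by
          intro r h
          have e1 : a r * (A - C) - b r * C = -B := by
            have : a r * (A - C) - b r * C = (a r * A + B) - (a r + b r) * C - B := by noncomm_ring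
            rw [this, h]; abel
          calc a r * ((A - C) * C⁻¹) - b r = (a r * (A - C) - b r * C) * C⁻¹ := by
                rw [sub_mul (a r * (A - C)), mul_assoc (b r), mul_inv_cancel₀ hC, mul_one, mul_assoc]
            _ = -(B * C⁻¹) := by rw [e1, neg_mul]
        rw [key2 p k1, key2 q k2, key2 z k3]
        exact ⟨rfl, rfl⟩
    · rintro (⟨h1, h2⟩ | ⟨μ, h1, h2⟩)
      · refine ⟨1, -(a p), 0, Or.inl one_ne_zero, ?_, ?_, ?_⟩
        · rw [mul_one, mul_neg, hXa p hp]; abel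
        · rw [mul_one, mul_neg, h1, hXa q hq]; abel
        · rw [mul_one, mul_neg, ← h2, hXa z hz]; abel
      · obtain ⟨m, hm⟩ : ∃ m, m = a p * μ - b p := ⟨_, rfl⟩
        have hYb : ∀ r, r ∉ L → Y r * b r = 1 - X r := by
          intro r hr
          rw [hb, ← mul_assoc, mul_inv_cancel₀ (hY0 r hr), one_mul]
        have key : ∀ r : V, r ∉ L → a r * μ - b r = m → X r * (μ + 1) + Y r * (-m) = 1 := by
          intro r hr h
          rw [← h]
          have : X r * (μ + 1) + Y r * -(a r * μ - b r) =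
              X r * μ + X r - (Y r * a r) * μ + Y r * b r := by noncomm_ring
          rw [this, hXa r hr, hYb r hr]; abel
        have k1 := key p hp hm.symm
        refine ⟨μ + 1, -m, 1, ?_, k1, key q hq (by rw [← h1, hm]), key z hz (by rw [h2, hm])⟩
        by_contra hcon
        push Not at hcon
        rw [hcon.1, hcon.2, mul_zero, mul_zero, add_zero] at k1
        exact zero_ne_one k1

end Pool.Agent.DSG
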