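import Pool.Agent.DSG.CNT
import Pool.Agent.DSG.TRF
import Pool.Agent.DSG.PEN
import Pool.Agent.DSG.BSG
import Pool.Agent.DSG.GRD
import Pool.Agent.DSG.CAL
import Pool.Agent.DSG.NUM
import Pool.Agent.DSG.FLD
import Pool.Agent.DSG.COS
import Pool.Agent.DSG.SPL
import Pool.Agent.DSG.PLN
import Pool.Agent.DSG.FIN
import Pool.Agent.DSG.RES

/-!
# DSG: assembly
-/

set_option autoImplicit false

namespace Pool.Agent.DSG

theorem final : St_RES :=
  thm_RES (thm_FIN thm_CNT thm_TRF thm_PEN (thm_GRD thm_BSG) (thm_FLD thm_CAL thm_NUM) thm_COS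
    thm_SPL thm_PLN)

end Pool.Agent.DSG
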