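import Mathlib
import Pool.Prelude.Def_F_1d73fb57

/-!
# DSG: pairwise balanced designs in Desarguesian planes (MP_7b3acf_co), statements

Architect: helper3.  Each `St_X` is proved in `Pool/Agent/DSG/X.lean` as `theorem thm_X`, with the
hypotheses named in its docstring (in that order).  The proofs are complete in the docstrings.

Main theorem: a pairwise balanced design on `n` points which can be embedded in a Desarguesian plane and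
has at most `K √n` blocks of each size satisfies `n ≤ C K^E`.

Idea: many points `w` of a suitable block `L` lie on `O(√n)` blocks.  With `L` at infinity the other points
form a dense part of a grid `A × B` which is covered by `O(√n)` lines of each of `≫ √n` slopes.
Balog-Szemeredi-Gowers and Ruzsa calculus give a finite subfield `K0` of order `O(√n)` and an affine plane
over `K0` which contains a positive proportion of the points.  The second moment of the sizes of the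
intersections with the lines of this plane shows that these sizes lie in a window of length `O(n^(1/4))`.
-/

set_option autoImplicit false

namespace Pool.Agent.DSG

open Finset
open scoped BigOperators Pointwise

/-- number of blocks of size `t` -/
def Nt {V : Type} (H : Finset (Finset V)) (t : ℕ) : ℕ := (H.filter fun e => e.card = t).card

/-- number of blocks through `x` -/
def dg {V : Type} [DecidableEq V] (H : Finset (Finset V)) (x : V) : ℕ :=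
  (H.filter fun e => x ∈ e).card

/-- `|A - A ξ| ≤ k |A|` -/
def PrA {F : Type} [DivisionRing F] [DecidableEq F] (A : Finset F) (k : ℝ) (ξ : F) : Prop :=
  ((A - A.image (fun a => a * ξ)).card : ℝ) ≤ k * A.card

/-- **CNT** (1.3 h). Counting in a design with few blocks of each size.  Hypotheses: none.

Proof.  `n = card V`, `N = √n ≥ 100`, `dg` the degree.  (a) At most `N` blocks have size `> 2N`: otherwise
take `s` of them, `N < s ≤ N + 1`; two blocks have at most one common point, so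
`n ≥ 2 N s - s (s - 1)/2 ≥ s (2N - N/2) > n`.  In the same way (all of the blocks of size `> 2N`, `s ≤ N` of
them) the sum of their sizes is at most `n + s (s - 1)/2 ≤ 3n/2`.  (b) So the number of blocks is at most
`2N · K N + N ≤ 3 K n` and `∑_x dg x = ∑_e |e| ≤ K N (2N)(2N + 1)/2 + 3n/2 ≤ 5 K n N`.  Call `x` bad if
`dg x > 40 K N`; there are at most `n/8` bad points.  (c) All blocks have size `≤ 40 K N (≤ 2n/5)`: let
`|e| > 40 K N`.  Every `x ∉ e` has `dg x ≥ |e|`, so it is bad, and `|V \ e| ≤ n/8`.  Take `x₀ ∉ e`, and for `y ∈ e` let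
`e_y` be the block through `x₀`, `y`; it meets `e` only in `y`, the `e_y` are distinct and meet each other only in
`x₀`, so `∑_{y ∈ e} (|e_y| - 2) ≤ |V \ e| - 1 ≤ n/8`: at most `n/24` of the `e_y` have size `≥ 5`, so at least
`7n/8 - n/24 = 5n/6` of them have size `2`, `3` or `4`, and some `Nt H t ≥ 5n/18 > K N` (as `K N ≤ n/100`).
(d) Let `g ≥ 7n/8` be the number of good points.  If every block contained fewer than `N/(2K)` good points, the pairs of good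
points would give `g (g - 1) ≤ 3 K n (N/(2K))² ≤ 3 n²/(4 K) ≤ 3n²/4`... here use `g (g-1) ≤ ∑_e |e ∩ Good|²` and
`(7n/8)(7n/8 - 1) > 3n²/4` for `n ≥ 10⁴`.  So some block `L` has at least `N/(2K)` good points: `W = L ∩ Good`. -/
def St_CNT : Prop := ∀ (V : Type) [Fintype V] [DecidableEq V] (H : Finset (Finset V)) (K : ℝ),
  H.IsPairwiseBalancedDesign → (∀ e ∈ H, e.card < Fintype.card V) → 1 ≤ K →
  10 ^ 4 * K ^ 2 ≤ Fintype.card V → (∀ t, (Nt H t : ℝ) ≤ K * Real.sqrt (Fintype.card V)) →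
  ∃ L ∈ H, ∃ W ⊆ L, (Fintype.card V : ℝ) ≤ 2 * ((univ \ L).card : ℝ) ∧
    Real.sqrt (Fintype.card V) ≤ 2 * K * W.card ∧
    ∀ w ∈ W, (dg H w : ℝ) ≤ 40 * K * Real.sqrt (Fintype.card V)

/-- **TRF** (1.5 h). Coordinates with `L` at infinity.  Hypotheses: none.

Proof.  (i) For `P ≠ Q` in `F × F` (left `F`-module) and any `R`: `{P, Q, R}` is collinear iff there are
`A, B, C` with `(A, B) ≠ 0` and `X A + Y B = C` at `P`, `Q`, `R` (`(X, Y)` the coordinates).  (With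
`v = Q - P`: `(A, B) = (-v₁⁻¹ v₂, 1)` if `v₁ ≠ 0`, `(1, 0)` if `v₁ = 0`; `R - P` is a left multiple of `v` iff
`(R - P)₁ A + (R - P)₂ B = 0`; and every `(A, B) ≠ 0` with `v₁ A + v₂ B = 0` is a right multiple of this one.)
(ii) With `P = φ w₁`, `v = φ w₂ - P` let `T (x, y) = (x v₁⁻¹, y - x v₁⁻¹ v₂)` if `v₁ ≠ 0` and `T (x, y) = (y v₂⁻¹, x)` if
`v₁ = 0`: a left linear automorphism with `T v = (1, 0)`.  `ψ p = T (φ p - P) = (X p, Y p)` is injective, has the same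
collinear triples, `ψ w₁ = (0, 0)`, `ψ w₂ = (1, 0)`; and `p ∈ L` iff `Y p = 0` (a block which contains `w₁`, `w₂` is `L`).
`X` is injective on `L`.
(iii) For `p ∉ L` put `a p = (Y p)⁻¹ X p`, `b p = (Y p)⁻¹ (1 - X p)`, so `a p + b p = (Y p)⁻¹`; this gives (1).  For `w ∈ L`
different from `w₁`, `w₂` (so `X w ≠ 0, 1`) put `η w = (X w)⁻¹ - 1`.  `ψ w`, `ψ p`, `ψ q` (`p ≠ q` not in `L`) are collinear iff
`(Y p)⁻¹ (X p - X w)` takes the same value at `q`; it is `a p - (a p + b p) X w = a p (1 - X w) - b p X w`: for `w = w₁` it is `a p`,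
for `w = w₂` it is `- b p`, otherwise multiply by `(X w)⁻¹` on the right: `a p η w - b p`.
(iv) Let `p ≠ q`, `z` not in `L`.  If `X A + Y B = C` at all three: multiply by `Y⁻¹` on the left: `a A + B = (a + b) C`, `a (A - C) - b C = - B`.
`C ≠ 0`: `μ = (A - C) C⁻¹`.  `C = 0`: `A ≠ 0` and `a` is constant.  Conversely `a = a₁` constant gives `X - Y a₁ = 0`, and `a μ - b = m` gives
`X (μ + 1) - Y m = 1` (here `(μ + 1, -m) ≠ 0`). -/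
def St_TRF : Prop := ∀ (F : Type) [DivisionRing F] (V : Type) [Fintype V] [DecidableEq V]
  (H : Finset (Finset V)) (φ : V → F × F) (L : Finset V) (w₁ w₂ : V),
  H.IsPairwiseBalancedDesign → Function.Injective φ →
  (∀ x y z : V, (∃ e ∈ H, x ∈ e ∧ y ∈ e ∧ z ∈ e) ↔ Collinear F {φ x, φ y, φ z}) →
  L ∈ H → w₁ ∈ L → w₂ ∈ L → w₁ ≠ w₂ →
  ∃ a b η : V → F,
    (∀ p q : V, p ∉ L → q ∉ L → a p = a q → b p = b q → p = q) ∧
    (∀ w ∈ L, w ≠ w₁ → w ≠ w₂ → η w ≠ 0) ∧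
    (∀ w ∈ L, w ≠ w₁ → w ≠ w₂ → ∀ w' ∈ L, w' ≠ w₁ → w' ≠ w₂ → η w = η w' → w = w') ∧
    (∀ p q : V, p ∉ L → q ∉ L → p ≠ q →
      ((∃ e ∈ H, w₁ ∈ e ∧ p ∈ e ∧ q ∈ e) ↔ a p = a q) ∧
      ((∃ e ∈ H, w₂ ∈ e ∧ p ∈ e ∧ q ∈ e) ↔ b p = b q) ∧
      ∀ w ∈ L, w ≠ w₁ → w ≠ w₂ →
        ((∃ e ∈ H, w ∈ e ∧ p ∈ e ∧ q ∈ e) ↔ a p * η w - b p = a q * η w - b q)) ∧
    (∀ p q z : V, p ∉ L → q ∉ L → z ∉ L → p ≠ q →
      ((∃ e ∈ H, p ∈ e ∧ q ∈ e ∧ z ∈ e) ↔ (a p = a q ∧ a z = a p) ∨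
        ∃ μ : F, a p * μ - b p = a q * μ - b q ∧ a z * μ - b z = a p * μ - b p))

/-- **PEN** (0.4 h). The number of values of a coordinate of a pencil.  Hypotheses: none.

Proof.  For every value `c` take `p` outside `L` with `f p = c`, and the block through `w` and `p`.  Different values give
different blocks. -/
def St_PEN : Prop := ∀ (F : Type) [DecidableEq F] (V : Type) [Fintype V] [DecidableEq V]
  (H : Finset (Finset V)) (L : Finset V) (w : V) (f : V → F), H.IsPairwiseBalancedDesign →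
  L ∈ H → w ∈ L →
  (∀ p q : V, p ∉ L → q ∉ L → p ≠ q → ((∃ e ∈ H, w ∈ e ∧ p ∈ e ∧ q ∈ e) ↔ f p = f q)) →
  ((univ \ L).image f).card ≤ dg H w

/-- **BSG** (1.3 h). The graph theorem of Balog-Szemeredi-Gowers.  Hypotheses: none.

Proof.  `N(b)`, `N(a)` neighbourhoods, `|A|`, `|B|` cardinalities.  `A_h = {a : |N(a)| ≥ (α/2) |B|}`: at least `(α/2) |A| |B|` edges meet
it.  `N_h(b) = N(b) ∩ A_h`; Cauchy-Schwarz: `∑_b |N_h(b)|² ≥ (α²/4) |A|² |B|`.  Call a pair `(a, a')` of `A_h` bad if it has fewer than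
`(α³/128) |B|` common neighbours.  `∑_b #{bad pairs in N_h(b)} ≤ (α³/128) |B| |A|²`.  So
`∑_b (|N_h(b)|² - (16/α) #{bad pairs in N_h(b)}) ≥ (α²/8) |A|² |B|`; take `b₀` with `A₁ = N_h(b₀)`,
`|A₁|² - (16/α) #bad ≥ (α²/8) |A|²`: `|A₁| ≥ (α/3) |A|` and `#bad ≤ (α/16) |A₁|²`.  `A' = {a ∈ A₁ : at most (α/8) |A₁| of the a' ∈ A₁ form
a bad pair with a}`: `|A'| ≥ |A₁|/2 ≥ (α/6) |A|`.  `B' = {b : |N(b) ∩ A₁| ≥ (α/4) |A₁|}`: since every `a ∈ A₁` has degree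
`≥ (α/2) |B|`, `|B'| ≥ (α/4) |B|`.  For `a ∈ A'`, `b ∈ B'` there are at least `(α/4 - α/8) |A₁| ≥ (α²/24) |A|` elements `a₁` of
`N(b) ∩ A₁` which are not bad with `a`, and each has `(α³/128) |B|` common neighbours with `a`. -/
def St_BSG : Prop := ∀ (ι κ : Type) [DecidableEq ι] [DecidableEq κ] (A : Finset ι) (B : Finset κ)
  (G : Finset (ι × κ)) (α : ℝ), 0 < α → G ⊆ A ×ˢ B → A.Nonempty → B.Nonempty →
  α * ((A.card : ℝ) * B.card) ≤ G.card →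
  ∃ A' ⊆ A, ∃ B' ⊆ B, α * A.card ≤ 6 * (A'.card : ℝ) ∧ α * B.card ≤ 4 * (B'.card : ℝ) ∧
    (∀ a ∈ A', α * B.card ≤ 2 * ((B.filter fun b => (a, b) ∈ G).card : ℝ)) ∧
    ∀ a ∈ A', ∀ b ∈ B', α ^ 5 * ((A.card : ℝ) * B.card) ≤
      3072 * (((A ×ˢ B).filter fun q => (a, q.2) ∈ G ∧ (q.1, q.2) ∈ G ∧ (q.1, b) ∈ G).card : ℝ)

/-- **GRD** (1 h). Dense grids with few lines of many slopes.  Hypotheses: `St_BSG`.

Proof.  `A`, `B` the two projections of `G`; `α |A| |B| ≤ α r² ≤ |G|`, so `|A|, |B| ≥ α r` and `|A| |B| ≥ α r²`.  `St_BSG`: `A₀ = A'`, `B'`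
(they do not depend on `η`).  For `η ∈ Λ` let `C = {a η - b : (a, b) ∈ G}`, `|C| ≤ r`.  For `z = a η - b`, `a ∈ A'`, `b ∈ B'`, every path
`q = (a₁, b₁)` gives `z = (a η - b₁) - (a₁ η - b₁) + (a₁ η - b)`, a triple of elements of `C`, and different `q` give different triples:
`|A' η - B'| α⁵ |A| |B|/3072 ≤ r³`, `|A' η - B'| ≤ 3072 r/α⁶`.  Ruzsa's triangle inequality:
`|A' η - A' η₀| |B'| ≤ |A' η - B'| |B' - A' η₀|`, and `|B'| ≥ (α/4) |B| ≥ α² r/4`, `r ≤ 6 |A'|/α²`: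
`|A' η - A' η₀| ≤ 4·3072² r/α¹⁴ ≤ 24·3072² |A'|/α¹⁶`, and `24·3072² ≤ 2²⁸`.  Finally `|A' - A' η η₀⁻¹| = |A' η₀ - A' η|`
(multiplication by `η₀⁻¹`). -/
def St_GRD : Prop := ∀ (F : Type) [DivisionRing F] [DecidableEq F] (G : Finset (F × F))
  (Λ : Finset F) (r α : ℝ), 0 < α → 0 < r → ((G.image Prod.fst).card : ℝ) ≤ r →
  ((G.image Prod.snd).card : ℝ) ≤ r → α * r ^ 2 ≤ G.card →
  (∀ η ∈ Λ, η ≠ 0 ∧ ((G.image fun p => p.1 * η - p.2).card : ℝ) ≤ r) →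
  ∃ A₀ ⊆ G.image Prod.fst, A₀.Nonempty ∧ α ^ 2 * r ≤ 6 * (A₀.card : ℝ) ∧
    (∀ a ∈ A₀, α ^ 2 * r ≤ 2 * ((G.filter fun p => p.1 = a).card : ℝ)) ∧
    ∀ η ∈ Λ, ∀ η₀ ∈ Λ, PrA A₀ (2 ^ 28 * (α⁻¹) ^ 16) (η * η₀⁻¹)

/-- **CAL** (1 h). Ruzsa calculus.  Hypotheses: none.

Proof.  By Ruzsa's covering lemma (`Finset.ruzsa_covering_add` for `A λ` and `-A`; `|A λ - A| = |A - A λ|`) there are `T₁`, `T₂` of size `≤ k` with
`A λ ⊆ T₁ + (A - A)`, `A μ ⊆ T₂ + (A - A)`; and `|3 A - 2 A| ≤ k⁵ |A|` (`Finset.pluennecke_ruzsa_inequality_nsmul_sub_nsmul_sub`).  So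
`A - A (λ ± μ) ⊆ A - (A λ ± A μ) ⊆ ∓ .. T₁, T₂ .. + (3 A - 2 A)` has at most `k² k⁵ |A|` elements.  `A (λ μ) = (A λ) μ ⊆ T₁ μ + (A μ - A μ)
⊆ T₁ μ + T₂ - T₂ + (2 A - 2 A)`: at most `k³ k⁵ |A|`.  `|A - A λ⁻¹| = |A λ - A|` (multiply by `λ`). -/
def St_CAL : Prop := ∀ (F : Type) [DivisionRing F] [DecidableEq F] (A : Finset F) (k : ℝ),
  A.Nonempty → 1 ≤ k → PrA A k 1 → ∀ ξ ζ : F, PrA A k ξ → PrA A k ζ →
  PrA A (k ^ 7) (ξ + ζ) ∧ PrA A (k ^ 7) (ξ - ζ) ∧ PrA A (k ^ 8) (ξ * ζ) ∧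
    (ξ ≠ 0 → PrA A k ξ⁻¹)

/-- **NUM** (0.8 h). Few `ξ` have `|A - A ξ| ≤ k |A|`.  Hypotheses: none.

Proof.  For `ξ ≠ 0` the number of `(a₁, a₂, a₃, a₄) ∈ A⁴` with `a₁ - a₃ ξ = a₂ - a₄ ξ` is at least `|A|⁴/|A - A ξ| ≥ |A|³/k`
(Cauchy-Schwarz).  At most `|A|²` of them have `a₃ = a₄`; the others determine `ξ = (a₃ - a₄)⁻¹ (a₁ - a₂)`.  With `m` the number of
`ξ ≠ 0` in `Λ`: `m |A|³/k ≤ m |A|² + |A|⁴`, and `|A|² ≤ |A|³/(2k)`, so `m ≤ 2 k |A|`. -/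
def St_NUM : Prop := ∀ (F : Type) [DivisionRing F] [DecidableEq F] (A : Finset F) (k : ℝ)
  (Λ : Finset F), 1 ≤ k → 2 * k ≤ A.card → (∀ ξ ∈ Λ, PrA A k ξ) →
  (Λ.card : ℝ) ≤ 2 * k * A.card + 1

/-- **FLD** (1 h). The subfield.  Hypotheses: `St_CAL`, `St_NUM`.

Proof.  `D = {(λ₂ - λ₄)⁻¹ (λ₃ - λ₁) : λ_i ∈ Λ, λ₂ ≠ λ₄}` (finite).  By `St_CAL` (with `k`, then with `k⁷`) every element of `D` satisfies
`PrA A (k⁵⁶)`.  Claim: every `ξ` with `PrA A (k⁴⁴⁸) ξ` is in `D`.  Otherwise `(λ₁, λ₂) ↦ λ₁ + λ₂ ξ` is injective on `Λ × Λ`, and all its values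
satisfy `PrA A (k²⁵⁰⁸⁸)` (`St_CAL` with `k⁴⁴⁸`: `λ₂ ξ` has exponent `448·8 = 3584`; then with `k³⁵⁸⁴`: `3584·7 = 25088`), against `St_NUM`.
By `St_CAL` with `k⁵⁶` sums, differences (exponent `392`), products (`448`) and inverses of elements of `D` satisfy `PrA A (k⁴⁴⁸)`,
so `D` is a subfield; it contains `Λ` (`λ = (1 - 0)⁻¹ (λ - 0)`), and `|D| ≤ 2 k⁵⁶ |A| + 1` by `St_NUM`.  (`PrA` is monotone in `k`.) -/
def St_FLD : Prop := ∀ (F : Type) [DivisionRing F] [DecidableEq F] (A : Finset F) (k : ℝ)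
  (Λ : Finset F), A.Nonempty → 1 ≤ k → (0 : F) ∈ Λ → (1 : F) ∈ Λ → (∀ ξ ∈ Λ, PrA A k ξ) →
  2 * k ^ 25088 ≤ A.card → 2 * k ^ 25088 * A.card + 1 < (Λ.card : ℝ) ^ 2 →
  ∃ K₀ : Subfield F, (K₀ : Set F).Finite ∧ (Nat.card K₀ : ℝ) ≤ 2 * k ^ 56 * A.card + 1 ∧
    (∀ ξ ∈ Λ, ξ ∈ K₀) ∧ ∀ ξ ∈ K₀, PrA A (k ^ 56) ξ

/-- **COS** (0.8 h). Many elements of `A` in a coset of `x K₀`.  Hypotheses: none.

Proof.  `q = |K₀|`.  For `ξ ∈ K₀`, `ξ ≠ 0`, at least `|A|³/k` quadruples satisfy `a₁ - a₂ = (a₃ - a₄) ξ` (Cauchy-Schwarz for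
`a₁ - a₃ ξ`, as in `St_NUM`); `|A|² ≤ |A|³/(2k)` of them have `a₃ = a₄`.  So at least `(q - 1) |A|³/(2k)` quadruples with `a₃ ≠ a₄` have
`(a₃ - a₄)⁻¹ (a₁ - a₂) ∈ K₀`.  Some `(a₂, a₃, a₄)` with `a₃ ≠ a₄` is in at least `(q - 1)/(2k)` of them: `x = a₃ - a₄`, `a₀ = a₂`.
(If `q = 1` take anything.) -/
def St_COS : Prop := ∀ (F : Type) [DivisionRing F] [DecidableEq F] (A : Finset F) (k : ℝ)
  (K₀ : Subfield F), 1 ≤ k → 2 * k ≤ A.card → (K₀ : Set F).Finite → (∀ ξ ∈ K₀, PrA A k ξ) →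
  ∃ a₀ x : F, x ≠ 0 ∧
    ((Nat.card K₀ : ℝ) - 1) ≤ 2 * k * (Nat.card {a : F // a ∈ A ∧ x⁻¹ * (a - a₀) ∈ K₀} : ℝ)

/-- **SPL** (0.8 h). Many points in an affine plane over `K₀`.  Hypotheses: none.

Proof.  For `η ∈ Λ` the number of `(p, q) ∈ S × S` with `a p η - b p = a q η - b q` is at least `|S|²/r` (Cauchy-Schwarz).  A pair
with `p ≠ q` is counted for at most one `η` (`a p = a q` would give `b p = b q`).  So at least
`|Λ| |S| (|S|/r - 1) ≥ |Λ| |S|²/(2r)` pairs `p ≠ q` satisfy `b p - b q = (a p - a q) η` for some `η ∈ Λ`.  For them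
`x⁻¹ (b p - b q) η₀⁻¹ = (x⁻¹ (a p - a₀) - x⁻¹ (a q - a₀)) (η η₀⁻¹) ∈ K₀`.  Some `q` is in at least `|Λ| |S|/(2r)` of the pairs:
`b₀ = b q`. -/
def St_SPL : Prop := ∀ (F : Type) [DivisionRing F] [DecidableEq F] (V : Type) [DecidableEq V]
  (S : Finset V) (a b : V → F) (Λ : Finset F) (K₀ : Subfield F) (a₀ x η₀ : F) (r : ℝ), 0 < r →
  x ≠ 0 → η₀ ≠ 0 → (∀ p ∈ S, ∀ q ∈ S, a p = a q → b p = b q → p = q) →
  (∀ η ∈ Λ, η * η₀⁻¹ ∈ K₀ ∧ ((S.image fun p => a p * η - b p).card : ℝ) ≤ r) →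
  (∀ p ∈ S, x⁻¹ * (a p - a₀) ∈ K₀) → 2 * r ≤ S.card →
  ∃ b₀ : F, (Λ.card : ℝ) * S.card ≤
    2 * r * (Nat.card {p : V // p ∈ S ∧ x⁻¹ * (b p - b₀) * η₀⁻¹ ∈ K₀} : ℝ)

/-- **PLN** (2 h). The sizes of the blocks of a plane over `K₀` lie in a short window.  Hypotheses: none.

Proof.  `S` the set in the statement, `s` its cardinality, `u p = x⁻¹ (a p - a₀)`, `v p = x⁻¹ (b p - b₀) η₀⁻¹` for `p ∈ S`: `(u, v) : S → K₀ × K₀` is
injective (hypothesis (1)).  The `q² + q` lines of `K₀ × K₀`: `v = u ξ + c` for `(ξ, c) ∈ K₀²`, and `u = c` for `c ∈ K₀`.  For a line `ℓ` let `S_ℓ` be the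
set of the `p ∈ S` on it, `i_ℓ = |S_ℓ|`.  Every point is on `q + 1` lines and two points are on exactly one, so
`∑ i_ℓ = s (q + 1)`, `∑ i_ℓ (i_ℓ - 1) = s (s - 1)` and `∑ (i_ℓ - s/q)² = s q - s²/q ≤ q³` (`s ≤ q²`).  So fewer than
`q²/4` (at most `q²/4`) lines have `|i_ℓ - s/q| > 2 √q`.  If `|i_ℓ - s/q| ≤ 2 √q` then `i_ℓ ≥ 4 √q - 2 √q ≥ 2` (`s ≥ 4 q √q`); call `ℓ` rich if `i_ℓ ≥ 2`.
For a rich line let `e_ℓ` be the block through two points of `S_ℓ`.  On `ℓ : v = u ξ + c` we have `a p μ - b p = m_ℓ` with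
`μ = ξ η₀`, `m_ℓ = a₀ ξ η₀ - b₀ - x c η₀`; two points of `S_ℓ` have different `u`, so they determine `μ`, and by hypothesis (4) a point `z ∉ L` is in
`e_ℓ` iff `a z μ - b z = m_ℓ`.  For `ℓ : u = c` it is in `e_ℓ` iff `a z = a₀ + x c`.  So `e_ℓ ∩ S = S_ℓ`, and different rich lines give different blocks
(they have at most one common point of `S`).  `e_ℓ ≠ L`, so `e_ℓ` contains at most one point of `L`.  A point `z ∉ L`, `z ∉ S` is in at most one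
`e_ℓ`: if it is in `e_ℓ` and `e_ℓ'` with `ξ ≠ ξ'`, then `(a z - a₀)(ξ - ξ') η₀ ∈ x K₀ η₀`, so `a z - a₀ ∈ x K₀`, and then `b z - b₀ ∈ x K₀ η₀`, so
`z ∈ S`; the same if one of the lines is `u = c`; parallel lines are impossible.  Hence `∑_{ℓ rich} |e_ℓ \ (S ∪ L)| ≤ n` and at most `q²/4` rich lines
have `|e_ℓ \ (S ∪ L)| > 4n/q²`.  The other at least `q²/2` lines give distinct blocks with sizes in the interval
`[s/q - 2√q, s/q + 2√q + 4n/q² + 1]`, which contains at most `4√q + 4n/q² + 2` integers. -/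
def St_PLN : Prop := ∀ (F : Type) [DivisionRing F] (V : Type) [Fintype V] [DecidableEq V]
  (H : Finset (Finset V)) (L : Finset V) (a b : V → F) (K₀ : Subfield F) (x η₀ a₀ b₀ : F) (q s : ℕ),
  H.IsPairwiseBalancedDesign → L ∈ H →
  (∀ p q : V, p ∉ L → q ∉ L → a p = a q → b p = b q → p = q) →
  (∀ p q z : V, p ∉ L → q ∉ L → z ∉ L → p ≠ q →
    ((∃ e ∈ H, p ∈ e ∧ q ∈ e ∧ z ∈ e) ↔ (a p = a q ∧ a z = a p) ∨
      ∃ μ : F, a p * μ - b p = a q * μ - b q ∧ a z * μ - b z = a p * μ - b p)) →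
  (K₀ : Set F).Finite → Nat.card K₀ = q → x ≠ 0 → η₀ ≠ 0 →
  Nat.card {p : V // p ∉ L ∧ x⁻¹ * (a p - a₀) ∈ K₀ ∧ x⁻¹ * (b p - b₀) * η₀⁻¹ ∈ K₀} = s →
  16 * q ^ 3 ≤ s ^ 2 →
  ∃ t : ℕ, (q : ℝ) ^ 2 ≤
    (Nt H t : ℝ) * (8 * Real.sqrt q + 8 * (Fintype.card V : ℝ) / (q : ℝ) ^ 2 + 4)

/-- **FIN** (1.3 h). Assembly.  Hypotheses: `St_CNT`, `St_TRF`, `St_PEN`, `St_GRD`, `St_FLD`, `St_COS`, `St_SPL`, `St_PLN`.

Proof.  `N = √n`, `α = 1/(3200 K²)`, `r = 40 K N`, `k = 2²⁸ α⁻¹⁶ = 2²⁸ 3200¹⁶ K³²` (`k ≥ 2²⁸`, `k ≥ 3200 K²`).  Claim: `n ≤ k^60000`.  Suppose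
`n > k^60000`, so `N > k^30000`.  `St_CNT`: `L`, `W`, `|W| ≥ N/(2K)`; take `w₁ ≠ w₂` in `W`; `St_TRF`: `a`, `b`, `η`.  `Λ = η (W \ {w₁, w₂})`,
`|Λ| ≥ N/(2K) - 2 ≥ N/(4K)`.  `G` the set of the `(a p, b p)`, `p ∉ L`: `|G| = |V \ L| ≥ n/2 = α r²`; `St_PEN` for `a`, `b` (`w₁`, `w₂`) and
`a η w - b` gives the hypotheses of `St_GRD`: `A₀`, `|A₀| ≥ α² r/6`, `|A₀| ≤ r`, degrees `≥ α² r/2`.  Fix `η₀ ∈ Λ`.
`Λ₁ = {η η₀⁻¹ : η ∈ Λ} ∪ {0}`, contains `0` (`PrA A₀ 1 0`) and `1`, `|Λ₁| ≥ N/(4K)`.  `St_FLD` (`|A₀| ≥ α² r/6 ≥ 2 k^25088`,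
`|Λ₁|² ≥ n/(16K²) > 2 k^25088 · 40 K N + 1`): `K₀`, `q = |K₀| ≥ |Λ₁| ≥ N/(4K)`, `q ≤ 2 k⁵⁶ · 40 K N + 1 ≤ k⁵⁸ N`.  `St_COS` with `k⁵⁶`: `a₀`, `x`, the set
`A_c` of the elements of `A₀` in the coset has at least `(q - 1)/(2k⁵⁶) ≥ N/(16 K k⁵⁶)` elements; `S₁ = {p ∉ L : a p ∈ A_c}`:
`|S₁| ≥ |A_c| α² r/2 ≥ α² n/k⁵⁶ ≥ 2r`.  `St_SPL`: `b₀` with `s ≥ |Λ| |S₁|/(2r) ≥ α² n/(320 K² k⁵⁶) ≥ n/k⁵⁸` for the set of `St_PLN`.
`s² ≥ n²/k¹¹⁶ ≥ 16 k¹⁷⁴ N³ ≥ 16 q³`.  `St_PLN`: `q² ≤ K N (8√q + 8n/q² + 4)`.  As `q² ≥ s ≥ n/k⁵⁸`: `8n/q² + 4 ≤ 9 k⁵⁸`, and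
`8 √q ≤ 8 k²⁹ n^(1/4)`, `q² ≥ n/k⁵⁸`: `n ≤ k⁵⁸ K N (8 k²⁹ n^(1/4) + 9 k⁵⁸) ≤ k¹²⁰ n^(3/4)`, so `n ≤ k⁴⁸⁰`: contradiction. -/
def St_FIN : Prop := ∃ (C₀ : ℝ) (E : ℕ), 1 ≤ C₀ ∧ ∀ (F : Type) [DivisionRing F] (V : Type)
  [Fintype V] [DecidableEq V] (H : Finset (Finset V)) (φ : V → F × F) (K : ℝ),
  H.IsPairwiseBalancedDesign → (∀ e ∈ H, e.card < Fintype.card V) → Function.Injective φ →
  (∀ x y z : V, (∃ e ∈ H, x ∈ e ∧ y ∈ e ∧ z ∈ e) ↔ Collinear F {φ x, φ y, φ z}) → 1 ≤ K →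
  (∀ t, (Nt H t : ℝ) ≤ K * Real.sqrt (Fintype.card V)) → (Fintype.card V : ℝ) ≤ C₀ * K ^ E

/-- **RES** (0.5 h). The theorem.  Hypotheses: `St_FIN`.

Proof.  `δ = 1/(2E + 2)` and `c = 1/(2 C₀)` (`c ≤ 1/2`).  `n = 0`: clear (`0 ^ (1/2 + δ) = 0`).  `n = 1`: the collinearity hypothesis fails for
`x = y = z` (there is no block: blocks have at least `2` points).  `n ≥ 2`: `H` is not empty; let `M` be the maximum of the `Nt H t` (`≥ 1`), `K = max 1 (M/√n)`.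
`St_FIN`: `n ≤ C₀ K^E`.  If `K = 1`: `n ≤ C₀`, so `c n^(1/2+δ) ≤ c n ≤ 1 ≤ M`.  Otherwise `K = M/√n`, `K ≥ (n/C₀)^(1/E) ≥ c n^δ` (`E ≥ 1` may be assumed: replace `E` by
`E + 1`, `K ≥ 1`). -/
def St_RES : Prop := ∃ δ : ℝ, 0 < δ ∧ ∃ c : ℝ, 0 < c ∧ ∀ (F : Type) [DivisionRing F] (n : ℕ)
  (H : Finset (Finset (Fin n))) (φ : Fin n → F × F), H.IsPairwiseBalancedDesign →
  (∀ e ∈ H, e.card < n) → Function.Injective φ →
  (∀ x y z : Fin n, (∃ e ∈ H, x ∈ e ∧ y ∈ e ∧ z ∈ e) ↔ Collinear F {φ x, φ y, φ z}) →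
  ∃ t : ℕ, c * (n : ℝ) ^ (1 / 2 + δ) ≤ ((H.filter fun e => e.card = t).card : ℝ)

end Pool.Agent.DSG
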